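import Pool.Agent.Run7.h108.Electro

/-!
# Assembly of the one-electron bound
-/

set_option autoImplicit false

open scoped ENNReal ContDiff InnerProductSpace Topology
open MeasureTheory Filter Set

namespace Run7.h108

variable {V : Type*} [NormedAddCommGroup V] [InnerProductSpace ℂ V] [CompleteSpace V]
variable {A : Fin 3 → R3 → ℝ} {b : Fin 3 → Fin 3 → R3 → ℝ}

/-- nucleus-nucleus sum over pairs -/
noncomputable def pairS {K : ℕ} (z : Fin K → ℝ) (y : Fin K → R3) : ℝ :=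
  ∑ k, ∑ l ∈ Finset.Ioi k, z k * z l / ‖y k - y l‖

/-- indicator charges -/
noncomputable def indZ {K : ℕ} (S : Finset (Fin K)) (Z : ℝ) (k : Fin K) : ℝ :=
  if k ∈ S then Z else 0

theorem pairS_ge {K : ℕ} (S : Finset (Fin K)) {Z : ℝ} (hZ : 0 ≤ Z) (y : Fin K → R3) {k0 : Fin K}
    (hk0 : k0 ∈ S) :
    Z ^ 2 * ∑ k ∈ S.erase k0, 1 / ‖y k0 - y k‖ ≤ pairS (indZ S Z) y := by
  classical
  have hind : ∀ k, 0 ≤ indZ S Z k := by
    intro k; unfold indZ; split_ifs <;> simp [hZ]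
  have hterm : ∀ k l, 0 ≤ indZ S Z k * indZ S Z l / ‖y k - y l‖ := fun k l =>
    div_nonneg (mul_nonneg (hind k) (hind l)) (norm_nonneg _)
  -- the lower bound of inner sums
  have h1 : ∀ k, (if k = k0 then ∑ l ∈ Finset.Ioi k0, indZ S Z k0 * indZ S Z l / ‖y k0 - y l‖
      else if k < k0 then indZ S Z k * indZ S Z k0 / ‖y k - y k0‖ else 0) ≤
      ∑ l ∈ Finset.Ioi k, indZ S Z k * indZ S Z l / ‖y k - y l‖ := by
    intro k
    split_ifs with h2 h3
    · rw [h2]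
    · exact Finset.single_le_sum (f := fun l => indZ S Z k * indZ S Z l / ‖y k - y l‖)
        (fun l _ => hterm k l) (Finset.mem_Ioi.2 h3)
    · exact Finset.sum_nonneg fun l _ => hterm k l
  have h2 : ∑ k, (if k = k0 then ∑ l ∈ Finset.Ioi k0, indZ S Z k0 * indZ S Z l / ‖y k0 - y l‖
      else if k < k0 then indZ S Z k * indZ S Z k0 / ‖y k - y k0‖ else 0) =
      ∑ l ∈ Finset.univ.erase k0, indZ S Z k0 * indZ S Z l / ‖y k0 - y l‖ := by
    rw [← Finset.add_sum_erase Finset.univ _ (Finset.mem_univ k0)]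
    rw [if_pos rfl]
    have h3 : ∑ k ∈ Finset.univ.erase k0, (if k = k0 then ∑ l ∈ Finset.Ioi k0,
        indZ S Z k0 * indZ S Z l / ‖y k0 - y l‖
        else if k < k0 then indZ S Z k * indZ S Z k0 / ‖y k - y k0‖ else 0) =
        ∑ k ∈ Finset.Iio k0, indZ S Z k0 * indZ S Z k / ‖y k0 - y k‖ := by
      have h4 : Finset.Iio k0 ⊆ Finset.univ.erase k0 := by
        intro k hk
        exact Finset.mem_erase.2 ⟨(Finset.mem_Iio.1 hk).ne, Finset.mem_univ _⟩
      rw [← Finset.sum_subset h4 (f := fun k => if k = k0 then ∑ l ∈ Finset.Ioi k0,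
        indZ S Z k0 * indZ S Z l / ‖y k0 - y l‖
        else if k < k0 then indZ S Z k * indZ S Z k0 / ‖y k - y k0‖ else 0)]
      · refine Finset.sum_congr rfl fun k hk => ?_
        have hk' := Finset.mem_Iio.1 hk
        rw [if_neg hk'.ne, if_pos hk', norm_sub_rev (y k0), mul_comm (indZ S Z k0)]
      · intro k hk hk2
        rw [if_neg (Finset.ne_of_mem_erase hk), if_neg]
        intro h5; exact hk2 (Finset.mem_Iio.2 h5)
    rw [h3]
    have h5 : Finset.univ.erase k0 = Finset.Ioi k0 ∪ Finset.Iio k0 := by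
      ext k
      simp only [Finset.mem_erase, Finset.mem_univ, and_true, Finset.mem_union, Finset.mem_Ioi,
        Finset.mem_Iio]
      constructor
      · intro h; exact (lt_or_gt_of_ne h).symm
      · rintro (h | h)
        · exact h.ne'
        · exact h.ne
    rw [h5, Finset.sum_union]
    rw [Finset.disjoint_left]
    intro k hk hk2
    exact absurd (Finset.mem_Ioi.1 hk) (not_lt.2 (Finset.mem_Iio.1 hk2).le)
  have h6 : Z ^ 2 * ∑ k ∈ S.erase k0, 1 / ‖y k0 - y k‖ ≤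
      ∑ l ∈ Finset.univ.erase k0, indZ S Z k0 * indZ S Z l / ‖y k0 - y l‖ := by
    rw [Finset.mul_sum]
    have h7 : S.erase k0 ⊆ Finset.univ.erase k0 :=
      Finset.erase_subset_erase _ (Finset.subset_univ S)
    refine le_trans (le_of_eq ?_) (Finset.sum_le_sum_of_subset_of_nonneg h7
      fun l _ _ => hterm k0 l)
    refine Finset.sum_congr rfl fun k hk => ?_
    have hkS := Finset.mem_of_mem_erase hk
    unfold indZ
    rw [if_pos hk0, if_pos hkS]
    ring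
  refine h6.trans ?_
  rw [← h2]
  exact Finset.sum_le_sum fun k _ => h1 k

/-- Bound for the regularised potential, for states in the domain. -/
theorem reg_bound (h : WeakField A b) (C : Cliff V) (m : ℝ)
    {P : Lp V 2 (volume : Measure R3) →L[ℂ] Lp V 2 (volume : Measure R3)}
    (hP : PosSpec (Adj (T0 C m A)) P) {K : ℕ} {S : Finset (Fin K)} (hS : S.Nonempty)
    {y : Fin K → R3} (hy : Function.Injective y)
    {τ δ ε a Z : ℝ} (hτ : 0 < τ) (hδ : 0 < δ) (hε : 0 < ε) (hε1 : ε ≤ 1) (ha : 0 ≤ a)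
    (hZ : 0 ≤ Z) (h1 : a * Z ≤ 5 / 4 * (1 - ε) * (2 / Real.pi))
    (h2 : a * Z + 5 / 4 * (1 - ε) * (4 / Real.pi) ≤ a * Z ^ 2 / 2)
    {ψ g : Lp V 2 (volume : Measure R3)} (hψ : (ψ, g) ∈ Adj (T0 C m A)) (hPψ : P ψ = ψ) :
    ∫ x, a * (Z * ∑ k ∈ S, 1 / RR δ (y k) x) * ‖ψ x‖ ^ 2 ≤
      (⟪ψ, g⟫_ℂ).re + ((∫ x, curlN b x ^ 2) ^ 2 / (500 * ε ^ 3) * τ +
        5 / 4 * (1 - ε) * (4 / (5 * Real.pi)) / τ + a * pairS (indZ S Z) y) * ‖ψ‖ ^ 2 := by
  have hκ0 : 0 ≤ 5 / 4 * (1 - ε) := by nlinarith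
  obtain ⟨hBM, hev⟩ := evol_nuclei h C m hP hS y hτ hδ hε hε1 hψ hPψ
  have hsq : Integrable (fun x => ‖ψ x‖ ^ 2) :=
    (memLp_two_iff_integrable_sq_norm (Lp.memLp ψ).1).1 (Lp.memLp ψ)
  have hbdd : ∀ w : R3 → ℝ, BM w → Integrable (fun x => w x * ‖ψ x‖ ^ 2) := by
    rintro w ⟨hm, C, hC⟩
    have := hsq.bdd_mul hm (c := C) (Eventually.of_forall fun x => by
      rw [Real.norm_eq_abs]; exact hC x)
    exact this
  have hRc : ∀ k, Continuous fun x => 1 / RR δ (y k) x := fun k =>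
    continuous_const.div (Real.continuous_sqrt.comp (continuous_rho δ (y k)))
      fun x => (RR_pos hδ (y k) x).ne'
  have hB2 : BM (fun x => a * (Z * ∑ k ∈ S, 1 / RR δ (y k) x)) := by
    refine BM.of_cont (continuous_const.mul (continuous_const.mul
      (continuous_finsetSum _ fun k _ => hRc k))) (C := a * (Z * ∑ k ∈ S, 1 / δ)) fun x => ?_
    have hn : 0 ≤ ∑ k ∈ S, 1 / RR δ (y k) x :=
      Finset.sum_nonneg fun k _ => (by have := RR_pos hδ (y k) x; positivity)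
    rw [abs_of_nonneg (by positivity)]
    refine mul_le_mul_of_nonneg_left (mul_le_mul_of_nonneg_left
      (Finset.sum_le_sum fun k _ => ?_) hZ) ha
    refine one_div_le_one_div_of_le hδ ?_
    exact Real.le_sqrt_of_sq_le (rho_ge δ (y k) x)
  have hpt : ∀ x, a * (Z * ∑ k ∈ S, 1 / RR δ (y k) x) ≤
      -(5 / 4 * (1 - ε) * (fft S y τ δ 0 x / ff S y τ δ 0 x)) +
      (5 / 4 * (1 - ε) * (4 / (5 * Real.pi)) / τ + a * pairS (indZ S Z) y) := by
    intro x
    obtain ⟨k0, hk0, hmin⟩ := Finset.exists_min_image S (fun k => ‖x - y k‖) hS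
    have e := electro (S := S) (y := y) (τ := τ) hδ hτ hk0 x hmin
      (fun k _ hk hc => hk (hy hc)) hκ0 ha h1 h2
    have hp := mul_le_mul_of_nonneg_left (pairS_ge S hZ y hk0) ha
    linarith
  have i1 := hbdd _ hB2
  have i2 := hbdd _ hBM
  have i3 := hsq.const_mul (5 / 4 * (1 - ε) * (4 / (5 * Real.pi)) / τ + a * pairS (indZ S Z) y)
  have hint := integral_mono i1 (iadd i2 i3) fun x => by
    have := mul_le_mul_of_nonneg_right (hpt x) (sq_nonneg ‖ψ x‖)
    simp only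
    linarith
  rw [integral_add i2 i3, integral_const_mul, ← norm_sq_L2] at hint
  linarith

/-- `e` is an upper bound of the value at `ψ` of the closed quadratic form of the operator with
graph `Γ`, restricted to the range of `P`. -/
def FormLe {E : Type*} [NormedAddCommGroup E] [InnerProductSpace ℂ E] (Γ : Submodule ℂ (E × E))
    (P : E →L[ℂ] E) (ψ : E) (e : ℝ) : Prop :=
  ∀ η : ℝ, 0 < η → ∃ u g : E, (u, g) ∈ Γ ∧ P u = u ∧ ‖u - ψ‖ < η ∧ (⟪u, g⟫_ℂ).re < e + η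

theorem closed_bound {E : Type*} [NormedAddCommGroup E] [InnerProductSpace ℂ E]
    {Γ : Submodule ℂ (E × E)} {P : E →L[ℂ] E} {X : E →L[ℂ] E} {M : ℝ}
    (hX : ∀ u g, (u, g) ∈ Γ → P u = u → (⟪u, X u⟫_ℂ).re ≤ (⟪u, g⟫_ℂ).re + M * ‖u‖ ^ 2)
    {ψ : E} {e : ℝ} (hψ : FormLe Γ P ψ e) : (⟪ψ, X ψ⟫_ℂ).re ≤ e + M * ‖ψ‖ ^ 2 := by
  choose! u g h1 h2 h3 h4 using hψ
  have hlim : Tendsto (fun n : ℕ => u (1 / ((n : ℝ) + 1))) atTop (𝓝 ψ) := by
    rw [tendsto_iff_norm_sub_tendsto_zero]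
    refine squeeze_zero (fun n => norm_nonneg _) (fun n => (h3 _ (by positivity)).le)
      tendsto_one_div_add_atTop_nhds_zero_nat
  have c1 : Continuous fun u : E => (⟪u, X u⟫_ℂ).re - M * ‖u‖ ^ 2 :=
    (Complex.continuous_re.comp (continuous_id.inner X.continuous)).sub
      (continuous_const.mul (continuous_norm.pow 2))
  have l1 := (c1.tendsto ψ).comp hlim
  have l2 : Tendsto (fun n : ℕ => e + 1 / ((n : ℝ) + 1)) atTop (𝓝 (e + 0)) :=
    tendsto_one_div_add_atTop_nhds_zero_nat.const_add e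
  have l3 := le_of_tendsto_of_tendsto' l1 l2 fun n => by
    have hp : (0 : ℝ) < 1 / ((n : ℝ) + 1) := by positivity
    have := hX _ _ (h1 _ hp) (h2 _ hp)
    have h5 := h4 _ hp
    simp only [Function.comp]
    linarith
  rw [add_zero] at l3
  linarith

/-- Fatou -/
theorem fatou_bound {ψ : R3 → V} (hψ : MemLp ψ 2 volume) {ι : Type*} (S : Finset ι) (y : ι → R3)
    {M : ℝ} (hM : ∀ δ : ℝ, 0 < δ → ∫ x, (∑ k ∈ S, 1 / RR δ (y k) x) * ‖ψ x‖ ^ 2 ≤ M) :
    Integrable (fun x => (∑ k ∈ S, 1 / ‖x - y k‖) * ‖ψ x‖ ^ 2) ∧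
      ∫ x, (∑ k ∈ S, 1 / ‖x - y k‖) * ‖ψ x‖ ^ 2 ≤ M := by
  have hsq : Integrable (fun x => ‖ψ x‖ ^ 2) := (memLp_two_iff_integrable_sq_norm hψ.1).1 hψ
  have hRc : ∀ δ : ℝ, 0 < δ → ∀ k, Continuous fun x => 1 / RR δ (y k) x := fun δ hδ k =>
    continuous_const.div (Real.continuous_sqrt.comp (continuous_rho δ (y k)))
      fun x => (RR_pos hδ (y k) x).ne'
  have hcs : ∀ δ : ℝ, 0 < δ → Continuous fun x => ∑ k ∈ S, 1 / RR δ (y k) x := fun δ hδ =>
    continuous_finsetSum _ fun k _ => hRc δ hδ k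
  have hn : ∀ δ : ℝ, 0 < δ → ∀ x, 0 ≤ ∑ k ∈ S, 1 / RR δ (y k) x := fun δ hδ x =>
    Finset.sum_nonneg fun k _ => (by have := RR_pos hδ (y k) x; positivity)
  have hi : ∀ δ : ℝ, 0 < δ → Integrable (fun x => (∑ k ∈ S, 1 / RR δ (y k) x) * ‖ψ x‖ ^ 2) := by
    intro δ hδ
    refine hsq.bdd_mul (hcs δ hδ).aestronglyMeasurable (c := ∑ k ∈ S, 1 / δ)
      (Eventually.of_forall fun x => ?_)
    rw [Real.norm_eq_abs, abs_of_nonneg (hn δ hδ x)]
    refine Finset.sum_le_sum fun k _ => ?_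
    refine one_div_le_one_div_of_le hδ ?_
    exact Real.le_sqrt_of_sq_le (rho_ge δ (y k) x)
  have hM0 : 0 ≤ M := le_trans (integral_nonneg fun x => mul_nonneg (hn 1 one_pos x)
    (sq_nonneg _)) (hM 1 one_pos)
  have hmeas : AEStronglyMeasurable (fun x => (∑ k ∈ S, 1 / ‖x - y k‖) * ‖ψ x‖ ^ 2) volume := by
    have h1 : Measurable fun x : R3 => ∑ k ∈ S, 1 / ‖x - y k‖ := by fun_prop
    exact h1.aestronglyMeasurable.mul hsq.1
  have hlint : ∫⁻ x, ENNReal.ofReal ((∑ k ∈ S, 1 / ‖x - y k‖) * ‖ψ x‖ ^ 2) ≤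
      ENNReal.ofReal M := by
    let d : ℕ → ℝ := fun n => 1 / ((n : ℝ) + 1)
    have hd : ∀ n, 0 < d n := fun n => by positivity
    have hd0 : Tendsto d atTop (𝓝 0) := tendsto_one_div_add_atTop_nhds_zero_nat
    have hae : ∀ᵐ x ∂(volume : Measure R3), ∀ k ∈ S, x ≠ y k := by
      rw [Finset.eventually_all]
      intro k _
      exact Measure.ae_ne volume (y k)
    calc ∫⁻ x, ENNReal.ofReal ((∑ k ∈ S, 1 / ‖x - y k‖) * ‖ψ x‖ ^ 2) ≤
        ∫⁻ x, liminf (fun n => ENNReal.ofReal ((∑ k ∈ S, 1 / RR (d n) (y k) x) * ‖ψ x‖ ^ 2))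
          atTop := by
          refine lintegral_mono_ae ?_
          filter_upwards [hae] with x hx
          refine le_of_eq ?_
          symm
          refine Tendsto.liminf_eq ?_
          refine (ENNReal.continuous_ofReal.tendsto _).comp ?_
          refine Tendsto.mul_const _ ?_
          refine tendsto_finsetSum _ fun k hk => ?_
          have hne : ‖x - y k‖ ≠ 0 := norm_ne_zero_iff.2 (sub_ne_zero.2 (hx k hk))
          refine Tendsto.div tendsto_const_nhds ?_ hne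
          unfold RR rho
          have h5 : Tendsto (fun n => Real.sqrt (‖x - y k‖ ^ 2 + d n ^ 2)) atTop
              (𝓝 (Real.sqrt (‖x - y k‖ ^ 2 + 0 ^ 2))) :=
            (Real.continuous_sqrt.tendsto _).comp ((hd0.pow 2).const_add _)
          have h6 : Real.sqrt (‖x - y k‖ ^ 2 + 0 ^ 2) = ‖x - y k‖ := by
            rw [zero_pow two_ne_zero, add_zero, Real.sqrt_sq (norm_nonneg _)]
          rwa [h6] at h5
      _ ≤ liminf (fun n => ∫⁻ x, ENNReal.ofReal ((∑ k ∈ S, 1 / RR (d n) (y k) x) * ‖ψ x‖ ^ 2))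
          atTop := lintegral_liminf_le' fun n => (hi _ (hd n)).1.aemeasurable.ennreal_ofReal
      _ ≤ liminf (fun _ : ℕ => ENNReal.ofReal M) atTop := by
          refine liminf_le_liminf (Eventually.of_forall fun n => ?_)
          rw [← ofReal_integral_eq_lintegral_ofReal (hi _ (hd n)) (Eventually.of_forall fun x =>
            mul_nonneg (hn _ (hd n) x) (sq_nonneg _))]
          exact ENNReal.ofReal_le_ofReal (hM _ (hd n))
      _ = ENNReal.ofReal M := by simp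
  have hnn : ∀ x, 0 ≤ (∑ k ∈ S, 1 / ‖x - y k‖) * ‖ψ x‖ ^ 2 := fun x =>
    mul_nonneg (Finset.sum_nonneg fun k _ => by positivity) (sq_nonneg _)
  have hint : Integrable (fun x => (∑ k ∈ S, 1 / ‖x - y k‖) * ‖ψ x‖ ^ 2) := by
    refine ⟨hmeas, ?_⟩
    rw [hasFiniteIntegral_iff_ofReal (Eventually.of_forall hnn)]
    exact hlint.trans_lt ENNReal.ofReal_lt_top
  refine ⟨hint, ?_⟩
  rw [← ofReal_integral_eq_lintegral_ofReal hint (Eventually.of_forall hnn)] at hlint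
  exact (ENNReal.ofReal_le_ofReal_iff hM0).1 hlint

end Run7.h108
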