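import Pool.Agent.Run7.h108.Clifford

/-!
# The Dirac matrices in the standard representation
-/

set_option autoImplicit false

open scoped InnerProductSpace Matrix

namespace Run7.h108

/-- spinor space `ℂ⁴` -/
abbrev Spinor := EuclideanSpace ℂ (Fin 4)

/-- The matrices `α₁, α₂, α₃` in the standard representation. -/
noncomputable def dAlpha : Fin 3 → Matrix (Fin 4) (Fin 4) ℂ :=
  ![!![0, 0, 0, 1; 0, 0, 1, 0; 0, 1, 0, 0; 1, 0, 0, 0],
    !![0, 0, 0, -Complex.I; 0, 0, Complex.I, 0; 0, -Complex.I, 0, 0; Complex.I, 0, 0, 0],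
    !![0, 0, 1, 0; 0, 0, 0, -1; 1, 0, 0, 0; 0, -1, 0, 0]]

/-- The matrix `β` in the standard representation. -/
noncomputable def dBeta : Matrix (Fin 4) (Fin 4) ℂ :=
  !![1, 0, 0, 0; 0, 1, 0, 0; 0, 0, -1, 0; 0, 0, 0, -1]

theorem dAlpha_herm (j : Fin 3) : (dAlpha j)ᴴ = dAlpha j := by
  fin_cases j <;> ext i k <;> fin_cases i <;> fin_cases k <;>
    simp [dAlpha, Matrix.conjTranspose_apply]

theorem dBeta_herm : dBetaᴴ = dBeta := by
  ext i k; fin_cases i <;> fin_cases k <;> simp [dBeta, Matrix.conjTranspose_apply]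

theorem dAlpha_sq (j : Fin 3) : dAlpha j * dAlpha j = 1 := by
  fin_cases j <;> ext i k <;> fin_cases i <;> fin_cases k <;>
    simp [dAlpha, Matrix.mul_apply, Fin.sum_univ_four]

theorem dBeta_sq : dBeta * dBeta = 1 := by
  ext i k; fin_cases i <;> fin_cases k <;> simp [dBeta, Matrix.mul_apply, Fin.sum_univ_four]

theorem dAlpha_anti (j k : Fin 3) (h : j ≠ k) : dAlpha j * dAlpha k = -(dAlpha k * dAlpha j) := by
  fin_cases j <;> fin_cases k <;> first | exact absurd rfl h | skip
  all_goals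
    ext i l
    fin_cases i <;> fin_cases l <;>
      simp [dAlpha, Matrix.mul_apply, Fin.sum_univ_four]

theorem dAlpha_dBeta (j : Fin 3) : dAlpha j * dBeta = -(dBeta * dAlpha j) := by
  fin_cases j <;> ext i k <;> fin_cases i <;> fin_cases k <;>
    simp [dAlpha, dBeta, Matrix.mul_apply, Fin.sum_univ_four]

/-- action of a matrix on spinors -/
noncomputable def act (M : Matrix (Fin 4) (Fin 4) ℂ) : Spinor →L[ℂ] Spinor :=
  Matrix.toEuclideanCLM (𝕜 := ℂ) (n := Fin 4) M

theorem act_mul (M N : Matrix (Fin 4) (Fin 4) ℂ) (v : Spinor) :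
    act M (act N v) = act (M * N) v := by
  unfold act; rw [map_mul]; rfl

theorem act_one (v : Spinor) : act 1 v = v := by
  unfold act; rw [map_one]; rfl

theorem act_neg (M : Matrix (Fin 4) (Fin 4) ℂ) (v : Spinor) : act (-M) v = -act M v := by
  unfold act; rw [map_neg]; rfl

theorem act_inner (M : Matrix (Fin 4) (Fin 4) ℂ) (hM : Mᴴ = M) (u v : Spinor) :
    ⟪act M u, v⟫_ℂ = ⟪u, act M v⟫_ℂ := by
  have h1 : star (act M) = act M := by
    unfold act
    rw [← map_star, Matrix.star_eq_conjTranspose, hM]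
  have h2 : ContinuousLinearMap.adjoint (act M) = act M := h1
  nth_rewrite 1 [← h2]
  exact ContinuousLinearMap.adjoint_inner_left _ _ _

/-- the Dirac matrices -/
noncomputable def dirac : Cliff Spinor where
  al := fun j => act (dAlpha j)
  be := act dBeta
  al_sa := fun j u v => act_inner _ (dAlpha_herm j) u v
  be_sa := fun u v => act_inner _ dBeta_herm u v
  al_sq := fun j v => by rw [act_mul, dAlpha_sq, act_one]
  be_sq := fun v => by rw [act_mul, dBeta_sq, act_one]
  al_anti := fun j k h v => by rw [act_mul, act_mul, dAlpha_anti j k h, act_neg]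
  al_be := fun j v => by rw [act_mul, act_mul, dAlpha_dBeta, act_neg]

end Run7.h108
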