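import Pool.Agent.Run7.h108.Assembly

/-!
# The one-electron theorem for abstract Dirac matrices
-/

set_option autoImplicit false

open scoped ENNReal ContDiff InnerProductSpace Topology
open MeasureTheory Filter Set

namespace Run7.h108

variable {V : Type*} [NormedAddCommGroup V] [InnerProductSpace ℂ V] [CompleteSpace V]
variable {A : Fin 3 → R3 → ℝ} {b : Fin 3 → Fin 3 → R3 → ℝ}

theorem FormLe.nonneg {T0 : Submodule ℂ (Lp V 2 (volume : Measure R3) ×
      Lp V 2 (volume : Measure R3))}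
    {P : Lp V 2 (volume : Measure R3) →L[ℂ] Lp V 2 (volume : Measure R3)}
    (hP : PosSpec (Adj T0) P) {ψ : Lp V 2 (volume : Measure R3)} {e : ℝ}
    (h : FormLe (Adj T0) P ψ e) : 0 ≤ e := by
  by_contra hc
  have hc' := not_le.1 hc
  obtain ⟨u, g, h1, h2, _, h4⟩ := h (-e) (by linarith)
  have := hP.re_nonneg h1 h2
  linarith

/-- the optimised bound at the vertices -/
theorem vertex_bound (h : WeakField A b) (C : Cliff V) (m : ℝ)
    {P : Lp V 2 (volume : Measure R3) →L[ℂ] Lp V 2 (volume : Measure R3)}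
    (hP : PosSpec (Adj (T0 C m A)) P) {K : ℕ} {S : Finset (Fin K)} (hS : S.Nonempty)
    {y : Fin K → R3} (hy : Function.Injective y)
    {ε a Z s : ℝ} (hs : 0 < s) (hε : 0 < ε) (hε1 : ε ≤ 1) (ha : 0 < a)
    (hZ : 0 < Z) (h1 : a * Z ≤ 5 / 4 * (1 - ε) * (2 / Real.pi))
    (h2 : a * Z + 5 / 4 * (1 - ε) * (4 / Real.pi) ≤ a * Z ^ 2 / 2)
    {ψ : Lp V 2 (volume : Measure R3)} {e : ℝ} (hψ : FormLe (Adj (T0 C m A)) P ψ e) :
    Integrable (fun x => (∑ k ∈ S, 1 / ‖x - y k‖) * ‖ψ x‖ ^ 2) ∧
    a * Z * ∫ x, (∑ k ∈ S, 1 / ‖x - y k‖) * ‖ψ x‖ ^ 2 ≤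
      e + ((s / (500 * ε ^ 3) + 5 / 4 * (1 - ε) * (4 / (5 * Real.pi)) / s) *
        (∫ x, curlN b x ^ 2) + a * pairS (indZ S Z) y) * ‖ψ‖ ^ 2 := by
  have hpi := Real.pi_pos
  obtain ⟨B, hB⟩ : ∃ B, B = ∫ x, curlN b x ^ 2 := ⟨_, rfl⟩
  have hB0 : 0 ≤ B := hB ▸ integral_nonneg fun x => sq_nonneg _
  obtain ⟨K0, hK0⟩ : ∃ K0, K0 = s / (500 * ε ^ 3) + 5 / 4 * (1 - ε) * (4 / (5 * Real.pi)) / s :=
    ⟨_, rfl⟩
  rw [← hB, ← hK0]
  have hκ0 : 0 ≤ 5 / 4 * (1 - ε) := by nlinarith
  -- for every regularisation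
  have hreg : ∀ δ : ℝ, 0 < δ → a * Z * ∫ x, (∑ k ∈ S, 1 / RR δ (y k) x) * ‖ψ x‖ ^ 2 ≤
      e + (K0 * B + a * pairS (indZ S Z) y) * ‖ψ‖ ^ 2 := by
    intro δ hδ
    have hRc : ∀ k, Continuous fun x => 1 / RR δ (y k) x := fun k =>
      continuous_const.div (Real.continuous_sqrt.comp (continuous_rho δ (y k)))
        fun x => (RR_pos hδ (y k) x).ne'
    have hB2 : BM (fun x => a * (Z * ∑ k ∈ S, 1 / RR δ (y k) x)) := by
      refine BM.of_cont (continuous_const.mul (continuous_const.mul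
        (continuous_finsetSum _ fun k _ => hRc k))) (C := a * (Z * ∑ k ∈ S, 1 / δ)) fun x => ?_
      have hn : 0 ≤ ∑ k ∈ S, 1 / RR δ (y k) x :=
        Finset.sum_nonneg fun k _ => (by have := RR_pos hδ (y k) x; positivity)
      rw [abs_of_nonneg (by positivity)]
      refine mul_le_mul_of_nonneg_left (mul_le_mul_of_nonneg_left
        (Finset.sum_le_sum fun k _ => ?_) hZ.le) ha.le
      refine one_div_le_one_div_of_le hδ ?_
      exact Real.le_sqrt_of_sq_le (rho_ge δ (y k) x)
    have hη : ∀ η : ℝ, 0 < η → a * Z * ∫ x, (∑ k ∈ S, 1 / RR δ (y k) x) * ‖ψ x‖ ^ 2 ≤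
        e + (K0 * (B + η) + a * pairS (indZ S Z) y) * ‖ψ‖ ^ 2 := by
      intro η hη
      have hτ : 0 < s / (B + η) := by positivity
      have key := closed_bound (Γ := Adj (T0 C m A)) (P := P)
        (X := mulOp V (fun x => a * (Z * ∑ k ∈ S, 1 / RR δ (y k) x)))
        (M := K0 * (B + η) + a * pairS (indZ S Z) y) (fun u g hu hPu => by
          rw [re_inner_mulOp hB2]
          have := reg_bound h C m hP hS hy hτ hδ hε hε1 ha.le hZ.le h1 h2 hu hPu
          simp only [rp_self]
          refine this.trans ?_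
          have h5 : (∫ x, curlN b x ^ 2) ^ 2 / (500 * ε ^ 3) * (s / (B + η)) +
              5 / 4 * (1 - ε) * (4 / (5 * Real.pi)) / (s / (B + η)) + a * pairS (indZ S Z) y ≤
              K0 * (B + η) + a * pairS (indZ S Z) y := by
            rw [← hB, hK0]
            have e1 : 5 / 4 * (1 - ε) * (4 / (5 * Real.pi)) / (s / (B + η)) =
              5 / 4 * (1 - ε) * (4 / (5 * Real.pi)) / s * (B + η) := by
              field_simp
            have e2 : B ^ 2 / (500 * ε ^ 3) * (s / (B + η)) ≤ s / (500 * ε ^ 3) * (B + η) := by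
              have e3 : B ^ 2 / (500 * ε ^ 3) * (s / (B + η)) =
                s / (500 * ε ^ 3) * (B ^ 2 / (B + η)) := by field_simp
              rw [e3]
              refine mul_le_mul_of_nonneg_left ?_ (by positivity)
              rw [div_le_iff₀ (by positivity)]
              nlinarith
            rw [e1]
            linarith
          have h6 := mul_le_mul_of_nonneg_right h5 (sq_nonneg ‖u‖)
          linarith) hψ
      rw [re_inner_mulOp hB2] at key
      simp only [rp_self] at key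
      refine le_trans (le_of_eq ?_) key
      rw [← integral_const_mul]
      refine integral_congr_ae (Eventually.of_forall fun x => ?_)
      simp only
      ring
    have l1 : Tendsto (fun n : ℕ => e + (K0 * (B + 1 / ((n : ℝ) + 1)) +
        a * pairS (indZ S Z) y) * ‖ψ‖ ^ 2) atTop
        (𝓝 (e + (K0 * (B + 0) + a * pairS (indZ S Z) y) * ‖ψ‖ ^ 2)) :=
      ((((tendsto_one_div_add_atTop_nhds_zero_nat.const_add B).const_mul K0).add_const
        _).mul_const _).const_add e
    have := ge_of_tendsto' l1 fun n => hη (1 / ((n : ℝ) + 1)) (by positivity)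
    rwa [add_zero] at this
  have haZ : 0 < a * Z := by positivity
  have hf := fatou_bound (Lp.memLp ψ) S y
    (M := (e + (K0 * B + a * pairS (indZ S Z) y) * ‖ψ‖ ^ 2) / (a * Z)) (fun δ hδ => by
      rw [le_div_iff₀ haZ]
      have := hreg δ hδ
      linarith)
  refine ⟨hf.1, ?_⟩
  have h7 := hf.2
  rw [le_div_iff₀ haZ] at h7
  linarith

/-- positivity of functions which are affine in each variable -/
theorem multiaffine {K : ℕ} {F : (Fin K → ℝ) → ℝ} {Z : ℝ}
    (haff : ∀ (z : Fin K → ℝ) (k : Fin K) (t : ℝ), F (Function.update z k t) =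
      (1 - t / Z) * F (Function.update z k 0) + t / Z * F (Function.update z k Z))
    (hZ : 0 < Z) (hv : ∀ S : Finset (Fin K), 0 ≤ F (indZ S Z)) (z : Fin K → ℝ)
    (hz : ∀ k, 0 ≤ z k ∧ z k ≤ Z) : 0 ≤ F z := by
  classical
  have claim : ∀ T : Finset (Fin K), ∀ z : Fin K → ℝ, (∀ k, 0 ≤ z k ∧ z k ≤ Z) →
      (∀ k, k ∉ T → z k = 0 ∨ z k = Z) → 0 ≤ F z := by
    intro T
    induction T using Finset.induction_on with
    | empty =>
      intro z _ h0
      have e : z = indZ (Finset.univ.filter fun k => z k = Z) Z := by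
        funext k
        unfold indZ
        by_cases hk : z k = Z
        · rw [if_pos (by simp [hk]), hk]
        · rw [if_neg (by simp [hk])]
          exact (h0 k (Finset.notMem_empty k)).resolve_right hk
      rw [e]; exact hv _
    | insert k T hk ih =>
      intro z hz h0
      have e : z = Function.update z k (z k) := (Function.update_eq_self k z).symm
      rw [e, haff]
      have hz0 : ∀ (t : ℝ), 0 ≤ t → t ≤ Z → (t = 0 ∨ t = Z) → 0 ≤ F (Function.update z k t) := by
        intro t ht0 htZ ht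
        refine ih _ ?_ ?_
        · intro l
          by_cases hl : l = k
          · rw [hl, Function.update_self]; exact ⟨ht0, htZ⟩
          · rw [Function.update_of_ne hl]; exact hz l
        · intro l hl
          by_cases hlk : l = k
          · rw [hlk, Function.update_self]; exact ht
          · rw [Function.update_of_ne hlk]
            exact h0 l (by simp [hlk, hl])
      have a1 := hz0 0 le_rfl hZ.le (Or.inl rfl)
      have a2 := hz0 Z hZ.le le_rfl (Or.inr rfl)
      have a3 : 0 ≤ z k / Z := div_nonneg (hz k).1 hZ.le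
      have a4 : z k / Z ≤ 1 := (div_le_one hZ).2 (hz k).2
      have a5 : 0 ≤ (1 - z k / Z) * F (Function.update z k 0) := mul_nonneg (by linarith) a1
      have a6 : 0 ≤ z k / Z * F (Function.update z k Z) := mul_nonneg a3 a2
      linarith
  exact claim Finset.univ z hz fun k hk => absurd (Finset.mem_univ k) hk

theorem update_pair {K : ℕ} (z : Fin K → ℝ) (k : Fin K) (t Z : ℝ) (hZ : 0 < Z) {i j : Fin K}
    (hij : i ≠ j) (c : ℝ) :
    Function.update z k t i * Function.update z k t j / c =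
      (1 - t / Z) * (Function.update z k 0 i * Function.update z k 0 j / c) +
      t / Z * (Function.update z k Z i * Function.update z k Z j / c) := by
  by_cases hi : i = k
  · have hj : j ≠ k := fun h => hij (hi.trans h.symm)
    rw [hi]
    simp only [Function.update_self, Function.update_of_ne hj]
    field_simp
    ring
  · by_cases hj : j = k
    · rw [hj]
      simp only [Function.update_self, Function.update_of_ne hi]
      field_simp
      ring
    · simp only [Function.update_of_ne hi, Function.update_of_ne hj]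
      ring

theorem pairS_affine {K : ℕ} (y : Fin K → R3) (z : Fin K → ℝ) (k : Fin K) (t Z : ℝ)
    (hZ : 0 < Z) : pairS (Function.update z k t) y =
      (1 - t / Z) * pairS (Function.update z k 0) y + t / Z * pairS (Function.update z k Z) y := by
  unfold pairS
  rw [Finset.mul_sum, Finset.mul_sum, ← Finset.sum_add_distrib]
  refine Finset.sum_congr rfl fun i _ => ?_
  rw [Finset.mul_sum, Finset.mul_sum, ← Finset.sum_add_distrib]
  refine Finset.sum_congr rfl fun j hj => ?_
  exact update_pair z k t Z hZ (Finset.mem_Ioi.1 hj).ne _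

theorem lin_affine {K : ℕ} (v z : Fin K → ℝ) (k : Fin K) (t Z : ℝ)
    (hZ : 0 < Z) : ∑ i, Function.update z k t i * v i =
      (1 - t / Z) * ∑ i, Function.update z k 0 i * v i +
        t / Z * ∑ i, Function.update z k Z i * v i := by
  rw [Finset.mul_sum, Finset.mul_sum, ← Finset.sum_add_distrib]
  refine Finset.sum_congr rfl fun i _ => ?_
  by_cases hi : i = k
  · rw [hi]; simp only [Function.update_self]; field_simp; ring
  · simp only [Function.update_of_ne hi]; ring

/-- The one-electron theorem with general constants. -/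
theorem one_electron (h : WeakField A b) (C : Cliff V) (m : ℝ)
    {P : Lp V 2 (volume : Measure R3) →L[ℂ] Lp V 2 (volume : Measure R3)}
    (hP : PosSpec (Adj (T0 C m A)) P) {K : ℕ}
    {y : Fin K → R3} (hy : Function.Injective y)
    {ε a Z s : ℝ} (hs : 0 < s) (hε : 0 < ε) (hε1 : ε ≤ 1) (ha : 0 < a)
    (hZ : 0 < Z) (h1 : a * Z ≤ 5 / 4 * (1 - ε) * (2 / Real.pi))
    (h2 : a * Z + 5 / 4 * (1 - ε) * (4 / Real.pi) ≤ a * Z ^ 2 / 2)
    {ψ : Lp V 2 (volume : Measure R3)} {e : ℝ} (hψ : FormLe (Adj (T0 C m A)) P ψ e)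
    {z : Fin K → ℝ} (hz : ∀ k, 0 ≤ z k ∧ z k ≤ Z) :
    (∀ k, Integrable (fun x => 1 / ‖x - y k‖ * ‖ψ x‖ ^ 2)) ∧
    0 ≤ e + ((s / (500 * ε ^ 3) + 5 / 4 * (1 - ε) * (4 / (5 * Real.pi)) / s) *
        (∫ x, curlN b x ^ 2)) * ‖ψ‖ ^ 2 + a * (pairS z y * ‖ψ‖ ^ 2 -
        ∑ k, z k * ∫ x, 1 / ‖x - y k‖ * ‖ψ x‖ ^ 2) := by
  classical
  have hint : ∀ k, Integrable (fun x => 1 / ‖x - y k‖ * ‖ψ x‖ ^ 2) := by
    intro k
    have := (vertex_bound h C m hP (Finset.singleton_nonempty k) hy hs hε hε1 ha hZ h1 h2 hψ).1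
    simpa using this
  refine ⟨hint, ?_⟩
  have hpi := Real.pi_pos
  have hB0 : 0 ≤ ∫ x, curlN b x ^ 2 := integral_nonneg fun x => sq_nonneg _
  have hκ0 : 0 ≤ 5 / 4 * (1 - ε) := by nlinarith
  refine multiaffine (F := fun z => e + ((s / (500 * ε ^ 3) +
    5 / 4 * (1 - ε) * (4 / (5 * Real.pi)) / s) * (∫ x, curlN b x ^ 2)) * ‖ψ‖ ^ 2 +
      a * (pairS z y * ‖ψ‖ ^ 2 - ∑ k, z k * ∫ x, 1 / ‖x - y k‖ * ‖ψ x‖ ^ 2)) ?_ hZ ?_ z hz
  · intro z k t
    rw [pairS_affine y z k t Z hZ, lin_affine _ z k t Z hZ]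
    field_simp
    ring
  · intro S
    by_cases hS : S.Nonempty
    · have hv := (vertex_bound h C m hP hS hy hs hε hε1 ha hZ h1 h2 hψ).2
      have e1 : ∑ k, indZ S Z k * ∫ x, 1 / ‖x - y k‖ * ‖ψ x‖ ^ 2 =
          Z * ∫ x, (∑ k ∈ S, 1 / ‖x - y k‖) * ‖ψ x‖ ^ 2 := by
        have e2 : ∫ x, (∑ k ∈ S, 1 / ‖x - y k‖) * ‖ψ x‖ ^ 2 =
            ∑ k ∈ S, ∫ x, 1 / ‖x - y k‖ * ‖ψ x‖ ^ 2 := by
          rw [← integral_finsetSum _ fun k _ => hint k]
          refine integral_congr_ae (Eventually.of_forall fun x => ?_)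
          simp only [Finset.sum_mul]
        rw [e2, Finset.mul_sum]
        unfold indZ
        simp only [ite_mul, zero_mul]
        rw [Finset.sum_ite_mem, Finset.univ_inter]
      rw [e1]
      linarith
    · have hS' : S = ∅ := Finset.not_nonempty_iff_eq_empty.1 hS
      have e1 : ∑ k, indZ S Z k * ∫ x, 1 / ‖x - y k‖ * ‖ψ x‖ ^ 2 = 0 := by
        refine Finset.sum_eq_zero fun k _ => ?_
        unfold indZ; rw [hS']; simp
      have e2 : pairS (indZ S Z) y = 0 := by
        unfold pairS indZ; rw [hS']; simp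
      rw [e1, e2]
      have he := hψ.nonneg hP
      have : 0 ≤ ((s / (500 * ε ^ 3) + 5 / 4 * (1 - ε) * (4 / (5 * Real.pi)) / s) *
        (∫ x, curlN b x ^ 2)) * ‖ψ‖ ^ 2 := by positivity
      linarith

end Run7.h108
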