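import Pool.Agent.Run7.h108.Model
import Pool.Agent.Run7.h108.Final
import Pool.Agent.Run7.h108.DiracMat

/-!
# From functions to the Hilbert space
-/

set_option autoImplicit false

open scoped InnerProductSpace ContDiff
open MeasureTheory

namespace Run7.h108.Model

/-- the Hilbert space -/
noncomputable abbrev HH := Lp Spinor 2 (volume : Measure R3)

theorem ip_eq (u v : Spinor) : ip u v = ⟪u, v⟫_ℂ := by
  unfold ip
  rw [PiLp.inner_apply]
  refine Finset.sum_congr rfl fun i _ => ?_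
  rw [RCLike.inner_apply, mul_comm]

theorem ip2_eq {ψ χ : R3 → Spinor} (h1 : L2 ψ) (h2 : L2 χ) :
    ip2 ψ χ = ⟪(MemLp.toLp ψ h1 : HH), MemLp.toLp χ h2⟫_ℂ := by
  rw [L2.inner_def]
  unfold ip2 intC
  refine integral_congr_ae ?_
  filter_upwards [MemLp.coeFn_toLp h1, MemLp.coeFn_toLp h2] with x a1 a2
  rw [a1, a2, ip_eq]

theorem nsq_eq {ψ : R3 → Spinor} (h1 : L2 ψ) : nsq ψ = ‖(MemLp.toLp ψ h1 : HH)‖ ^ 2 := by
  rw [norm_sq_L2]
  unfold nsq intR
  refine integral_congr_ae ?_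
  filter_upwards [MemLp.coeFn_toLp h1] with x a1
  rw [a1]

theorem L2_coe (u : HH) : L2 (u : R3 → Spinor) := Lp.memLp u

theorem aeEq_iff {ψ χ : R3 → Spinor} (h1 : L2 ψ) (h2 : L2 χ) :
    AEEq ψ χ ↔ (MemLp.toLp ψ h1 : HH) = MemLp.toLp χ h2 := by
  unfold AEEq
  exact (MemLp.toLp_eq_toLp_iff h1 h2).symm

theorem toLp_coe (u : HH) (h : L2 (u : R3 → Spinor)) : (MemLp.toLp (u : R3 → Spinor) h : HH) = u :=
  Lp.toLp_coeFn u h

theorem derS_eq {φ : R3 → Spinor} (h : Differentiable ℝ φ) (j : Fin 3) (x : R3) :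
    derS j φ x = Run7.h108.pd j φ x := by
  unfold derS Run7.h108.pd Run7.h108.ee
  exact (h x).lineDeriv_eq_fderiv

theorem derR_eq {η : R3 → ℝ} (h : Differentiable ℝ η) (j : Fin 3) (x : R3) :
    derR j η x = Run7.h108.pd j η x := by
  unfold derR Run7.h108.pd Run7.h108.ee
  exact (h x).lineDeriv_eq_fderiv

theorem act_eq (M : Matrix (Fin 4) (Fin 4) ℂ) (v : Spinor) : act M v = Run7.h108.act M v := rfl

/-- the rescaled field -/
noncomputable def fieldA (a : R3 → R3) : Fin 3 → R3 → ℝ := fun k x => Real.sqrt fsc * a x k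

/-- the rescaled gradient -/
noncomputable def fieldB (b : Fin 3 → Fin 3 → R3 → ℝ) : Fin 3 → Fin 3 → R3 → ℝ :=
  fun j k x => Real.sqrt fsc * b j k x

theorem diracOp_eq (m : ℝ) (a : R3 → R3) {φ : R3 → Spinor} (hφ : Differentiable ℝ φ) (x : R3) :
    diracOp m a φ x = Run7.h108.dir Run7.h108.dirac m (fieldA a) φ x := by
  unfold diracOp Run7.h108.dir Run7.h108.Cliff.dpt
  have key : ∀ j : Fin 3, act (alphaMat j) ((-Complex.I) • derS j φ x +
      ((Real.sqrt fsc * a x j : ℝ) : ℂ) • φ x) =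
      -(Complex.I • Run7.h108.dirac.al j (Run7.h108.cov (fieldA a) φ j x)) := by
    intro j
    have e1 : (-Complex.I) • derS j φ x + ((Real.sqrt fsc * a x j : ℝ) : ℂ) • φ x =
        -(Complex.I • Run7.h108.cov (fieldA a) φ j x) := by
      unfold Run7.h108.cov
      rw [derS_eq hφ, smul_add, neg_add, neg_smul, smul_comm Complex.I, smul_smul Complex.I,
        Complex.I_mul_I, neg_one_smul, smul_neg, neg_neg]
      rfl
    rw [e1, act_eq, map_neg, map_smul]
    rfl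
  rw [Fin.sum_univ_three, key, key, key, smul_add, smul_add, neg_add, neg_add]
  rfl

theorem fsc_pos : 0 < fsc := by unfold fsc; norm_num

theorem weakField {a : R3 → R3} {b : Fin 3 → Fin 3 → R3 → ℝ} (h : IsField a b) :
    Run7.h108.WeakField (fieldA a) (fieldB b) := by
  have hcoord : ∀ k : Fin 3, AEStronglyMeasurable (fun x => a x k) volume := fun k =>
    (EuclideanSpace.proj (𝕜 := ℝ) k).continuous.comp_aestronglyMeasurable h.loc.1
  constructor
  · intro k
    exact (hcoord k).const_mul _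
  · intro k
    have h1 : LocallyIntegrable (fun x => fsc * ‖a x‖ ^ 2) volume := h.loc.2.smul fsc
    refine h1.mono (((hcoord k).const_mul _).pow 2) (Filter.Eventually.of_forall fun x => ?_)
    have hf : 0 ≤ fsc := fsc_pos.le
    unfold fieldA
    rw [Real.norm_eq_abs, Real.norm_eq_abs, abs_of_nonneg (by positivity),
      abs_of_nonneg (by positivity), mul_pow, Real.sq_sqrt hf]
    refine mul_le_mul_of_nonneg_left ?_ hf
    have := EuclideanSpace.norm_sq_eq (𝕜 := ℝ) (a x)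
    rw [this]
    have h2 : ‖a x k‖ ^ 2 ≤ ∑ i, ‖a x i‖ ^ 2 :=
      Finset.single_le_sum (f := fun i => ‖a x i‖ ^ 2) (fun i _ => sq_nonneg _)
        (Finset.mem_univ k)
    simpa [Real.norm_eq_abs, sq_abs] using h2
  · intro j k
    exact MemLp.const_mul (h.grad j k) _
  · intro j k η hη
    have := h.weak j k η ⟨hη.smooth, hη.supp⟩
    unfold intR at this
    have e1 : ∫ x, fieldA a k x * Run7.h108.pd j η x =
        Real.sqrt fsc * ∫ x, a x k * derR j η x := by
      rw [← integral_const_mul]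
      refine integral_congr_ae (Filter.Eventually.of_forall fun x => ?_)
      simp only
      rw [derR_eq hη.differentiable]
      unfold fieldA
      ring
    have e2 : ∫ x, fieldB b j k x * η x = Real.sqrt fsc * ∫ x, b j k x * η x := by
      rw [← integral_const_mul]
      refine integral_congr_ae (Filter.Eventually.of_forall fun x => ?_)
      simp only
      unfold fieldB
      ring
    rw [e1, e2, this]
    ring

theorem curl_int {b : Fin 3 → Fin 3 → R3 → ℝ} :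
    ∫ x, Run7.h108.curlN (fieldB b) x ^ 2 = fsc * ∫ x, curlNorm b x ^ 2 := by
  rw [← integral_const_mul]
  refine integral_congr_ae (Filter.Eventually.of_forall fun x => ?_)
  simp only
  rw [Run7.h108.curlN_sq]
  unfold curlNorm
  rw [Real.sq_sqrt (by positivity)]
  have hs : Real.sqrt fsc ^ 2 = fsc := Real.sq_sqrt fsc_pos.le
  have e3 : ∀ u v : ℝ, (Real.sqrt fsc * u - Real.sqrt fsc * v) ^ 2 = fsc * (u - v) ^ 2 := by
    intro u v
    rw [← mul_sub, mul_pow, hs]
  unfold fieldB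
  rw [e3, e3, e3]
  ring

/-- the maximal graph -/
noncomputable abbrev GG (m : ℝ) (a : R3 → R3) : Submodule ℂ (HH × HH) :=
  Run7.h108.Adj (Run7.h108.T0 Run7.h108.dirac m (fieldA a))

theorem diracRel_iff {a : R3 → R3} {b : Fin 3 → Fin 3 → R3 → ℝ} (h : IsField a b) (m : ℝ)
    {ψ g : R3 → Spinor} (h1 : L2 ψ) (h2 : L2 g) :
    DiracRel m a ψ g ↔ ((MemLp.toLp ψ h1 : HH), (MemLp.toLp g h2 : HH)) ∈ GG m a := by
  have hw := weakField h
  rw [Run7.h108.mem_Adj]
  constructor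
  · rintro ⟨_, _, hr⟩ q ⟨φ, hφ, h3, h4⟩
    have h5 := hr φ ⟨hφ.smooth, hφ.supp⟩
    have hφL : L2 φ := Run7.h108.memLp_of_cont hφ.continuous hφ.supp 2
    have hdL : L2 (diracOp m a φ) := by
      have e : diracOp m a φ = Run7.h108.dir Run7.h108.dirac m (fieldA a) φ :=
        funext fun x => diracOp_eq m a hφ.differentiable x
      unfold L2; rw [e]
      exact hw.memLp_dir Run7.h108.dirac m hφ
    rw [ip2_eq hdL h1, ip2_eq hφL h2] at h5
    have e1 : q.1 = (MemLp.toLp φ hφL : HH) := Lp.ext (h3.trans (MemLp.coeFn_toLp hφL).symm)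
    have e2 : q.2 = (MemLp.toLp (diracOp m a φ) hdL : HH) := by
      refine Lp.ext (h4.trans ?_)
      filter_upwards [MemLp.coeFn_toLp hdL] with x hx
      rw [hx, diracOp_eq m a hφ.differentiable]
    rw [e1, e2]; exact h5
  · intro hr
    refine ⟨h1, h2, fun φ hφ => ?_⟩
    have ht : Run7.h108.IsTest φ := ⟨hφ.1, hφ.2⟩
    have hφL : L2 φ := Run7.h108.memLp_of_cont ht.continuous ht.supp 2
    have hdL : L2 (diracOp m a φ) := by
      have e : diracOp m a φ = Run7.h108.dir Run7.h108.dirac m (fieldA a) φ :=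
        funext fun x => diracOp_eq m a ht.differentiable x
      unfold L2; rw [e]
      exact hw.memLp_dir Run7.h108.dirac m ht
    have h3 := hr (MemLp.toLp φ hφL, MemLp.toLp (diracOp m a φ) hdL)
      ⟨φ, ht, MemLp.coeFn_toLp hφL, by
        filter_upwards [MemLp.coeFn_toLp hdL] with x hx
        rw [hx, diracOp_eq m a ht.differentiable]⟩
    rw [ip2_eq hdL h1, ip2_eq hφL h2]
    exact h3

/-- The operator of a projection given on functions. -/
theorem exists_op {m : ℝ} {a : R3 → R3} {b : Fin 3 → Fin 3 → R3 → ℝ} (h : IsField a b)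
    {P : (R3 → Spinor) → R3 → Spinor} (hP : IsPosProj m a P) :
    ∃ Q : HH →L[ℂ] HH, Run7.h108.PosSpec (GG m a) Q ∧
      ∀ ψ (hψ : L2 ψ), Q (MemLp.toLp ψ hψ) = MemLp.toLp (P ψ) (hP.mem ψ hψ) := by
  -- the map on classes
  let q : HH → HH := fun u => MemLp.toLp (P u) (hP.mem _ (L2_coe u))
  have hsym : ∀ u v : HH, ⟪q u, v⟫_ℂ = ⟪u, q v⟫_ℂ := by
    intro u v
    have e := hP.selfadj u v (L2_coe u) (L2_coe v)
    rw [ip2_eq (hP.mem _ (L2_coe u)) (L2_coe v), ip2_eq (L2_coe u) (hP.mem _ (L2_coe v)),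
      toLp_coe, toLp_coe] at e
    exact e
  have hext : ∀ w1 w2 : HH, (∀ v, ⟪w1, v⟫_ℂ = ⟪w2, v⟫_ℂ) → w1 = w2 := by
    intro w1 w2 hw
    exact ext_inner_right ℂ hw
  have hqψ : ∀ ψ (hψ : L2 ψ), q (MemLp.toLp ψ hψ) = MemLp.toLp (P ψ) (hP.mem ψ hψ) := by
    intro ψ hψ
    refine hext _ _ fun v => ?_
    rw [hsym]
    have e := hP.selfadj ψ v hψ (L2_coe v)
    rw [ip2_eq (hP.mem _ hψ) (L2_coe v), ip2_eq hψ (hP.mem _ (L2_coe v)), toLp_coe] at e
    exact e.symm
  have hadd : ∀ u v, q (u + v) = q u + q v := by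
    intro u v
    refine hext _ _ fun w => ?_
    rw [hsym, inner_add_left, inner_add_left, hsym, hsym]
  have hsmul : ∀ (c : ℂ) u, q (c • u) = c • q u := by
    intro c u
    refine hext _ _ fun w => ?_
    rw [hsym, inner_smul_left, inner_smul_left, hsym]
  have hidem : ∀ u, q (q u) = q u := by
    intro u
    have e := hP.idem u (L2_coe u)
    rw [aeEq_iff (hP.mem _ (hP.mem _ (L2_coe u))) (hP.mem _ (L2_coe u))] at e
    rw [← hqψ] at e
    exact e
  have hle : ∀ u, ‖q u‖ ≤ 1 * ‖u‖ := by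
    intro u
    rw [one_mul]
    have h1 : ‖q u‖ ^ 2 = (⟪u, q u⟫_ℂ).re := by
      have : ⟪q u, q u⟫_ℂ = ⟪u, q u⟫_ℂ := by rw [hsym, hidem]
      rw [← this, re_self]
    have h2 : (⟪u, q u⟫_ℂ).re ≤ ‖u‖ * ‖q u‖ :=
      (Complex.re_le_norm _).trans (norm_inner_le_norm _ _)
    by_cases h0 : ‖q u‖ = 0
    · rw [h0]; exact norm_nonneg _
    · have h3 : 0 < ‖q u‖ := lt_of_le_of_ne (norm_nonneg _) (Ne.symm h0)
      have h4 : ‖q u‖ * ‖q u‖ ≤ ‖u‖ * ‖q u‖ := by nlinarith
      exact le_of_mul_le_mul_right h4 h3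
  have hrel : ∀ {u g : HH}, (u, g) ∈ GG m a → DiracRel m a u g := by
    intro u g hu
    rw [diracRel_iff h m (L2_coe u) (L2_coe g), toLp_coe, toLp_coe]
    exact hu
  refine ⟨LinearMap.mkContinuous ⟨⟨q, hadd⟩, hsmul⟩ 1 hle, ?_, hqψ⟩
  constructor
  · exact hidem
  · exact hsym
  · intro u g hu
    have e := hP.reduces u g (hrel hu)
    rw [diracRel_iff h m (hP.mem _ (L2_coe u)) (hP.mem _ (L2_coe g))] at e
    exact e
  · intro u g hu hPu hu0
    have hPu' : q u = u := hPu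
    have e := hP.pos u g (hrel hu)
      ((aeEq_iff (hP.mem _ (L2_coe u)) (L2_coe u)).2 (by rw [toLp_coe]; exact hPu')) (by
        intro hz
        apply hu0
        exact (Lp.eq_zero_iff_ae_eq_zero).2 hz)
    rw [ip2_eq (L2_coe u) (L2_coe g), toLp_coe, toLp_coe] at e
    exact e
  · intro u g hu hPu
    have hPu' : q u = 0 := hPu
    have e := hP.neg u g (hrel hu) (by
      have h5 := MemLp.coeFn_toLp (hP.mem _ (L2_coe u))
      have h6 : (MemLp.toLp (P u) (hP.mem _ (L2_coe u)) : HH) = 0 := hPu'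
      rw [h6] at h5
      exact h5.symm.trans (Lp.coeFn_zero _ _ _))
    rw [ip2_eq (L2_coe u) (L2_coe g), toLp_coe, toLp_coe] at e
    exact e

theorem formLe_bridge {m : ℝ} {a : R3 → R3} {b : Fin 3 → Fin 3 → R3 → ℝ} (h : IsField a b)
    {P : (R3 → Spinor) → R3 → Spinor} (hP : IsPosProj m a P) {Q : HH →L[ℂ] HH}
    (hQ : ∀ ψ (hψ : L2 ψ), Q (MemLp.toLp ψ hψ) = MemLp.toLp (P ψ) (hP.mem ψ hψ))
    {ψ : R3 → Spinor} (hL : L2 ψ) {e : ℝ} (he : FormLe m a P ψ e) :
    Run7.h108.FormLe (GG m a) Q (MemLp.toLp ψ hL : HH) e := by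
  intro η hη
  obtain ⟨u, g, hr, hPu, hn, hlt⟩ := he (min η (η ^ 2)) (by positivity)
  have hu := hr.1
  have hg := hr.2.1
  refine ⟨MemLp.toLp u hu, MemLp.toLp g hg, (diracRel_iff h m hu hg).1 hr, ?_, ?_, ?_⟩
  · rw [hQ]; exact (aeEq_iff (hP.mem u hu) hu).1 hPu
  · have h1 : L2 (u - ψ) := hu.sub hL
    rw [nsq_eq h1] at hn
    have h2 : (MemLp.toLp (u - ψ) h1 : HH) = MemLp.toLp u hu - MemLp.toLp ψ hL :=
      MemLp.toLp_sub hu hL
    rw [h2] at hn
    have h3 : ‖(MemLp.toLp u hu : HH) - MemLp.toLp ψ hL‖ ^ 2 < η ^ 2 :=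
      hn.trans_le (min_le_right _ _)
    exact lt_of_pow_lt_pow_left₀ 2 hη.le h3
  · rw [ip2_eq hu hg] at hlt
    exact hlt.trans_le (by gcongr; exact min_le_left _ _)

end Run7.h108.Model
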