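import Pool.Agent.Run7.h108.Clifford2

/-!
# Test functions on `ℝ³` and integration by parts
-/

set_option autoImplicit false

open scoped InnerProductSpace ContDiff
open MeasureTheory

namespace Run7.h108

/-- three dimensional Euclidean space -/
abbrev R3 := EuclideanSpace ℝ (Fin 3)

/-- coordinate vectors -/
noncomputable def ee (j : Fin 3) : R3 := EuclideanSpace.single j (1 : ℝ)

section gen

variable {F : Type*} [NormedAddCommGroup F] [NormedSpace ℝ F]
variable {G : Type*} [NormedAddCommGroup G] [NormedSpace ℝ G]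

/-- `j`-th partial derivative -/
noncomputable def pd (j : Fin 3) (f : R3 → F) (x : R3) : F := fderiv ℝ f x (ee j)

/-- smooth functions with compact support -/
structure IsTest (φ : R3 → F) : Prop where
  smooth : ContDiff ℝ ∞ φ
  supp : HasCompactSupport φ

theorem IsTest.continuous {φ : R3 → F} (h : IsTest φ) : Continuous φ := h.smooth.continuous

theorem IsTest.integrable {φ : R3 → F} (h : IsTest φ) : Integrable φ :=
  h.continuous.integrable_of_hasCompactSupport h.supp

theorem IsTest.differentiable {φ : R3 → F} (h : IsTest φ) : Differentiable ℝ φ :=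
  h.smooth.differentiable (by simp)

theorem IsTest.pd {φ : R3 → F} (h : IsTest φ) (j : Fin 3) : IsTest (pd j φ) := by
  constructor
  · have h1 : ContDiff ℝ ∞ (fderiv ℝ φ) := by
      exact h.smooth.fderiv_right (by simp)
    exact h1.clm_apply contDiff_const
  · have h2 := h.supp.fderiv (𝕜 := ℝ)
    refine h2.mono fun x hx => ?_
    intro h3
    apply hx
    have : fderiv ℝ φ x = 0 := h3
    simp [Run7.h108.pd, this]

theorem IsTest.clm {φ : R3 → F} (h : IsTest φ) (L : F →L[ℝ] G) : IsTest (fun x => L (φ x)) := by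
  constructor
  · exact L.contDiff.comp h.smooth
  · exact h.supp.comp_left (g := L) (map_zero L)

theorem pd_clm {φ : R3 → F} (h : Differentiable ℝ φ) (L : F →L[ℝ] G) (j : Fin 3) (x : R3) :
    pd j (fun x => L (φ x)) x = L (pd j φ x) := by
  unfold pd
  have := L.hasFDerivAt.comp x (h x).hasFDerivAt
  have h2 : HasFDerivAt (fun x => L (φ x)) (L.comp (fderiv ℝ φ x)) x := this
  rw [h2.fderiv]; rfl

theorem pd_comm {φ : R3 → F} (h : IsTest φ) (j k : Fin 3) (x : R3) :
    pd j (pd k φ) x = pd k (pd j φ) x := by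
  have h1 : ContDiff ℝ ∞ (fderiv ℝ φ) := by
    exact h.smooth.fderiv_right (by simp)
  have h2 : DifferentiableAt ℝ (fderiv ℝ φ) x := (h1.differentiable (by simp)) x
  have key : ∀ k : Fin 3, HasFDerivAt (pd k φ)
      ((ContinuousLinearMap.apply ℝ F (ee k)).comp (fderiv ℝ (fderiv ℝ φ) x)) x := by
    intro k
    exact (ContinuousLinearMap.apply ℝ F (ee k)).hasFDerivAt.comp x h2.hasFDerivAt
  have h3 : IsSymmSndFDerivAt ℝ φ x := by
    apply (h.smooth.contDiffAt (x := x)).isSymmSndFDerivAt
    simp only [minSmoothness_of_isRCLikeNormedField]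
    exact WithTop.coe_le_coe.2 le_top
  change fderiv ℝ (pd k φ) x (ee j) = fderiv ℝ (pd j φ) x (ee k)
  rw [(key k).fderiv, (key j).fderiv]
  exact h3.eq (ee j) (ee k)

theorem integral_pd_eq_zero {u : R3 → ℝ} (hd : Differentiable ℝ u) (hi : Integrable u) (j : Fin 3)
    (hp : Integrable (pd j u)) : ∫ x, pd j u x = 0 := by
  have h := integral_mul_fderiv_eq_neg_fderiv_mul_of_integrable (μ := (volume : Measure R3))
    (f := fun _ : R3 => (1 : ℝ)) (g := u) (v := ee j) (by simp) (by simp only [one_mul]; exact hp)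
    (by simpa using hi) (fun x _ => differentiableAt_const _) (fun x _ => hd x)
  simpa [pd] using h

theorem IsTest.integral_pd {u : R3 → ℝ} (h : IsTest u) (j : Fin 3) : ∫ x, Run7.h108.pd j u x = 0 :=
  integral_pd_eq_zero h.differentiable h.integrable j (h.pd j).integrable

end gen

section rp

variable {V : Type*} [NormedAddCommGroup V] [InnerProductSpace ℂ V]

theorem contDiff_rp {n : ℕ∞} {φ χ : R3 → V} (hφ : ContDiff ℝ n φ) (hχ : ContDiff ℝ n χ) :
    ContDiff ℝ n (fun x => rp (φ x) (χ x)) :=
  Complex.reCLM.contDiff.comp (hφ.inner ℂ hχ)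

theorem pd_rp {φ χ : R3 → V} (hφ : Differentiable ℝ φ) (hχ : Differentiable ℝ χ) (j : Fin 3)
    (x : R3) : pd j (fun x => rp (φ x) (χ x)) x = rp (pd j φ x) (χ x) + rp (φ x) (pd j χ x) := by
  have h1 := (hφ x).hasFDerivAt.inner ℂ (hχ x).hasFDerivAt
  have h2 := Complex.reCLM.hasFDerivAt.comp x h1
  have h3 : HasFDerivAt (fun x => rp (φ x) (χ x)) _ x := h2
  unfold pd
  rw [h3.fderiv]
  simp [rp, fderivInnerCLM_apply]
  ring

theorem IsTest.rp {φ χ : R3 → V} (hφ : IsTest φ) (hχ : ContDiff ℝ ∞ χ) :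
    IsTest (fun x => rp (φ x) (χ x)) := by
  constructor
  · exact contDiff_rp hφ.smooth hχ
  · refine hφ.supp.mono fun x hx => ?_
    intro h; apply hx
    have h' : φ x = 0 := h
    simp [h', rp_zero_left]

end rp

end Run7.h108
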