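import Mathlib

/-!
# Pointwise inequalities for Dirac matrices
-/

set_option autoImplicit false

open scoped InnerProductSpace

namespace Run7.h108

variable {V : Type*} [NormedAddCommGroup V] [InnerProductSpace ℂ V]

/-- real part of the inner product -/
noncomputable def rp (u v : V) : ℝ := (⟪u, v⟫_ℂ).re

theorem rp_self (u : V) : rp u u = ‖u‖ ^ 2 := by
  have := @inner_self_eq_norm_sq ℂ V _ _ _ u
  simpa [rp] using this

theorem rp_comm (u v : V) : rp u v = rp v u := by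
  unfold rp
  rw [← inner_conj_symm, Complex.conj_re]

theorem rp_add_left (u v w : V) : rp (u + v) w = rp u w + rp v w := by
  unfold rp; rw [inner_add_left, Complex.add_re]

theorem rp_add_right (u v w : V) : rp u (v + w) = rp u v + rp u w := by
  unfold rp; rw [inner_add_right, Complex.add_re]

theorem rp_neg_left (u v : V) : rp (-u) v = -rp u v := by
  unfold rp; rw [inner_neg_left, Complex.neg_re]

theorem rp_neg_right (u v : V) : rp u (-v) = -rp u v := by
  unfold rp; rw [inner_neg_right, Complex.neg_re]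

theorem rp_sub_left (u v w : V) : rp (u - v) w = rp u w - rp v w := by
  unfold rp; rw [inner_sub_left, Complex.sub_re]

theorem rp_sub_right (u v w : V) : rp u (v - w) = rp u v - rp u w := by
  unfold rp; rw [inner_sub_right, Complex.sub_re]

theorem rp_smul_left (r : ℝ) (u v : V) : rp ((r : ℂ) • u) v = r * rp u v := by
  unfold rp; rw [inner_smul_left, Complex.conj_ofReal, Complex.re_ofReal_mul]

theorem rp_smul_right (r : ℝ) (u v : V) : rp u ((r : ℂ) • v) = r * rp u v := by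
  unfold rp; rw [inner_smul_right, Complex.re_ofReal_mul]

theorem rp_zero_left (v : V) : rp 0 v = 0 := by unfold rp; simp

theorem rp_zero_right (v : V) : rp v 0 = 0 := by unfold rp; simp

theorem rp_I_I (u v : V) : rp (Complex.I • u) (Complex.I • v) = rp u v := by
  unfold rp
  rw [inner_smul_left, inner_smul_right, Complex.conj_I]
  have : -Complex.I * (Complex.I * ⟪u, v⟫_ℂ) = ⟪u, v⟫_ℂ := by
    linear_combination (-⟪u, v⟫_ℂ) * Complex.I_mul_I
  rw [this]

theorem rp_I_left (u v : V) : rp (Complex.I • u) v = -rp u (Complex.I • v) := by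
  unfold rp
  rw [inner_smul_left, inner_smul_right, Complex.conj_I, neg_mul, Complex.neg_re]

theorem rp_I_self (u : V) : rp u (Complex.I • u) = 0 := by
  have h1 := rp_I_left u u
  rw [rp_comm] at h1
  linarith

theorem rp_le (u v : V) : rp u v ≤ ‖u‖ * ‖v‖ :=
  (Complex.re_le_norm _).trans (norm_inner_le_norm _ _)

/-- one square -/
theorem square_expand (q v φ : V) (x : ℝ) :
    0 ≤ ‖q‖ ^ 2 + 25 / 16 * (x ^ 2 * ‖φ‖ ^ 2) + 1 / 16 * ‖v‖ ^ 2 - 5 / 2 * (x * rp φ q) +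
      1 / 2 * rp v q - 5 / 8 * (x * rp φ v) := by
  have h := sq_nonneg ‖q - ((5 / 4 * x : ℝ) : ℂ) • φ + ((1 / 4 : ℝ) : ℂ) • v‖
  rw [← rp_self] at h
  simp only [rp_add_left, rp_add_right, rp_sub_left, rp_sub_right, rp_smul_left,
    rp_smul_right] at h
  rw [rp_comm q φ, rp_comm q v, rp_comm v φ, rp_self, rp_self, rp_self] at h
  nlinarith [h]

variable (V) in
/-- Dirac matrices: three anticommuting symmetries `al j` and a fourth one `be`. -/
structure Cliff where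
  al : Fin 3 → V →L[ℂ] V
  be : V →L[ℂ] V
  al_sa : ∀ j u v, ⟪al j u, v⟫_ℂ = ⟪u, al j v⟫_ℂ
  be_sa : ∀ u v, ⟪be u, v⟫_ℂ = ⟪u, be v⟫_ℂ
  al_sq : ∀ j v, al j (al j v) = v
  be_sq : ∀ v, be (be v) = v
  al_anti : ∀ j k, j ≠ k → ∀ v, al j (al k v) = -al k (al j v)
  al_be : ∀ j v, al j (be v) = -be (al j v)

namespace Cliff

variable (C : Cliff V)

theorem rp_al (j : Fin 3) (u v : V) : rp (C.al j u) v = rp u (C.al j v) := by
  unfold rp; rw [C.al_sa]

theorem rp_be (u v : V) : rp (C.be u) v = rp u (C.be v) := by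
  unfold rp; rw [C.be_sa]

theorem rp_al_al (j : Fin 3) (u v : V) : rp (C.al j u) (C.al j v) = rp u v := by
  rw [C.rp_al, C.al_sq]

theorem norm_al (j : Fin 3) (v : V) : ‖C.al j v‖ ^ 2 = ‖v‖ ^ 2 := by
  rw [← rp_self, C.rp_al_al, rp_self]

theorem norm_be (v : V) : ‖C.be v‖ ^ 2 = ‖v‖ ^ 2 := by
  rw [← rp_self, C.rp_be, C.be_sq, rp_self]

theorem rp_anti {j k : Fin 3} (hjk : j ≠ k) (v : V) : rp (C.al j v) (C.al k v) = 0 := by
  have h1 : rp (C.al j v) (C.al k v) = rp v (C.al j (C.al k v)) := C.rp_al _ _ _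
  have h2 : rp (C.al j v) (C.al k v) = rp v (C.al k (C.al j v)) := by
    rw [rp_comm, C.rp_al]
  rw [C.al_anti j k hjk, rp_neg_right] at h1
  linarith

theorem rp_I_al (j : Fin 3) (v : V) : rp v (Complex.I • C.al j v) = 0 := by
  have h1 : rp v (Complex.I • C.al j v) = -rp v (Complex.I • C.al j v) := by
    calc rp v (Complex.I • C.al j v) = rp v (C.al j (Complex.I • v)) := by rw [map_smul]
      _ = rp (C.al j v) (Complex.I • v) := (C.rp_al _ _ _).symm
      _ = rp (Complex.I • v) (C.al j v) := rp_comm _ _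
      _ = -rp v (Complex.I • C.al j v) := rp_I_left _ _
  linarith

theorem rp_Ial_left (j : Fin 3) (w q : V) :
    rp (Complex.I • C.al j w) q = -rp w (Complex.I • C.al j q) := by
  rw [rp_I_left, C.rp_al, map_smul]

/-- value of the Dirac operator, given the value of the spinor and of its covariant gradient -/
noncomputable def dpt (m : ℝ) (φ : V) (q : Fin 3 → V) : V :=
  -(Complex.I • (C.al 0 (q 0) + C.al 1 (q 1) + C.al 2 (q 2))) + (m : ℂ) • C.be φ

/-- The refined Kato inequality for half-space extensions. -/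
theorem refined (m : ℝ) (φ : V) (q : Fin 3 → V) (xt : ℝ) (x : Fin 3 → ℝ) :
    5 / 2 * (-(xt * rp φ (C.dpt m φ q)) + (x 0 * rp φ (q 0) + x 1 * rp φ (q 1) +
      x 2 * rp φ (q 2))) - 5 / 4 * ((xt ^ 2 + (x 0 ^ 2 + x 1 ^ 2 + x 2 ^ 2)) * ‖φ‖ ^ 2) ≤
    ‖C.dpt m φ q‖ ^ 2 + (‖q 0‖ ^ 2 + ‖q 1‖ ^ 2 + ‖q 2‖ ^ 2) + m ^ 2 * ‖φ‖ ^ 2 := by
  obtain ⟨D, hD⟩ : ∃ D, D = C.dpt m φ q := ⟨_, rfl⟩
  rw [← hD]
  obtain ⟨u, hu⟩ : ∃ u, u = (x 0 : ℂ) • C.al 0 φ + (x 1 : ℂ) • C.al 1 φ + (x 2 : ℂ) • C.al 2 φ :=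
    ⟨_, rfl⟩
  obtain ⟨w, hw⟩ : ∃ w, w = (xt : ℂ) • φ - Complex.I • u := ⟨_, rfl⟩
  have hunorm : ‖u‖ ^ 2 = (x 0 ^ 2 + x 1 ^ 2 + x 2 ^ 2) * ‖φ‖ ^ 2 := by
    rw [← rp_self, hu]
    simp only [rp_add_left, rp_add_right, rp_smul_left, rp_smul_right]
    simp only [rp_self, C.norm_al]
    rw [C.rp_anti (by decide : (0 : Fin 3) ≠ 1), C.rp_anti (by decide : (0 : Fin 3) ≠ 2),
      C.rp_anti (by decide : (1 : Fin 3) ≠ 0), C.rp_anti (by decide : (1 : Fin 3) ≠ 2),
      C.rp_anti (by decide : (2 : Fin 3) ≠ 0), C.rp_anti (by decide : (2 : Fin 3) ≠ 1)]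
    ring
  have hIu : rp φ (Complex.I • u) = 0 := by
    rw [hu]
    simp only [smul_add, smul_comm Complex.I, rp_add_right, rp_smul_right, C.rp_I_al]
    ring
  have hn : ‖w‖ ^ 2 = (xt ^ 2 + (x 0 ^ 2 + x 1 ^ 2 + x 2 ^ 2)) * ‖φ‖ ^ 2 := by
    rw [← rp_self, hw]
    simp only [rp_sub_left, rp_sub_right, rp_smul_left, rp_smul_right, rp_I_I]
    rw [hIu, rp_comm (Complex.I • u) φ, hIu, rp_self, rp_self, hunorm]
    ring
  have s0 := square_expand (-D) w φ xt
  have s1 := square_expand (q 0) (Complex.I • C.al 0 w) φ (x 0)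
  have s2 := square_expand (q 1) (Complex.I • C.al 1 w) φ (x 1)
  have s3 := square_expand (q 2) (Complex.I • C.al 2 w) φ (x 2)
  have s4 := square_expand (Complex.I • ((m : ℂ) • φ)) (Complex.I • C.be w) φ 0
  have nI : ∀ v : V, ‖Complex.I • v‖ ^ 2 = ‖v‖ ^ 2 := fun v => by
    rw [norm_smul, Complex.norm_I, one_mul]
  rw [nI, C.norm_al] at s1 s2 s3
  rw [nI, nI, C.norm_be] at s4
  have nm : ‖(m : ℂ) • φ‖ ^ 2 = m ^ 2 * ‖φ‖ ^ 2 := by
    rw [norm_smul, mul_pow, Complex.norm_real, Real.norm_eq_abs, sq_abs]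
  rw [nm] at s4
  rw [norm_neg, rp_neg_right, rp_neg_right] at s0
  -- the constraint
  have c1 : -rp w D + (rp (Complex.I • C.al 0 w) (q 0) + rp (Complex.I • C.al 1 w) (q 1) +
      rp (Complex.I • C.al 2 w) (q 2)) + rp (Complex.I • C.be w) (Complex.I • ((m : ℂ) • φ)) =
      0 := by
    rw [rp_I_I, C.rp_Ial_left, C.rp_Ial_left, C.rp_Ial_left, C.rp_be, hD, dpt]
    simp only [rp_add_right, rp_neg_right, smul_add, map_smul]
    ring
  have c2 : xt * rp φ w + (x 0 * rp φ (Complex.I • C.al 0 w) + x 1 * rp φ (Complex.I • C.al 1 w) +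
      x 2 * rp φ (Complex.I • C.al 2 w)) = ‖w‖ ^ 2 := by
    have e : ∀ j, rp φ (Complex.I • C.al j w) = -rp w (Complex.I • C.al j φ) := by
      intro j
      rw [rp_comm, C.rp_Ial_left]
    rw [e, e, e, ← rp_self w]
    nth_rewrite 6 [hw]
    rw [hu]
    simp only [smul_add, smul_comm Complex.I, rp_sub_right, rp_add_right, rp_smul_right]
    rw [rp_comm φ w]
    ring
  nlinarith [s0, s1, s2, s3, s4, c1, c2, hn]

end Cliff

end Run7.h108
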