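import Pool.Agent.Run7.h108.Clifford

/-!
# Expansion of the square of the Dirac operator at a point
-/

set_option autoImplicit false

open scoped InnerProductSpace

namespace Run7.h108

variable {V : Type*} [NormedAddCommGroup V] [InnerProductSpace ℂ V]

namespace Cliff

variable (C : Cliff V)

/-- `i αⱼ αₖ` -/
noncomputable def HH (j k : Fin 3) : V →L[ℂ] V := Complex.I • (C.al j).comp (C.al k)

/-- `i αⱼ β` -/
noncomputable def KK (j : Fin 3) : V →L[ℂ] V := Complex.I • (C.al j).comp C.be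

/-- `αⱼ αₖ` -/
noncomputable def MM (j k : Fin 3) : V →L[ℂ] V := (C.al j).comp (C.al k)

theorem HH_apply (j k : Fin 3) (v : V) : C.HH j k v = Complex.I • C.al j (C.al k v) := rfl

theorem KK_apply (j : Fin 3) (v : V) : C.KK j v = Complex.I • C.al j (C.be v) := rfl

theorem MM_apply (j k : Fin 3) (v : V) : C.MM j k v = C.al j (C.al k v) := rfl

theorem HH_symm {j k : Fin 3} (hjk : j ≠ k) (u v : V) : rp u (C.HH j k v) = rp v (C.HH j k u) := by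
  rw [HH_apply, HH_apply]
  have h1 : Complex.I • C.al j (C.al k v) = C.al j (C.al k (Complex.I • v)) := by
    rw [map_smul, map_smul]
  rw [h1, ← C.rp_al, ← C.rp_al, C.al_anti k j hjk.symm, rp_neg_left, rp_comm v, rp_I_left]

theorem KK_symm (j : Fin 3) (u v : V) : rp u (C.KK j v) = rp v (C.KK j u) := by
  rw [KK_apply, KK_apply]
  have h1 : Complex.I • C.al j (C.be v) = C.al j (C.be (Complex.I • v)) := by
    rw [map_smul, map_smul]
  have h2 : C.be (C.al j u) = -C.al j (C.be u) := by rw [C.al_be, neg_neg]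
  rw [h1, ← C.rp_al, ← C.rp_be, h2, rp_neg_left, rp_comm v, rp_I_left]

theorem MM_symm {j k : Fin 3} (hjk : j ≠ k) (u v : V) :
    rp u (C.MM j k v) = -rp v (C.MM j k u) := by
  rw [MM_apply, MM_apply, ← C.rp_al, ← C.rp_al, C.al_anti k j hjk.symm, rp_neg_left, rp_comm v]

theorem rp_be_al (j : Fin 3) (v : V) : rp v (C.al j (C.be v)) = 0 := by
  have h1 : rp v (C.al j (C.be v)) = -rp v (C.be (C.al j v)) := by
    rw [C.al_be, rp_neg_right]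
  have h2 : rp v (C.be (C.al j v)) = rp v (C.al j (C.be v)) := by
    rw [← C.rp_be, rp_comm, C.rp_al]
  linarith

theorem pair_term {j k : Fin 3} (hjk : j ≠ k) (φ pj pk : V) (Aj Ak : ℝ) :
    2 * rp (C.al j (pj + (Aj : ℂ) • (Complex.I • φ))) (C.al k (pk + (Ak : ℂ) • (Complex.I • φ))) =
      2 * rp pj (C.MM j k pk) + Ak * (2 * rp pj (C.HH j k φ)) - Aj * (2 * rp pk (C.HH j k φ)) := by
  have h1 : rp (Complex.I • φ) (C.al j (C.al k pk)) = -rp pk (C.HH j k φ) := by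
    rw [rp_I_left, ← C.HH_symm hjk]
    rfl
  have h2 : rp pj (C.al j (C.al k (Complex.I • φ))) = rp pj (C.HH j k φ) := by
    rw [HH_apply, map_smul, map_smul]
  have h3 : rp (Complex.I • φ) (C.al j (C.al k (Complex.I • φ))) = 0 := by
    rw [map_smul, map_smul, rp_I_I, ← C.rp_al, C.rp_anti hjk]
  rw [C.rp_al]
  simp only [map_add, rp_add_left, rp_add_right, map_smul (C.al k) (Ak : ℂ),
    map_smul (C.al j) (Ak : ℂ), rp_smul_left, rp_smul_right]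
  rw [h1, h2, h3, MM_apply]
  ring

theorem mass_term (j : Fin 3) (φ p : V) (A : ℝ) :
    rp (Complex.I • C.al j (p + (A : ℂ) • (Complex.I • φ))) (C.be φ) = -rp p (C.KK j φ) := by
  rw [C.rp_Ial_left]
  simp only [rp_add_left, rp_smul_left, rp_I_I, C.rp_be_al]
  rw [KK_apply]
  ring

theorem norm_sq_dpt (m : ℝ) (φ : V) (p : Fin 3 → V) (A : Fin 3 → ℝ) (q : Fin 3 → V)
    (hq : ∀ j, q j = p j + (A j : ℂ) • (Complex.I • φ)) :
    ‖C.dpt m φ q‖ ^ 2 = (‖q 0‖ ^ 2 + ‖q 1‖ ^ 2 + ‖q 2‖ ^ 2) + m ^ 2 * ‖φ‖ ^ 2 +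
      ((2 * rp (p 0) (C.MM 0 1 (p 1)) + A 1 * (2 * rp (p 0) (C.HH 0 1 φ)) -
          A 0 * (2 * rp (p 1) (C.HH 0 1 φ))) +
       (2 * rp (p 0) (C.MM 0 2 (p 2)) + A 2 * (2 * rp (p 0) (C.HH 0 2 φ)) -
          A 0 * (2 * rp (p 2) (C.HH 0 2 φ))) +
       (2 * rp (p 1) (C.MM 1 2 (p 2)) + A 2 * (2 * rp (p 1) (C.HH 1 2 φ)) -
          A 1 * (2 * rp (p 2) (C.HH 1 2 φ)))) +
      m * (2 * rp (p 0) (C.KK 0 φ) + 2 * rp (p 1) (C.KK 1 φ) + 2 * rp (p 2) (C.KK 2 φ)) := by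
  have t01 := C.pair_term (by decide : (0 : Fin 3) ≠ 1) φ (p 0) (p 1) (A 0) (A 1)
  have t02 := C.pair_term (by decide : (0 : Fin 3) ≠ 2) φ (p 0) (p 2) (A 0) (A 2)
  have t12 := C.pair_term (by decide : (1 : Fin 3) ≠ 2) φ (p 1) (p 2) (A 1) (A 2)
  have m0 := C.mass_term 0 φ (p 0) (A 0)
  have m1 := C.mass_term 1 φ (p 1) (A 1)
  have m2 := C.mass_term 2 φ (p 2) (A 2)
  rw [← hq, ← hq] at t01 t02 t12
  rw [← hq] at m0 m1 m2
  rw [← rp_self (C.dpt m φ q), dpt]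
  simp only [smul_add, rp_add_left, rp_add_right, rp_neg_left, rp_neg_right, neg_add,
    rp_smul_left, rp_smul_right, rp_I_I]
  rw [rp_comm (C.be φ), rp_comm (C.be φ), rp_comm (C.be φ), m0, m1, m2,
    rp_comm (C.al 1 (q 1)) (C.al 0 (q 0)), rp_comm (C.al 2 (q 2)) (C.al 0 (q 0)),
    rp_comm (C.al 2 (q 2)) (C.al 1 (q 1))]
  simp only [rp_self, C.norm_al, C.norm_be]
  linear_combination t01 + t02 + t12

/-- the magnetic term -/
theorem field_bound (φ : V) (b01 b02 b12 : ℝ) :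
    b01 * rp φ (C.HH 0 1 φ) + b02 * rp φ (C.HH 0 2 φ) + b12 * rp φ (C.HH 1 2 φ) ≤
      Real.sqrt (b01 ^ 2 + b02 ^ 2 + b12 ^ 2) * ‖φ‖ ^ 2 := by
  obtain ⟨T, hT⟩ : ∃ T, T = (b01 : ℂ) • C.HH 0 1 φ + (b02 : ℂ) • C.HH 0 2 φ +
    (b12 : ℂ) • C.HH 1 2 φ := ⟨_, rfl⟩
  have n : ∀ j k, rp (C.HH j k φ) (C.HH j k φ) = ‖φ‖ ^ 2 := by
    intro j k
    rw [HH_apply, rp_I_I, C.rp_al_al, C.rp_al_al, rp_self]
  have o1 : rp (C.HH 0 1 φ) (C.HH 0 2 φ) = 0 := by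
    rw [HH_apply, HH_apply, rp_I_I, C.rp_al_al, C.rp_anti (by decide)]
  have o2 : rp (C.HH 0 1 φ) (C.HH 1 2 φ) = 0 := by
    rw [HH_apply, HH_apply, rp_I_I, C.al_anti 0 1 (by decide), rp_neg_left, C.rp_al_al,
      C.rp_anti (by decide), neg_zero]
  have o3 : rp (C.HH 0 2 φ) (C.HH 1 2 φ) = 0 := by
    rw [HH_apply, HH_apply, rp_I_I, C.al_anti 0 2 (by decide), C.al_anti 1 2 (by decide),
      rp_neg_left, rp_neg_right, C.rp_al_al, C.rp_anti (by decide)]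
    simp
  have hn : ‖T‖ ^ 2 = (b01 ^ 2 + b02 ^ 2 + b12 ^ 2) * ‖φ‖ ^ 2 := by
    rw [← rp_self, hT]
    simp only [rp_add_left, rp_add_right, rp_smul_left, rp_smul_right]
    rw [rp_comm (C.HH 0 2 φ) (C.HH 0 1 φ), rp_comm (C.HH 1 2 φ) (C.HH 0 1 φ),
      rp_comm (C.HH 1 2 φ) (C.HH 0 2 φ), o1, o2, o3, n, n, n]
    ring
  have hn' : ‖T‖ = Real.sqrt (b01 ^ 2 + b02 ^ 2 + b12 ^ 2) * ‖φ‖ := by
    have h1 : ‖T‖ = Real.sqrt (‖T‖ ^ 2) := (Real.sqrt_sq (norm_nonneg _)).symm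
    rw [h1, hn, Real.sqrt_mul (by positivity), Real.sqrt_sq (norm_nonneg _)]
  have h2 : b01 * rp φ (C.HH 0 1 φ) + b02 * rp φ (C.HH 0 2 φ) + b12 * rp φ (C.HH 1 2 φ) =
      rp φ T := by
    rw [hT]; simp only [rp_add_right, rp_smul_right]
  rw [h2]
  refine (rp_le φ T).trans ?_
  rw [hn']
  apply le_of_eq; ring

end Cliff

end Run7.h108
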