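import Pool.Agent.Run7.h108.Resolvent

set_option autoImplicit false

open scoped InnerProductSpace

namespace Run7.h108

variable {E : Type*} [NormedAddCommGroup E] [InnerProductSpace ℂ E]
variable {T0 : Submodule ℂ (E × E)} {P : E →L[ℂ] E}

/-- Test vectors are dense in the graph of the adjoint (the operator is essentially
self-adjoint). -/
theorem PosSpec.mem_closure [CompleteSpace E] (h : PosSpec (Adj T0) P) (hc : Core T0) {u g : E}
    (hu : (u, g) ∈ Adj T0) {ε : ℝ} (hε : 0 < ε) :
    ∃ q ∈ T0, ‖q.1 - u‖ < ε ∧ ‖q.2 - g‖ < ε := by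
  classical
  let e := WithLp.linearEquiv 2 ℂ (E × E)
  let T1 : Submodule ℂ (WithLp 2 (E × E)) := T0.comap e.toLinearMap
  let K : Submodule ℂ (WithLp 2 (E × E)) := T1.topologicalClosure
  have hKc : IsClosed (K : Set (WithLp 2 (E × E))) := Submodule.isClosed_topologicalClosure _
  have : CompleteSpace K := hKc.completeSpace_coe
  have hcont : Continuous (fun z : WithLp 2 (E × E) => (e z : E × E)) :=
    WithLp.prod_continuous_ofLp 2 E E
  have hKA : ∀ z ∈ K, e z ∈ Adj T0 := by
    intro z hz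
    have hcl : IsClosed ((fun z : WithLp 2 (E × E) => (e z : E × E)) ⁻¹'
        (Adj T0 : Set (E × E))) := (isClosed_Adj T0).preimage hcont
    have hsub : (T1 : Set (WithLp 2 (E × E))) ⊆ (fun z : WithLp 2 (E × E) => (e z : E × E)) ⁻¹'
        (Adj T0 : Set (E × E)) := fun w hw => hc.sym hw
    have := closure_minimal hsub hcl
    exact this hz
  let z0 : WithLp 2 (E × E) := e.symm (u, g)
  obtain ⟨y, hydef⟩ : ∃ y, y = z0 - K.starProjection z0 := ⟨_, rfl⟩
  have hy : y ∈ Kᗮ := by
    rw [hydef]; exact Submodule.sub_starProjection_mem_orthogonal (K := K) z0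
  have hyA : e y ∈ Adj T0 := by
    rw [hydef, map_sub]
    refine (Adj T0).sub_mem ?_ (hKA _ (Submodule.starProjection_apply_mem K z0))
    simpa [z0] using hu
  have hin : ∀ a b : WithLp 2 (E × E), ⟪a, b⟫_ℂ = ⟪(e a).1, (e b).1⟫_ℂ + ⟪(e a).2, (e b).2⟫_ℂ := by
    intro a b
    rw [WithLp.prod_inner_apply]
    rfl
  have hy2 : ((e y).2, -(e y).1) ∈ Adj T0 := by
    intro q hq
    have h1 : e.symm q ∈ T1 := by
      change e (e.symm q) ∈ T0
      simpa using hq
    have h2 : ⟪e.symm q, y⟫_ℂ = 0 :=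
      (Submodule.mem_orthogonal K y).1 hy _ (Submodule.le_topologicalClosure T1 h1)
    rw [hin] at h2
    simp only [LinearEquiv.apply_symm_apply] at h2
    change ⟪q.2, (e y).2⟫_ℂ = ⟪q.1, -(e y).1⟫_ℂ
    rw [inner_neg_right]
    linear_combination h2
  have h3 := h.symm (u := (e y).1) (g := (e y).2) hyA hy2
  rw [inner_neg_right] at h3
  have h4 := congrArg Complex.re h3
  rw [Complex.neg_re, re_self, re_self] at h4
  have h5 : ‖(e y).1‖ = 0 := by
    have := sq_nonneg ‖(e y).1‖
    have := sq_nonneg ‖(e y).2‖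
    have : ‖(e y).1‖ ^ 2 = 0 := by linarith
    simpa using this
  have h6 : ‖(e y).2‖ = 0 := by
    have : ‖(e y).2‖ ^ 2 = 0 := by rw [← h4, h5]; simp
    simpa using this
  have h7 : e y = 0 := Prod.ext (norm_eq_zero.mp h5) (norm_eq_zero.mp h6)
  have h8 : y = 0 := by simpa using h7
  rw [h8] at hydef
  have h9 : z0 ∈ K := by
    have : z0 = K.starProjection z0 := sub_eq_zero.mp hydef.symm
    rw [this]; exact Submodule.starProjection_apply_mem K z0
  have h10 : z0 ∈ closure (T1 : Set (WithLp 2 (E × E))) := h9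
  have hopen : IsOpen ((fun z : WithLp 2 (E × E) => (e z : E × E)) ⁻¹'
      (Metric.ball (u, g) ε)) := Metric.isOpen_ball.preimage hcont
  have hz0 : z0 ∈ ((fun z : WithLp 2 (E × E) => (e z : E × E)) ⁻¹' (Metric.ball (u, g) ε)) := by
    simp [z0, hε]
  obtain ⟨w, hw1, hw2⟩ := (mem_closure_iff.1 h10) _ hopen hz0
  refine ⟨e w, hw2, ?_, ?_⟩
  · have : dist (e w) (u, g) < ε := hw1
    rw [Prod.dist_eq] at this
    rw [← dist_eq_norm]
    exact (le_max_left _ _).trans_lt this
  · have : dist (e w) (u, g) < ε := hw1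
    rw [Prod.dist_eq] at this
    rw [← dist_eq_norm]
    exact (le_max_right _ _).trans_lt this

end Run7.h108
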