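import Pool.Agent.Run7.h108.EvolNuclei

/-!
# Electrostatics: lower bound of the effective potential
-/

set_option autoImplicit false

open scoped ENNReal ContDiff InnerProductSpace Topology
open MeasureTheory Filter Set

namespace Run7.h108

theorem wG_zero (ρ : ℝ) : wG ρ 0 = Real.pi / 2 / Real.sqrt ρ := by
  unfold wG; simp

theorem wG_le_inv {ρ τ : ℝ} (hρ : 0 < ρ) (hτ : 0 < τ) : wG ρ (2 * τ) ≤ 1 / (2 * τ) := by
  have hR : 0 < Real.sqrt ρ := Real.sqrt_pos.2 hρ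
  unfold wG
  have hy : 0 < 2 * τ / Real.sqrt ρ := by positivity
  have h1 := Real.arctan_inv_of_pos hy
  rw [← h1]
  have hz : 0 < (2 * τ / Real.sqrt ρ)⁻¹ := by positivity
  have h2 : Real.arctan (2 * τ / Real.sqrt ρ)⁻¹ ≤ (2 * τ / Real.sqrt ρ)⁻¹ := by
    have h3 : 0 ≤ Real.arctan (2 * τ / Real.sqrt ρ)⁻¹ := Real.arctan_nonneg.2 hz.le
    have h4 := Real.le_tan h3 (Real.arctan_lt_pi_div_two _)
    rwa [Real.tan_arctan] at h4
  calc Real.arctan (2 * τ / Real.sqrt ρ)⁻¹ / Real.sqrt ρ ≤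
      (2 * τ / Real.sqrt ρ)⁻¹ / Real.sqrt ρ := div_le_div_of_nonneg_right h2 hR.le
    _ = 1 / (2 * τ) := by field_simp

theorem wG_le_half {ρ τ : ℝ} (hτ : 0 < τ) :
    wG ρ (2 * τ) ≤ Real.pi / 2 / Real.sqrt ρ := by
  unfold wG
  refine div_le_div_of_nonneg_right ?_ (Real.sqrt_nonneg _)
  have : 0 ≤ Real.arctan (2 * τ / Real.sqrt ρ) := Real.arctan_nonneg.2 (by positivity)
  linarith

theorem poly_ineq {s c : ℝ} (hs : 0 ≤ s) (hs1 : 4 / 5 * s ≤ 1) (hc : c ≤ 0.6367) :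
    (1 - 4 / 5 * s) * (1 + c * s) * (1 + s ^ 2) ≤ 1 := by
  have h1 : (1 - 4 / 5 * s) * (1 + c * s) ≤ (1 - 4 / 5 * s) * (1 + 0.6367 * s) := by
    refine mul_le_mul_of_nonneg_left ?_ (by linarith)
    nlinarith
  have h2 : (1 - 4 / 5 * s) * (1 + c * s) * (1 + s ^ 2) ≤
      (1 - 4 / 5 * s) * (1 + 0.6367 * s) * (1 + s ^ 2) :=
    mul_le_mul_of_nonneg_right h1 (by positivity)
  refine h2.trans ?_
  have h3 : 0 ≤ (s - 0.47) ^ 2 * (0.50936 * s + 0.6421) := by positivity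
  nlinarith [mul_nonneg hs h3, mul_nonneg hs hs]

/-- the lower bound of the effective potential of one nucleus -/
noncomputable def LL (τ R : ℝ) : ℝ := 2 / Real.pi / R - 4 / (5 * Real.pi) / τ

theorem single_bound {R τ : ℝ} (hR : 0 < R) (hτ : 0 < τ) (hL : 0 ≤ LL τ R) :
    LL τ R * (Real.pi / 2 / R + 1 / (2 * τ)) ≤ 1 / R ^ 2 - 1 / (R ^ 2 + (2 * τ) ^ 2) := by
  have hpi := Real.pi_pos
  obtain ⟨s, hs⟩ : ∃ s, s = R / (2 * τ) := ⟨_, rfl⟩
  have hs0 : 0 < s := by rw [hs]; positivity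
  have hτs : τ = R / (2 * s) := by rw [hs]; field_simp
  have e1 : LL τ R = 2 / Real.pi / R * (1 - 4 / 5 * s) := by
    unfold LL; rw [hτs]; field_simp
  have e2 : Real.pi / 2 / R + 1 / (2 * τ) = Real.pi / 2 / R * (1 + 2 / Real.pi * s) := by
    rw [hτs]; field_simp
  have e3 : 1 / R ^ 2 - 1 / (R ^ 2 + (2 * τ) ^ 2) = 1 / R ^ 2 * (1 / (1 + s ^ 2)) := by
    rw [hτs]; field_simp; ring
  have hs1 : 4 / 5 * s ≤ 1 := by
    by_contra hcon
    rw [e1] at hL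
    have : 2 / Real.pi / R * (1 - 4 / 5 * s) < 0 :=
      mul_neg_of_pos_of_neg (by positivity) (by linarith [not_le.1 hcon])
    linarith
  have hc : 2 / Real.pi ≤ 0.6367 := by
    rw [div_le_iff₀ hpi]
    have := Real.pi_gt_d4
    nlinarith
  have hp := poly_ineq hs0.le hs1 hc
  rw [e1, e2, e3]
  have e4 : 2 / Real.pi / R * (1 - 4 / 5 * s) * (Real.pi / 2 / R * (1 + 2 / Real.pi * s)) =
      1 / R ^ 2 * ((1 - 4 / 5 * s) * (1 + 2 / Real.pi * s)) := by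
    field_simp
  rw [e4]
  refine mul_le_mul_of_nonneg_left ?_ (by positivity)
  rw [le_div_iff₀ (by positivity)]
  exact hp

section family

variable {ι : Type*} [DecidableEq ι] {S : Finset ι} {y : ι → R3} {τ δ : ℝ}

/-- the regularised distance -/
noncomputable def RR (δ : ℝ) (y x : R3) : ℝ := Real.sqrt (rho δ y x)

theorem RR_pos (hδ : 0 < δ) (y x : R3) : 0 < RR δ y x := Real.sqrt_pos.2 (rho_pos hδ y x)

theorem RR_sq (hδ : 0 < δ) (y x : R3) : RR δ y x ^ 2 = rho δ y x :=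
  Real.sq_sqrt (rho_pos hδ y x).le

theorem dist_le_RR (δ : ℝ) (y x : R3) : ‖x - y‖ ≤ RR δ y x := by
  refine Real.le_sqrt_of_sq_le ?_
  unfold rho; nlinarith [sq_nonneg δ]

/-- Lower bound of the effective potential of several nuclei. -/
theorem eff_bound (hδ : 0 < δ) (hτ : 0 < τ) {k0 : ι} (hk0 : k0 ∈ S) (x : R3) :
    LL τ (RR δ (y k0) x) - 4 / Real.pi * ∑ k ∈ S.erase k0, 1 / RR δ (y k) x ≤
      -(fft S y τ δ 0 x / ff S y τ δ 0 x) := by
  have hpi := Real.pi_pos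
  have hff := ff_pos (y := y) (τ := τ) ⟨k0, hk0⟩ hδ 0 x
  obtain ⟨L, hL⟩ : ∃ L, L = LL τ (RR δ (y k0) x) := ⟨_, rfl⟩
  obtain ⟨S1, hS1⟩ : ∃ S1, S1 = ∑ k ∈ S.erase k0, 1 / RR δ (y k) x := ⟨_, rfl⟩
  have hS1n : 0 ≤ S1 := by
    rw [hS1]
    exact Finset.sum_nonneg fun k _ => (by have := RR_pos hδ (y k) x; positivity)
  rw [← hL, ← hS1]
  -- terms
  have hPk : ∀ k, 0 ≤ 1 / RR δ (y k) x ^ 2 - 1 / (RR δ (y k) x ^ 2 + (2 * τ) ^ 2) := by
    intro k
    have h1 := RR_pos hδ (y k) x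
    rw [sub_nonneg]
    exact one_div_le_one_div_of_le (by positivity) (by nlinarith)
  have hfft : -fft S y τ δ 0 x = ∑ k ∈ S, (1 / RR δ (y k) x ^ 2 -
      1 / (RR δ (y k) x ^ 2 + (2 * τ) ^ 2)) := by
    unfold fft
    rw [← Finset.sum_neg_distrib]
    refine Finset.sum_congr rfl fun k _ => ?_
    rw [RR_sq hδ]
    simp only [sub_zero, ne_eq, OfNat.ofNat_ne_zero, not_false_eq_true, zero_pow, add_zero]
    ring
  have hfft0 : 0 ≤ -fft S y τ δ 0 x := by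
    rw [hfft]; exact Finset.sum_nonneg fun k _ => hPk k
  have hlhs : -(fft S y τ δ 0 x / ff S y τ δ 0 x) = (-fft S y τ δ 0 x) / ff S y τ δ 0 x := by
    ring
  rw [hlhs]
  by_cases hL0 : L ≤ 0
  · refine le_trans ?_ (div_nonneg hfft0 hff.le)
    have : 0 ≤ 4 / Real.pi * S1 := by positivity
    linarith
  · have hLp : 0 < L := not_le.1 hL0
    rw [le_div_iff₀ hff]
    -- split off the nearest nucleus
    have hsplit : ff S y τ δ 0 x = (wG (rho δ (y k0) x) 0 + wG (rho δ (y k0) x) (2 * τ)) +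
        ∑ k ∈ S.erase k0, (wG (rho δ (y k) x) 0 + wG (rho δ (y k) x) (2 * τ)) := by
      unfold ff
      rw [← Finset.add_sum_erase S _ hk0]
      simp only [sub_zero]
    obtain ⟨Q0, hQ0⟩ : ∃ Q, Q = wG (rho δ (y k0) x) 0 + wG (rho δ (y k0) x) (2 * τ) := ⟨_, rfl⟩
    obtain ⟨Q1, hQ1⟩ : ∃ Q, Q = ∑ k ∈ S.erase k0, (wG (rho δ (y k) x) 0 +
      wG (rho δ (y k) x) (2 * τ)) := ⟨_, rfl⟩
    rw [hsplit, ← hQ0, ← hQ1]
    have hR0 := RR_pos hδ (y k0) x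
    have hQ0a : Q0 ≤ Real.pi / 2 / RR δ (y k0) x + 1 / (2 * τ) := by
      rw [hQ0, wG_zero]
      exact add_le_add le_rfl (wG_le_inv (rho_pos hδ _ _) hτ)
    have hQ0b : Real.pi / 2 / RR δ (y k0) x ≤ Q0 := by
      rw [hQ0, wG_zero]
      have := wG_pos (rho_pos hδ (y k0) x) (2 * τ)
      change Real.pi / 2 / RR δ (y k0) x ≤ Real.pi / 2 / RR δ (y k0) x + _
      linarith
    have hQ1a : Q1 ≤ Real.pi * S1 := by
      rw [hQ1, hS1, Finset.mul_sum]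
      refine Finset.sum_le_sum fun k _ => ?_
      have h1 := wG_le_half (ρ := rho δ (y k) x) hτ
      rw [wG_zero]
      have e : Real.pi * (1 / RR δ (y k) x) = Real.pi / 2 / Real.sqrt (rho δ (y k) x) +
          Real.pi / 2 / Real.sqrt (rho δ (y k) x) := by
        unfold RR; ring
      rw [e]
      linarith
    have hQ1n : 0 ≤ Q1 := by
      rw [hQ1]
      exact Finset.sum_nonneg fun k _ => (add_pos (wG_pos (rho_pos hδ _ _) _)
        (wG_pos (rho_pos hδ _ _) _)).le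
    have hQ0n : 0 ≤ Q0 := le_trans (by positivity) hQ0b
    have hP0 : L * Q0 ≤ 1 / RR δ (y k0) x ^ 2 - 1 / (RR δ (y k0) x ^ 2 + (2 * τ) ^ 2) := by
      refine (mul_le_mul_of_nonneg_left hQ0a hLp.le).trans ?_
      rw [hL]
      exact single_bound hR0 hτ (hL ▸ hLp.le)
    have hP1 : 1 / RR δ (y k0) x ^ 2 - 1 / (RR δ (y k0) x ^ 2 + (2 * τ) ^ 2) ≤
        -fft S y τ δ 0 x := by
      rw [hfft]
      exact Finset.single_le_sum (f := fun k => 1 / RR δ (y k) x ^ 2 -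
        1 / (RR δ (y k) x ^ 2 + (2 * τ) ^ 2)) (fun k _ => hPk k) hk0
    have hLle : L ≤ 2 / Real.pi / RR δ (y k0) x := by
      rw [hL]; unfold LL
      have : 0 ≤ 4 / (5 * Real.pi) / τ := by positivity
      linarith
    -- cross terms
    have hx1 : L * Q1 ≤ 2 / RR δ (y k0) x * S1 := by
      calc L * Q1 ≤ (2 / Real.pi / RR δ (y k0) x) * (Real.pi * S1) :=
            mul_le_mul hLle hQ1a hQ1n (by positivity)
        _ = _ := by field_simp
    have hx2 : 2 / RR δ (y k0) x * S1 ≤ 4 / Real.pi * S1 * Q0 := by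
      calc 2 / RR δ (y k0) x * S1 = 4 / Real.pi * S1 * (Real.pi / 2 / RR δ (y k0) x) := by
            field_simp; ring
        _ ≤ _ := mul_le_mul_of_nonneg_left hQ0b (by positivity)
    have hx3 : 0 ≤ 4 / Real.pi * S1 * Q1 := by positivity
    calc (L - 4 / Real.pi * S1) * (Q0 + Q1) = L * Q0 + L * Q1 - 4 / Real.pi * S1 * Q0 -
          4 / Real.pi * S1 * Q1 := by ring
      _ ≤ L * Q0 := by linarith
      _ ≤ _ := hP0.trans hP1

/-- The electrostatic inequality at the vertices. -/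
theorem electro (hδ : 0 < δ) (hτ : 0 < τ) {k0 : ι} (hk0 : k0 ∈ S) (x : R3)
    (hmin : ∀ k ∈ S, ‖x - y k0‖ ≤ ‖x - y k‖) (hinj : ∀ k ∈ S, k ≠ k0 → y k ≠ y k0)
    {κ a : ℝ} (hκ : 0 ≤ κ) {Z : ℝ} (ha : 0 ≤ a)
    (h1 : a * Z ≤ κ * (2 / Real.pi))
    (h2 : a * Z + κ * (4 / Real.pi) ≤ a * Z ^ 2 / 2) :
    a * (Z * ∑ k ∈ S, 1 / RR δ (y k) x) ≤
      -(κ * (fft S y τ δ 0 x / ff S y τ δ 0 x)) + κ * (4 / (5 * Real.pi)) / τ +
        a * (Z ^ 2 * ∑ k ∈ S.erase k0, 1 / ‖y k0 - y k‖) := by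
  have hpi := Real.pi_pos
  have he := mul_le_mul_of_nonneg_left (eff_bound (y := y) hδ hτ hk0 x) hκ
  have hR0 := RR_pos hδ (y k0) x
  rw [← Finset.add_sum_erase S _ hk0]
  have hfar : ∀ k ∈ S.erase k0, (a * Z + κ * (4 / Real.pi)) * (1 / RR δ (y k) x) ≤
      a * Z ^ 2 * (1 / ‖y k0 - y k‖) := by
    intro k hk
    have hkS := Finset.mem_of_mem_erase hk
    have hkne := Finset.ne_of_mem_erase hk
    have hd : 0 < ‖y k0 - y k‖ := norm_pos_iff.2 (sub_ne_zero.2 (hinj k hkS hkne).symm)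
    have hRk := RR_pos hδ (y k) x
    have h3 : ‖y k0 - y k‖ ≤ 2 * RR δ (y k) x := by
      have e : y k0 - y k = (x - y k) - (x - y k0) := by abel
      rw [e]
      have := norm_sub_le (x - y k) (x - y k0)
      have h4 := hmin k hkS
      have h5 := dist_le_RR δ (y k) x
      linarith
    have h6 : 1 / RR δ (y k) x ≤ 2 * (1 / ‖y k0 - y k‖) := by
      rw [mul_one_div, div_le_div_iff₀ hRk hd]
      linarith
    calc (a * Z + κ * (4 / Real.pi)) * (1 / RR δ (y k) x) ≤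
        (a * Z ^ 2 / 2) * (2 * (1 / ‖y k0 - y k‖)) :=
          mul_le_mul h2 h6 (by positivity) (by positivity)
      _ = _ := by ring
  have hsum := Finset.sum_le_sum hfar
  rw [← Finset.mul_sum, ← Finset.mul_sum] at hsum
  have hnear : a * Z * (1 / RR δ (y k0) x) ≤ κ * (2 / Real.pi) * (1 / RR δ (y k0) x) :=
    mul_le_mul_of_nonneg_right h1 (by positivity)
  have e1 : κ * LL τ (RR δ (y k0) x) = κ * (2 / Real.pi) * (1 / RR δ (y k0) x) -
      κ * (4 / (5 * Real.pi)) / τ := by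
    unfold LL; ring
  rw [mul_sub, e1] at he
  have e2 : κ * -(fft S y τ δ 0 x / ff S y τ δ 0 x) = -(κ * (fft S y τ δ 0 x / ff S y τ δ 0 x)) := by
    ring
  rw [e2] at he
  obtain ⟨S1, hS1⟩ : ∃ S1, S1 = ∑ k ∈ S.erase k0, 1 / RR δ (y k) x := ⟨_, rfl⟩
  obtain ⟨S2, hS2⟩ : ∃ S2, S2 = ∑ k ∈ S.erase k0, 1 / ‖y k0 - y k‖ := ⟨_, rfl⟩
  rw [← hS1] at he hsum ⊢
  rw [← hS2] at hsum ⊢
  nlinarith [he, hsum, hnear]

end family

end Run7.h108
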