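import Pool.Agent.Run7.h108.Evolution

set_option autoImplicit false

open scoped InnerProductSpace Topology
open Filter

namespace Run7.h108

variable {E : Type*} [NormedAddCommGroup E] [InnerProductSpace ℂ E] [CompleteSpace E]
variable {T0 : Submodule ℂ (E × E)} {P : E →L[ℂ] E}

theorem PosSpec.static_extend (h : PosSpec (Adj T0) P) (hc : Core T0) {c : ℝ}
    {X X' : E →L[ℂ] E}
    (hst : ∀ q ∈ T0, -c * ‖q.1‖ ^ 2 ≤ 2 * ‖q.2‖ ^ 2 + (⟪q.1, X' q.1⟫_ℂ).re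
      - 2 * (⟪q.1, X q.2⟫_ℂ).re) {u G : E} (hu : (u, G) ∈ Adj T0) :
    -c * ‖u‖ ^ 2 ≤ 2 * ‖G‖ ^ 2 + (⟪u, X' u⟫_ℂ).re - 2 * (⟪u, X G⟫_ℂ).re := by
  have hcl : IsClosed {q : E × E | -c * ‖q.1‖ ^ 2 ≤ 2 * ‖q.2‖ ^ 2 + (⟪q.1, X' q.1⟫_ℂ).re
      - 2 * (⟪q.1, X q.2⟫_ℂ).re} := by
    apply isClosed_le
    · fun_prop
    · have c1 : Continuous fun q : E × E => ⟪q.1, X' q.1⟫_ℂ :=
        continuous_fst.inner (X'.continuous.comp continuous_fst)
      have c2 : Continuous fun q : E × E => ⟪q.1, X q.2⟫_ℂ :=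
        continuous_fst.inner (X.continuous.comp continuous_snd)
      have c3 := Complex.continuous_re.comp c1
      have c4 := Complex.continuous_re.comp c2
      exact (((continuous_snd.norm.pow 2).const_mul 2).add c3).sub (c4.const_mul 2)
  have hmem : (u, G) ∈ closure (T0 : Set (E × E)) := by
    rw [Metric.mem_closure_iff]
    intro ε hε
    obtain ⟨q, hq, h1, h2⟩ := h.mem_closure hc hu hε
    refine ⟨q, hq, ?_⟩
    rw [Prod.dist_eq, dist_comm, dist_comm (u, G).2]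
    simp only [dist_eq_norm]
    exact max_lt h1 h2
  exact closure_minimal (fun q hq => hst q hq) hcl hmem

theorem PosSpec.evolution (h : PosSpec (Adj T0) P) (hc : Core T0) {ψ g : E}
    (hψ : (ψ, g) ∈ Adj T0) (hP : P ψ = ψ) {τ c : ℝ} (hτ : 0 < τ) (hc0 : 0 ≤ c)
    {X X' : ℝ → E →L[ℂ] E}
    (hsa : ∀ t u v, ⟪X t u, v⟫_ℂ = ⟪u, X t v⟫_ℂ)
    (hder : ∀ t ∈ Set.Ioo 0 τ, HasDerivAt X (X' t) t)
    (hcont : ContinuousOn X (Set.Icc 0 τ))
    (hXτ : X τ = 0)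
    (hst : ∀ t ∈ Set.Ioo 0 τ, ∀ q ∈ T0, -c * ‖q.1‖ ^ 2 ≤ 2 * ‖q.2‖ ^ 2 +
      (⟪q.1, X' t q.1⟫_ℂ).re - 2 * (⟪q.1, X t q.2⟫_ℂ).re) :
    (⟪ψ, X 0 ψ⟫_ℂ).re ≤ (⟪ψ, g⟫_ℂ).re + c * τ * ‖ψ‖ ^ 2 := by
  obtain ⟨U, G, hUG, hlim⟩ := h.exists_orbit hc hψ hP
  -- the functional
  let J : ℝ → ℝ := fun t => (⟪U t, X t (U t)⟫_ℂ).re
  let F : ℝ → ℝ := fun t => -(⟪U t, G t⟫_ℂ).re + J t + c * ‖ψ‖ ^ 2 * t
  have hJd : ∀ t ∈ Set.Ioo 0 τ, HasDerivAt J ((⟪U t, X' t (U t)⟫_ℂ).re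
      - 2 * (⟪U t, X t (G t)⟫_ℂ).re) t := by
    intro t ht
    obtain ⟨m, _, d0, _, _, _⟩ := hUG t ht.1
    have d1 : HasDerivAt (fun s => X s (U s)) (X' t (U t) + X t (-(G t))) t := by
      have d2 : HasDerivAt (fun s => (X s).restrictScalars ℝ) ((X' t).restrictScalars ℝ) t := by
        have := (ContinuousLinearMap.restrictScalarsL ℂ E E ℝ ℝ).hasFDerivAt.comp_hasDerivAt t
          (hder t ht)
        exact this
      exact d2.clm_apply d0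
    have d3 := d0.inner ℂ d1
    have d4 := Complex.reCLM.hasFDerivAt.comp_hasDerivAt t d3
    refine d4.congr_deriv ?_
    change (⟪U t, X' t (U t) + X t (-(G t))⟫_ℂ + ⟪-(G t), X t (U t)⟫_ℂ).re = _
    have e1 : (⟪G t, X t (U t)⟫_ℂ).re = (⟪U t, X t (G t)⟫_ℂ).re := by
      rw [← hsa, ← inner_conj_symm, Complex.conj_re]
    rw [map_neg, inner_add_right, inner_neg_right, inner_neg_left, Complex.add_re,
      Complex.add_re, Complex.neg_re, Complex.neg_re, e1]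
    ring
  have hFd : ∀ t ∈ Set.Ioo 0 τ, HasDerivAt F (-(-2 * ‖G t‖ ^ 2) +
      ((⟪U t, X' t (U t)⟫_ℂ).re - 2 * (⟪U t, X t (G t)⟫_ℂ).re) + c * ‖ψ‖ ^ 2 * 1) t := by
    intro t ht
    obtain ⟨_, _, _, d1, _, _⟩ := hUG t ht.1
    exact (d1.neg.add (hJd t ht)).add ((hasDerivAt_id t).const_mul _)
  have hJc : ContinuousOn J (Set.Ioc 0 τ) := by
    have cU : ContinuousOn U (Set.Ioc 0 τ) := fun t ht =>
      ((hUG t ht.1).2.2.1).continuousAt.continuousWithinAt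
    have cX : ContinuousOn X (Set.Ioc 0 τ) := hcont.mono Set.Ioc_subset_Icc_self
    have c1 : ContinuousOn (fun t => X t (U t)) (Set.Ioc 0 τ) := cX.clm_apply cU
    exact Complex.continuous_re.comp_continuousOn (cU.inner c1)
  have hFc : ContinuousOn F (Set.Ioc 0 τ) := by
    have c2 : ContinuousOn (fun t => (⟪U t, G t⟫_ℂ).re) (Set.Ioc 0 τ) := fun t ht =>
      ((hUG t ht.1).2.2.2.1).continuousAt.continuousWithinAt
    exact (c2.neg.add hJc).add (continuousOn_const.mul continuousOn_id)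
  have hmono : ∀ s ∈ Set.Ioo 0 τ, F s ≤ F τ := by
    intro s hs
    have hm : MonotoneOn F (Set.Icc s τ) := by
      refine monotoneOn_of_deriv_nonneg (convex_Icc s τ)
        (hFc.mono fun t ht => ⟨hs.1.trans_le ht.1, ht.2⟩) ?_ ?_
      · intro t ht
        rw [interior_Icc] at ht
        exact (hFd t ⟨hs.1.trans ht.1, ht.2⟩).differentiableAt.differentiableWithinAt
      · intro t ht
        rw [interior_Icc] at ht
        have ht' : t ∈ Set.Ioo 0 τ := ⟨hs.1.trans ht.1, ht.2⟩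
        rw [(hFd t ht').deriv]
        obtain ⟨m, _, _, _, hn, _⟩ := hUG t ht'.1
        have h1 := h.static_extend hc (hst t ht') m
        have h2 : c * ‖U t‖ ^ 2 ≤ c * ‖ψ‖ ^ 2 := by
          refine mul_le_mul_of_nonneg_left ?_ hc0
          nlinarith [norm_nonneg (U t), norm_nonneg ψ]
        linarith
    exact hm ⟨le_rfl, hs.2.le⟩ ⟨hs.2.le, le_rfl⟩ hs.2.le
  have hFτ : F τ ≤ c * ‖ψ‖ ^ 2 * τ := by
    obtain ⟨m, hPU, _, _, _, _⟩ := hUG τ hτ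
    have h1 := h.re_nonneg m hPU
    have h2 : J τ = 0 := by
      change (⟪U τ, X τ (U τ)⟫_ℂ).re = 0
      rw [hXτ]; simp
    change -(⟪U τ, G τ⟫_ℂ).re + J τ + c * ‖ψ‖ ^ 2 * τ ≤ _
    linarith
  have hJs : ∀ s ∈ Set.Ioo 0 τ, J s ≤ (⟪ψ, g⟫_ℂ).re + c * τ * ‖ψ‖ ^ 2 := by
    intro s hs
    have h1 := (hmono s hs).trans hFτ
    obtain ⟨_, _, _, _, _, he⟩ := hUG s hs.1
    change -(⟪U s, G s⟫_ℂ).re + J s + c * ‖ψ‖ ^ 2 * s ≤ _ at h1
    have h3 : 0 ≤ c * ‖ψ‖ ^ 2 * s := by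
      have := hs.1.le
      positivity
    linarith
  have hJ0 : Tendsto J (𝓝[>] 0) (𝓝 (⟪ψ, X 0 ψ⟫_ℂ).re) := by
    have t1 : Tendsto X (𝓝[>] 0) (𝓝 (X 0)) := by
      have := hcont 0 ⟨le_rfl, hτ.le⟩
      have h4 : Tendsto X (𝓝[Set.Icc 0 τ] 0) (𝓝 (X 0)) := this
      refine h4.mono_left ?_
      rw [nhdsWithin_le_iff]
      exact mem_of_superset (Ioc_mem_nhdsGT hτ) Set.Ioc_subset_Icc_self
    have t2 : Tendsto (fun t => X t (U t)) (𝓝[>] 0) (𝓝 (X 0 ψ)) := by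
      have hev : Continuous fun p : (E →L[ℂ] E) × E => p.1 p.2 :=
        isBoundedBilinearMap_apply.continuous
      exact (hev.tendsto (X 0, ψ)).comp (t1.prodMk_nhds hlim)
    exact (Complex.continuous_re.tendsto _).comp (hlim.inner t2)
  refine le_of_tendsto hJ0 ?_
  filter_upwards [Ioo_mem_nhdsGT hτ] with s hs
  exact hJs s hs

end Run7.h108
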