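import Pool.Agent.Run7.h108.EvolIneq

set_option autoImplicit false

open scoped InnerProductSpace Topology
open Filter

namespace Run7.h108

variable {E : Type*} [NormedAddCommGroup E] [InnerProductSpace ℂ E] [CompleteSpace E]
variable {T0 : Submodule ℂ (E × E)} {P : E →L[ℂ] E}

omit [CompleteSpace E] in
theorem hasDerivAt_of_quadratic {X : ℝ → E →L[ℂ] E} {X' : E →L[ℂ] E} {t C : ℝ}
    (h : ∀ᶠ s in 𝓝 t, ‖X s - X t - ((s - t : ℝ) : ℂ) • X'‖ ≤ C * (s - t) ^ 2) :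
    HasDerivAt X X' t := by
  rw [hasDerivAt_iff_isLittleO]
  rw [Asymptotics.isLittleO_iff]
  intro c hc
  have hpos : 0 < c / (|C| + 1) := by positivity
  filter_upwards [h, Metric.ball_mem_nhds t hpos] with s h2 h3
  rw [Metric.mem_ball, Real.dist_eq] at h3
  rw [← Complex.coe_smul]
  have h4 : C * (s - t) ^ 2 ≤ |C| * (s - t) ^ 2 :=
    mul_le_mul_of_nonneg_right (le_abs_self C) (sq_nonneg _)
  refine (h2.trans h4).trans ?_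
  rw [Real.norm_eq_abs, ← sq_abs, sq, ← mul_assoc]
  refine mul_le_mul_of_nonneg_right ?_ (abs_nonneg _)
  have h5 : |C| * |s - t| ≤ |C| * (c / (|C| + 1)) :=
    mul_le_mul_of_nonneg_left h3.le (abs_nonneg C)
  refine h5.trans ?_
  rw [mul_div_assoc', div_le_iff₀ (by positivity)]
  nlinarith [abs_nonneg C]

omit [CompleteSpace E] in
theorem continuousOn_of_lip {X : ℝ → E →L[ℂ] E} {S : Set ℝ} {C : ℝ} (hC : 0 ≤ C)
    (h : ∀ s ∈ S, ∀ t ∈ S, ‖X s - X t‖ ≤ C * |s - t|) : ContinuousOn X S := by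
  have hlip : LipschitzOnWith C.toNNReal X S := by
    refine LipschitzOnWith.of_dist_le_mul fun s hs t ht => ?_
    rw [dist_eq_norm, Real.coe_toNNReal C hC, Real.dist_eq]
    exact h s hs t ht
  exact hlip.continuousOn

/-- The evolution inequality with quantitative hypotheses. -/
theorem PosSpec.evolution' (h : PosSpec (Adj T0) P) (hc : Core T0) {ψ g : E}
    (hψ : (ψ, g) ∈ Adj T0) (hP : P ψ = ψ) {τ c C : ℝ} (hτ : 0 < τ) (hc0 : 0 ≤ c) (hC : 0 ≤ C)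
    {X X' : ℝ → E →L[ℂ] E}
    (hsa : ∀ t u v, ⟪X t u, v⟫_ℂ = ⟪u, X t v⟫_ℂ)
    (hder : ∀ t ∈ Set.Ioo 0 τ, ∀ s ∈ Set.Ioo 0 τ,
      ‖X s - X t - ((s - t : ℝ) : ℂ) • X' t‖ ≤ C * (s - t) ^ 2)
    (hlip : ∀ s ∈ Set.Icc 0 τ, ∀ t ∈ Set.Icc 0 τ, ‖X s - X t‖ ≤ C * |s - t|)
    (hXτ : X τ = 0)
    (hst : ∀ t ∈ Set.Ioo 0 τ, ∀ q ∈ T0, -c * ‖q.1‖ ^ 2 ≤ 2 * ‖q.2‖ ^ 2 +
      (⟪q.1, X' t q.1⟫_ℂ).re - 2 * (⟪q.1, X t q.2⟫_ℂ).re) :
    (⟪ψ, X 0 ψ⟫_ℂ).re ≤ (⟪ψ, g⟫_ℂ).re + c * τ * ‖ψ‖ ^ 2 := by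
  refine h.evolution hc hψ hP hτ hc0 hsa (X' := X') (fun t ht => ?_)
    (continuousOn_of_lip hC hlip) hXτ hst
  refine hasDerivAt_of_quadratic (C := C) ?_
  filter_upwards [Ioo_mem_nhds ht.1 ht.2] with s hs
  exact hder t ht s hs

end Run7.h108
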