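import Pool.Agent.Run7.h108.Graph

/-!
# Multiplication operators
-/

set_option autoImplicit false

open scoped ENNReal ContDiff InnerProductSpace Topology
open MeasureTheory Filter

namespace Run7.h108

variable {V : Type*} [NormedAddCommGroup V] [InnerProductSpace ℂ V]

/-- bounded measurable real function -/
def BM (w : R3 → ℝ) : Prop := AEStronglyMeasurable w volume ∧ ∃ C, ∀ x, |w x| ≤ C

theorem BM.of_cont {w : R3 → ℝ} (hw : Continuous w) {C : ℝ} (hC : ∀ x, |w x| ≤ C) : BM w :=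
  ⟨hw.aestronglyMeasurable, C, hC⟩

theorem BM.memLp {w : R3 → ℝ} (h : BM w) {u : R3 → V} (hu : MemLp u 2 volume) :
    MemLp (fun x => ((w x : ℝ) : ℂ) • u x) 2 volume := by
  obtain ⟨hm, C, hC⟩ := h
  have h1 : MemLp (fun x => C • u x) 2 volume := hu.const_smul C
  refine h1.mono ((Complex.continuous_ofReal.comp_aestronglyMeasurable hm).smul hu.1)
    (Eventually.of_forall fun x => ?_)
  rw [norm_smul, norm_smul, Complex.norm_real, Real.norm_eq_abs, Real.norm_eq_abs]
  exact mul_le_mul_of_nonneg_right ((hC x).trans (le_abs_self C)) (norm_nonneg _)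

open Classical in
/-- multiplication by a bounded function (zero if the function is not bounded measurable) -/
noncomputable def mulOp (V : Type*) [NormedAddCommGroup V] [InnerProductSpace ℂ V]
    (w : R3 → ℝ) : Lp V 2 (volume : Measure R3) →L[ℂ] Lp V 2 (volume : Measure R3) :=
  if h : BM w then
    LinearMap.mkContinuousOfExistsBound
      { toFun := fun u => (h.memLp (Lp.memLp u)).toLp _
        map_add' := by
          intro u v
          apply Lp.ext
          filter_upwards [(h.memLp (Lp.memLp (u + v))).coeFn_toLp,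
            (h.memLp (Lp.memLp u)).coeFn_toLp, (h.memLp (Lp.memLp v)).coeFn_toLp,
            Lp.coeFn_add u v, Lp.coeFn_add ((h.memLp (Lp.memLp u)).toLp _)
              ((h.memLp (Lp.memLp v)).toLp _)] with x h1 h2 h3 h4 h5
          rw [h1, h5, Pi.add_apply, h2, h3, h4, Pi.add_apply, smul_add]
        map_smul' := by
          intro c u
          apply Lp.ext
          filter_upwards [(h.memLp (Lp.memLp (c • u))).coeFn_toLp,
            (h.memLp (Lp.memLp u)).coeFn_toLp, Lp.coeFn_smul c u,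
            Lp.coeFn_smul c ((h.memLp (Lp.memLp u)).toLp _)] with x h1 h2 h3 h4
          simp only [RingHom.id_apply]
          rw [h1, h4, Pi.smul_apply, h2, h3, Pi.smul_apply, smul_comm] }
      (by
        obtain ⟨hm, C, hC⟩ := h
        refine ⟨C, fun u => ?_⟩
        refine Lp.norm_le_mul_norm_of_ae_le_mul ?_
        have hw : BM w := ⟨hm, C, hC⟩
        filter_upwards [(hw.memLp (Lp.memLp u)).coeFn_toLp] with x h1
        change ‖(hw.memLp (Lp.memLp u)).toLp _ x‖ ≤ C * ‖u x‖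
        rw [h1, norm_smul, Complex.norm_real, Real.norm_eq_abs]
        exact mul_le_mul_of_nonneg_right (hC x) (norm_nonneg _))
  else 0

theorem mulOp_ae {w : R3 → ℝ} (h : BM w) (u : Lp V 2 (volume : Measure R3)) :
    mulOp V w u =ᵐ[volume] fun x => ((w x : ℝ) : ℂ) • u x := by
  unfold mulOp
  rw [dif_pos h]
  exact (h.memLp (Lp.memLp u)).coeFn_toLp

theorem mulOp_symm (w : R3 → ℝ) (u v : Lp V 2 (volume : Measure R3)) :
    ⟪mulOp V w u, v⟫_ℂ = ⟪u, mulOp V w v⟫_ℂ := by
  by_cases h : BM w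
  · rw [L2.inner_def, L2.inner_def]
    refine integral_congr_ae ?_
    filter_upwards [mulOp_ae h u, mulOp_ae h v] with x h1 h2
    rw [h1, h2, inner_smul_left, inner_smul_right, Complex.conj_ofReal]
  · have : mulOp V w = 0 := by unfold mulOp; rw [dif_neg h]
    rw [this]; simp

theorem mulOp_zero : mulOp V (fun _ => 0) = 0 := by
  have h : BM (fun _ : R3 => (0 : ℝ)) := BM.of_cont continuous_const (C := 0) (by simp)
  ext1 u
  apply Lp.ext
  filter_upwards [mulOp_ae h u, Lp.coeFn_zero V 2 (volume : Measure R3)] with x h1 h2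
  rw [h1]
  simp only [Complex.ofReal_zero, zero_smul, zero_apply]
  exact h2.symm

theorem norm_comb_le {w1 w2 w3 : R3 → ℝ} (h1 : BM w1) (h2 : BM w2) (h3 : BM w3) (r : ℝ) {C : ℝ}
    (hC : 0 ≤ C) (h : ∀ x, |w1 x - w2 x - r * w3 x| ≤ C) :
    ‖mulOp V w1 - mulOp V w2 - (r : ℂ) • mulOp V w3‖ ≤ C := by
  refine ContinuousLinearMap.opNorm_le_bound _ hC fun u => ?_
  refine Lp.norm_le_mul_norm_of_ae_le_mul ?_
  have e1 : (mulOp V w1 - mulOp V w2 - (r : ℂ) • mulOp V w3) u =
      mulOp V w1 u - mulOp V w2 u - (r : ℂ) • mulOp V w3 u := rfl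
  rw [e1]
  filter_upwards [mulOp_ae h1 u, mulOp_ae h2 u, mulOp_ae h3 u,
    Lp.coeFn_sub (mulOp V w1 u - mulOp V w2 u) ((r : ℂ) • mulOp V w3 u),
    Lp.coeFn_sub (mulOp V w1 u) (mulOp V w2 u), Lp.coeFn_smul (r : ℂ) (mulOp V w3 u)]
    with x a1 a2 a3 a4 a5 a6
  rw [a4, Pi.sub_apply, a5, Pi.sub_apply, a6, Pi.smul_apply, a1, a2, a3]
  have e2 : ((w1 x : ℝ) : ℂ) • u x - ((w2 x : ℝ) : ℂ) • u x - (r : ℂ) • ((w3 x : ℝ) : ℂ) • u x =
      ((w1 x - w2 x - r * w3 x : ℝ) : ℂ) • u x := by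
    rw [smul_smul, ← sub_smul, ← sub_smul]
    push_cast
    rfl
  rw [e2, norm_smul, Complex.norm_real, Real.norm_eq_abs]
  exact mul_le_mul_of_nonneg_right (h x) (norm_nonneg _)

theorem norm_diff_le {w1 w2 : R3 → ℝ} (h1 : BM w1) (h2 : BM w2) {C : ℝ}
    (hC : 0 ≤ C) (h : ∀ x, |w1 x - w2 x| ≤ C) :
    ‖mulOp V w1 - mulOp V w2‖ ≤ C := by
  have hz : BM (fun _ : R3 => (0 : ℝ)) := BM.of_cont continuous_const (C := 0) (by simp)
  have := norm_comb_le (V := V) h1 h2 hz 0 hC (fun x => by simpa using h x)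
  simpa using this

theorem re_inner_mulOp {w : R3 → ℝ} (h : BM w) (u v : Lp V 2 (volume : Measure R3)) :
    (⟪u, mulOp V w v⟫_ℂ).re = ∫ x, w x * rp (u x) (v x) := by
  rw [re_inner_L2]
  refine integral_congr_ae ?_
  filter_upwards [mulOp_ae h v] with x h1
  rw [h1, rp_smul_right]

theorem norm_sq_L2 (u : Lp V 2 (volume : Measure R3)) : ‖u‖ ^ 2 = ∫ x, ‖u x‖ ^ 2 := by
  have h1 : ‖u‖ ^ 2 = (⟪u, u⟫_ℂ).re := by
    have := @inner_self_eq_norm_sq ℂ _ _ _ _ u
    simpa using this.symm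
  rw [h1, re_inner_L2]
  refine integral_congr_ae (Eventually.of_forall fun x => ?_)
  exact rp_self _

end Run7.h108
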