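import Mathlib

set_option autoImplicit false

open Set

namespace Run7.h108

theorem lip_of_deriv {u u' : ℝ → ℝ} {K τ : ℝ} (hu : ∀ t, HasDerivAt u (u' t) t)
    (hb : ∀ t ∈ Icc 0 τ, |u' t| ≤ K) {s t : ℝ} (hs : s ∈ Icc 0 τ) (ht : t ∈ Icc 0 τ) :
    |u s - u t| ≤ K * |s - t| := by
  have := (convex_Icc 0 τ).norm_image_sub_le_of_norm_hasDerivWithin_le (f := u) (f' := u')
    (C := K) (fun r _ => (hu r).hasDerivWithinAt) (fun r hr => by
      rw [Real.norm_eq_abs]; exact hb r hr) ht hs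
  simpa [Real.norm_eq_abs] using this

theorem taylor_of_deriv {u u' u'' : ℝ → ℝ} {K τ : ℝ} (hu : ∀ t, HasDerivAt u (u' t) t)
    (hu' : ∀ t, HasDerivAt u' (u'' t) t)
    (hb : ∀ t ∈ Icc 0 τ, |u'' t| ≤ K) {s t : ℝ} (hs : s ∈ Icc 0 τ) (ht : t ∈ Icc 0 τ) :
    |u s - u t - (s - t) * u' t| ≤ K * (s - t) ^ 2 := by
  have hK : 0 ≤ K := (abs_nonneg _).trans (hb t ht)
  have hsub : uIcc t s ⊆ Icc 0 τ := uIcc_subset_Icc ht hs
  have hd : ∀ r, HasDerivAt (fun r => u r - u t - (r - t) * u' t) (u' r - u' t) r := by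
    intro r
    have h1 : HasDerivAt (fun r : ℝ => (r - t) * u' t) (u' t) r := by
      have := ((hasDerivAt_id r).sub_const t).mul_const (u' t)
      simpa using this
    exact ((hu r).sub_const (u t)).sub h1
  have hbd : ∀ r ∈ uIcc t s, ‖u' r - u' t‖ ≤ K * |s - t| := by
    intro r hr
    rw [Real.norm_eq_abs]
    refine (lip_of_deriv hu' hb (hsub hr) ht).trans ?_
    refine mul_le_mul_of_nonneg_left ?_ hK
    have := abs_sub_left_of_mem_uIcc hr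
    simpa [abs_sub_comm] using this
  have := (convex_uIcc t s).norm_image_sub_le_of_norm_hasDerivWithin_le
    (f := fun r => u r - u t - (r - t) * u' t) (f' := fun r => u' r - u' t)
    (C := K * |s - t|) (fun r _ => (hd r).hasDerivWithinAt) hbd left_mem_uIcc right_mem_uIcc
  simp only [sub_self, zero_mul, sub_zero, Real.norm_eq_abs] at this
  refine this.trans (le_of_eq ?_)
  rw [mul_assoc, ← sq, sq_abs]

theorem ratio_bounds {F F1 F2 F3 : ℝ → ℝ} {τ M1 M2 M3 : ℝ} (h0 : ∀ t, 0 < F t)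
    (h1 : ∀ t, HasDerivAt F (F1 t) t) (h2 : ∀ t, HasDerivAt F1 (F2 t) t)
    (h3 : ∀ t, HasDerivAt F2 (F3 t) t)
    (b1 : ∀ t ∈ Icc 0 τ, |F1 t| ≤ M1 * F t) (b2 : ∀ t ∈ Icc 0 τ, |F2 t| ≤ M2 * F t)
    (b3 : ∀ t ∈ Icc 0 τ, |F3 t| ≤ M3 * F t) :
    (∀ t ∈ Icc 0 τ, |F1 t / F t| ≤ M1) ∧
    (∀ t ∈ Icc 0 τ, |F2 t / F t - (F1 t / F t) ^ 2| ≤ M2 + M1 ^ 2) ∧
    (∀ s ∈ Icc 0 τ, ∀ t ∈ Icc 0 τ, |F1 s / F s - F1 t / F t| ≤ (M2 + M1 ^ 2) * |s - t|) ∧
    (∀ s ∈ Icc 0 τ, ∀ t ∈ Icc 0 τ, |F1 s / F s - F1 t / F t - (s - t) * (F2 t / F t -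
      (F1 t / F t) ^ 2)| ≤ (M3 + M2 * M1 + 2 * M1 * (M2 + M1 ^ 2)) * (s - t) ^ 2) := by
  have d1 : ∀ t, HasDerivAt (fun t => F1 t / F t) (F2 t / F t - (F1 t / F t) ^ 2) t := by
    intro t
    refine ((h2 t).div (h1 t) (h0 t).ne').congr_deriv ?_
    have := (h0 t).ne'
    field_simp
  have d2 : ∀ t, HasDerivAt (fun t => F2 t / F t) (F3 t / F t - F2 t / F t * (F1 t / F t)) t := by
    intro t
    refine ((h3 t).div (h1 t) (h0 t).ne').congr_deriv ?_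
    have := (h0 t).ne'
    field_simp
  have d3 : ∀ t, HasDerivAt (fun t => F2 t / F t - (F1 t / F t) ^ 2)
      (F3 t / F t - F2 t / F t * (F1 t / F t) -
        2 * (F1 t / F t) * (F2 t / F t - (F1 t / F t) ^ 2)) t := by
    intro t
    have e := (d1 t).fun_pow 2
    refine ((d2 t).sub e).congr_deriv ?_
    simp
  have c1 : ∀ t ∈ Icc 0 τ, |F1 t / F t| ≤ M1 := by
    intro t ht
    rw [abs_div, abs_of_pos (h0 t), div_le_iff₀ (h0 t)]
    exact b1 t ht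
  have c2 : ∀ t ∈ Icc 0 τ, |F2 t / F t| ≤ M2 := by
    intro t ht
    rw [abs_div, abs_of_pos (h0 t), div_le_iff₀ (h0 t)]
    exact b2 t ht
  have c3 : ∀ t ∈ Icc 0 τ, |F3 t / F t| ≤ M3 := by
    intro t ht
    rw [abs_div, abs_of_pos (h0 t), div_le_iff₀ (h0 t)]
    exact b3 t ht
  have c4 : ∀ t ∈ Icc 0 τ, |F2 t / F t - (F1 t / F t) ^ 2| ≤ M2 + M1 ^ 2 := by
    intro t ht
    have a1 := c1 t ht
    have a2 := c2 t ht
    have a3 : (F1 t / F t) ^ 2 ≤ M1 ^ 2 := by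
      rw [← sq_abs]; exact pow_le_pow_left₀ (abs_nonneg _) a1 2
    rw [abs_le] at a2 ⊢
    constructor
    · linarith
    · nlinarith [sq_nonneg (F1 t / F t), sq_nonneg M1]
  refine ⟨c1, c4, ?_, ?_⟩
  · intro s hs t ht
    exact lip_of_deriv d1 c4 hs ht
  · intro s hs t ht
    refine taylor_of_deriv d1 d3 (fun r hr => ?_) hs ht
    have a1 := c1 r hr
    have a2 := c2 r hr
    have a3 := c3 r hr
    have a4 := c4 r hr
    have n1 : 0 ≤ M1 := (abs_nonneg _).trans a1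
    have e1 : |F2 r / F r * (F1 r / F r)| ≤ M2 * M1 := by
      rw [abs_mul]; exact mul_le_mul a2 a1 (abs_nonneg _) ((abs_nonneg _).trans a2)
    have e2 : |2 * (F1 r / F r) * (F2 r / F r - (F1 r / F r) ^ 2)| ≤ 2 * M1 * (M2 + M1 ^ 2) := by
      rw [abs_mul, abs_mul, abs_of_pos (by norm_num : (0 : ℝ) < 2)]
      exact mul_le_mul (by linarith) a4 (abs_nonneg _) (by positivity)
    calc |F3 r / F r - F2 r / F r * (F1 r / F r) -
          2 * (F1 r / F r) * (F2 r / F r - (F1 r / F r) ^ 2)| ≤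
          |F3 r / F r - F2 r / F r * (F1 r / F r)| +
            |2 * (F1 r / F r) * (F2 r / F r - (F1 r / F r) ^ 2)| := abs_sub _ _
      _ ≤ |F3 r / F r| + |F2 r / F r * (F1 r / F r)| +
            |2 * (F1 r / F r) * (F2 r / F r - (F1 r / F r) ^ 2)| := by
          gcongr; exact abs_sub _ _
      _ ≤ _ := by linarith

end Run7.h108
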