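import Pool.Agent.Run7.h108.Nuclei
import Pool.Agent.Run7.h108.Ratio
import Pool.Agent.Run7.h108.MulOp
import Pool.Agent.Run7.h108.EvolIneq2

/-!
# The evolution inequality for the weight of a family of nuclei
-/

set_option autoImplicit false

open scoped ENNReal ContDiff InnerProductSpace Topology
open MeasureTheory Filter Set

namespace Run7.h108

section family

variable {ι : Type*} {S : Finset ι} {y : ι → R3} {τ δ : ℝ}

/-- third time derivative -/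
noncomputable def ffttt (S : Finset ι) (y : ι → R3) (τ δ : ℝ) (t : ℝ) (x : R3) : ℝ :=
  ∑ k ∈ S, ((2 / (rho δ (y k) x + t ^ 2) ^ 2 - 8 * t ^ 2 / (rho δ (y k) x + t ^ 2) ^ 3) -
    (2 / (rho δ (y k) x + (2 * τ - t) ^ 2) ^ 2 -
      8 * (2 * τ - t) ^ 2 / (rho δ (y k) x + (2 * τ - t) ^ 2) ^ 3))

theorem refl_deriv {u : ℝ → ℝ} {u' : ℝ} {τ t : ℝ} (h : HasDerivAt u u' (2 * τ - t)) :
    HasDerivAt (fun t => u (2 * τ - t)) (-u') t := by
  have h1 : HasDerivAt (fun t : ℝ => 2 * τ - t) (-1) t := by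
    simpa using (hasDerivAt_id t).const_sub (2 * τ)
  have := h.comp t h1
  refine this.congr_deriv ?_
  ring

theorem dt_ff (hδ : 0 < δ) (t : ℝ) (x : R3) :
    HasDerivAt (fun t => ff S y τ δ t x) (fft S y τ δ t x) t := by
  unfold ff fft
  refine HasDerivAt.fun_sum fun k _ => ?_
  have hρ := rho_pos hδ (y k) x
  refine ((hasDerivAt_wG_t hρ t).add (refl_deriv (hasDerivAt_wG_t hρ (2 * τ - t)))).congr_deriv ?_
  ring

theorem dt_fft (hδ : 0 < δ) (t : ℝ) (x : R3) :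
    HasDerivAt (fun t => fft S y τ δ t x) (fftt S y τ δ t x) t := by
  unfold fft fftt
  refine HasDerivAt.fun_sum fun k _ => ?_
  have hρ := rho_pos hδ (y k) x
  have h2 : HasDerivAt (fun t => 1 / (rho δ (y k) x + (2 * τ - t) ^ 2))
      (2 * (2 * τ - t) / (rho δ (y k) x + (2 * τ - t) ^ 2) ^ 2) t := by
    have := (refl_deriv (τ := τ) (hasDerivAt_w1 hρ (2 * τ - t))).fun_neg
    simpa using this
  exact (hasDerivAt_w1 hρ t).add h2

theorem dt_fftt (hδ : 0 < δ) (t : ℝ) (x : R3) :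
    HasDerivAt (fun t => fftt S y τ δ t x) (ffttt S y τ δ t x) t := by
  unfold fftt ffttt
  refine HasDerivAt.fun_sum fun k _ => ?_
  have hρ := rho_pos hδ (y k) x
  exact (hasDerivAt_w2 hρ t).add (refl_deriv (hasDerivAt_w2 hρ (2 * τ - t)))

/-- a positive constant -/
noncomputable def c0 (τ δ : ℝ) : ℝ := Real.pi / 2 - Real.arctan (2 * τ / δ)

theorem c0_pos (τ δ : ℝ) : 0 < c0 τ δ := by
  unfold c0
  have := Real.arctan_lt_pi_div_two (2 * τ / δ)
  linarith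

theorem sum_bound {a g : ι → ℝ} {M : ℝ} (h : ∀ k ∈ S, |a k| ≤ M * g k) :
    |∑ k ∈ S, a k| ≤ M * ∑ k ∈ S, g k := by
  rw [Finset.mul_sum]
  exact (Finset.abs_sum_le_sum_abs _ _).trans (Finset.sum_le_sum h)

theorem term_bound {a b g1 g2 c M r : ℝ} (hc : 0 < c) (hM : 0 ≤ M)
    (ha : |a| ≤ M / r) (hb : |b| ≤ M / r) (h1 : c / r ≤ g1) (h2 : c / r ≤ g2) :
    |a| + |b| ≤ M / c * (g1 + g2) := by
  have e : M / r = M / c * (c / r) := by field_simp
  have h3 : M / c * (c / r) ≤ M / c * g1 := mul_le_mul_of_nonneg_left h1 (by positivity)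
  have h4 : M / c * (c / r) ≤ M / c * g2 := mul_le_mul_of_nonneg_left h2 (by positivity)
  rw [e] at ha hb
  linarith

theorem wG_lower' (hτ : 0 < τ) (hδ : 0 < δ) {t : ℝ} (ht : t ≤ 2 * τ) (y x : R3) :
    c0 τ δ / Real.sqrt (rho δ y x) ≤ wG (rho δ y x) t :=
  wG_lower hδ (rho_ge δ y x) ht (by positivity)

theorem fft_bound (hτ : 0 < τ) (hδ : 0 < δ) {t : ℝ} (ht : t ∈ Icc 0 τ) (x : R3) :
    |fft S y τ δ t x| ≤ (1 / δ) / c0 τ δ * ff S y τ δ t x := by
  refine sum_bound fun k _ => ?_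
  refine (abs_add_le _ _).trans ?_
  refine term_bound (c0_pos τ δ) (by positivity) (w1_bound hδ (rho_ge δ _ _)) ?_
    (wG_lower' hτ hδ (by linarith [ht.2]) _ _) (wG_lower' hτ hδ (by linarith [ht.1]) _ _)
  have := w1_bound (t := 2 * τ - t) hδ (rho_ge δ (y k) x)
  rwa [abs_neg] at this

theorem fftt_bound (hτ : 0 < τ) (hδ : 0 < δ) {t : ℝ} (ht : t ∈ Icc 0 τ) (x : R3) :
    |fftt S y τ δ t x| ≤ (1 / δ ^ 2) / c0 τ δ * ff S y τ δ t x := by
  refine sum_bound fun k _ => ?_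
  refine (abs_add_le _ _).trans ?_
  exact term_bound (c0_pos τ δ) (by positivity) (w2_bound hδ (rho_ge δ _ _))
    (w2_bound hδ (rho_ge δ _ _))
    (wG_lower' hτ hδ (by linarith [ht.2]) _ _) (wG_lower' hτ hδ (by linarith [ht.1]) _ _)

theorem ffttt_bound (hτ : 0 < τ) (hδ : 0 < δ) {t : ℝ} (ht : t ∈ Icc 0 τ) (x : R3) :
    |ffttt S y τ δ t x| ≤ (10 / δ ^ 3) / c0 τ δ * ff S y τ δ t x := by
  refine sum_bound fun k _ => ?_
  refine (abs_sub _ _).trans ?_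
  exact term_bound (c0_pos τ δ) (by positivity) (w3_bound hδ (rho_ge δ _ _))
    (w3_bound hδ (rho_ge δ _ _))
    (wG_lower' hτ hδ (by linarith [ht.2]) _ _) (wG_lower' hτ hδ (by linarith [ht.1]) _ _)

theorem fft_end (x : R3) : fft S y τ δ τ x = 0 := by
  unfold fft
  refine Finset.sum_eq_zero fun k _ => ?_
  have : 2 * τ - τ = τ := by ring
  rw [this]; ring

end family

variable {V : Type*} [NormedAddCommGroup V] [InnerProductSpace ℂ V] [CompleteSpace V]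
variable {A : Fin 3 → R3 → ℝ} {b : Fin 3 → Fin 3 → R3 → ℝ}

/-- The evolution inequality. -/
theorem evol_nuclei (h : WeakField A b) (C : Cliff V) (m : ℝ)
    {P : Lp V 2 (volume : Measure R3) →L[ℂ] Lp V 2 (volume : Measure R3)}
    (hP : PosSpec (Adj (T0 C m A)) P) {ι : Type*} {S : Finset ι} (hS : S.Nonempty) (y : ι → R3)
    {τ δ ε : ℝ} (hτ : 0 < τ) (hδ : 0 < δ) (hε : 0 < ε) (hε1 : ε ≤ 1)
    {ψ g : Lp V 2 (volume : Measure R3)} (hψ : (ψ, g) ∈ Adj (T0 C m A)) (hPψ : P ψ = ψ) :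
    BM (fun x => -(5 / 4 * (1 - ε) * (fft S y τ δ 0 x / ff S y τ δ 0 x))) ∧
    ∫ x, -(5 / 4 * (1 - ε) * (fft S y τ δ 0 x / ff S y τ δ 0 x)) * ‖ψ x‖ ^ 2 ≤
      (⟪ψ, g⟫_ℂ).re + (∫ x, curlN b x ^ 2) ^ 2 / (500 * ε ^ 3) * τ * ‖ψ‖ ^ 2 := by
  obtain ⟨κ, hκ⟩ : ∃ κ, κ = 5 / 4 * (1 - ε) := ⟨_, rfl⟩
  have hκ0 : 0 ≤ κ := by rw [hκ]; nlinarith
  let X : ℝ → R3 → ℝ := fun t x => -(5 / 4 * (1 - ε) * (fft S y τ δ t x / ff S y τ δ t x))
  let X' : ℝ → R3 → ℝ := fun t x => -(5 / 4 * (1 - ε) * (fftt S y τ δ t x / ff S y τ δ t x -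
    (fft S y τ δ t x / ff S y τ δ t x) ^ 2))
  have hrb := fun x => ratio_bounds (F := fun t => ff S y τ δ t x)
    (F1 := fun t => fft S y τ δ t x) (F2 := fun t => fftt S y τ δ t x)
    (F3 := fun t => ffttt S y τ δ t x) (τ := τ) (fun t => ff_pos hS hδ t x)
    (fun t => dt_ff hδ t x) (fun t => dt_fft hδ t x) (fun t => dt_fftt hδ t x)
    (fun t ht => fft_bound hτ hδ ht x) (fun t ht => fftt_bound hτ hδ ht x)
    (fun t ht => ffttt_bound hτ hδ ht x)
  have hc0 := c0_pos τ δ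
  obtain ⟨M1, hM1⟩ : ∃ M, M = (1 / δ) / c0 τ δ := ⟨_, rfl⟩
  obtain ⟨M2, hM2⟩ : ∃ M, M = (1 / δ ^ 2) / c0 τ δ := ⟨_, rfl⟩
  obtain ⟨M3, hM3⟩ : ∃ M, M = (10 / δ ^ 3) / c0 τ δ := ⟨_, rfl⟩
  have p1 : 0 ≤ M1 := by rw [hM1]; positivity
  have p2 : 0 ≤ M2 := by rw [hM2]; positivity
  have p3 : 0 ≤ M3 := by rw [hM3]; positivity
  rw [← hM1, ← hM2, ← hM3] at hrb
  have hcX : ∀ t, Continuous (X t) := fun t =>
    (continuous_const.mul ((wdata hS hδ y τ t).cft.div (wdata hS hδ y τ t).diff.continuous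
      fun x => ((wdata hS hδ y τ t).pos x).ne')).neg
  have hcX' : ∀ t, Continuous (X' t) := fun t =>
    (continuous_const.mul (((wdata hS hδ y τ t).cftt.div (wdata hS hδ y τ t).diff.continuous
      fun x => ((wdata hS hδ y τ t).pos x).ne').sub
      (((wdata hS hδ y τ t).cft.div (wdata hS hδ y τ t).diff.continuous
      fun x => ((wdata hS hδ y τ t).pos x).ne').pow 2))).neg
  have hBX : ∀ t ∈ Icc 0 τ, BM (X t) := by
    intro t ht
    refine BM.of_cont (hcX t) (C := κ * M1) fun x => ?_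
    change |-(5 / 4 * (1 - ε) * (fft S y τ δ t x / ff S y τ δ t x))| ≤ _
    rw [abs_neg, ← hκ, abs_mul, abs_of_nonneg hκ0]
    exact mul_le_mul_of_nonneg_left ((hrb x).1 t ht) hκ0
  have hBX' : ∀ t ∈ Icc 0 τ, BM (X' t) := by
    intro t ht
    refine BM.of_cont (hcX' t) (C := κ * (M2 + M1 ^ 2)) fun x => ?_
    change |-(5 / 4 * (1 - ε) * (fftt S y τ δ t x / ff S y τ δ t x -
      (fft S y τ δ t x / ff S y τ δ t x) ^ 2))| ≤ _
    rw [abs_neg, ← hκ, abs_mul, abs_of_nonneg hκ0]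
    exact mul_le_mul_of_nonneg_left ((hrb x).2.1 t ht) hκ0
  have h0τ : (0 : ℝ) ∈ Icc 0 τ := ⟨le_rfl, hτ.le⟩
  refine ⟨hBX 0 h0τ, ?_⟩
  obtain ⟨K1, hK1⟩ : ∃ K, K = κ * (M2 + M1 ^ 2) := ⟨_, rfl⟩
  obtain ⟨K2, hK2⟩ : ∃ K, K = κ * (M3 + M2 * M1 + 2 * M1 * (M2 + M1 ^ 2)) := ⟨_, rfl⟩
  have q1 : 0 ≤ K1 := by rw [hK1]; positivity
  have q2 : 0 ≤ K2 := by rw [hK2]; positivity
  have hlip : ∀ s ∈ Icc 0 τ, ∀ t ∈ Icc 0 τ, ∀ x, |X s x - X t x| ≤ K1 * |s - t| := by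
    intro s hs t ht x
    have e : X s x - X t x = -κ * (fft S y τ δ s x / ff S y τ δ s x -
      fft S y τ δ t x / ff S y τ δ t x) := by
      change -(5 / 4 * (1 - ε) * _) - -(5 / 4 * (1 - ε) * _) = _
      rw [hκ]; ring
    rw [e, abs_mul, abs_neg, abs_of_nonneg hκ0, hK1, mul_assoc]
    exact mul_le_mul_of_nonneg_left ((hrb x).2.2.1 s hs t ht) hκ0
  have htay : ∀ s ∈ Icc 0 τ, ∀ t ∈ Icc 0 τ, ∀ x, |X s x - X t x - (s - t) * X' t x| ≤
      K2 * (s - t) ^ 2 := by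
    intro s hs t ht x
    have e : X s x - X t x - (s - t) * X' t x = -κ * (fft S y τ δ s x / ff S y τ δ s x -
      fft S y τ δ t x / ff S y τ δ t x - (s - t) * (fftt S y τ δ t x / ff S y τ δ t x -
        (fft S y τ δ t x / ff S y τ δ t x) ^ 2)) := by
      change -(5 / 4 * (1 - ε) * _) - -(5 / 4 * (1 - ε) * _) - (s - t) *
        (-(5 / 4 * (1 - ε) * _)) = _
      rw [hκ]; ring
    rw [e, abs_mul, abs_neg, abs_of_nonneg hκ0, hK2, mul_assoc]
    exact mul_le_mul_of_nonneg_left ((hrb x).2.2.2 s hs t ht) hκ0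
  have hc := core_T0 h C m
  have key := hP.evolution' hc hψ hPψ (τ := τ) (c := (∫ x, curlN b x ^ 2) ^ 2 / (500 * ε ^ 3))
    (C := K1 + K2) hτ (by positivity) (by positivity)
    (X := fun t => mulOp V (X t)) (X' := fun t => mulOp V (X' t))
    (fun t u v => mulOp_symm (X t) u v)
    (by
      intro t ht s hs
      have ht' := Ioo_subset_Icc_self ht
      have hs' := Ioo_subset_Icc_self hs
      refine norm_comb_le (hBX s hs') (hBX t ht') (hBX' t ht') (s - t) (by positivity)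
        fun x => (htay s hs' t ht' x).trans ?_
      exact mul_le_mul_of_nonneg_right (by linarith) (sq_nonneg _))
    (by
      intro s hs t ht
      refine norm_diff_le (hBX s hs) (hBX t ht) (by positivity)
        fun x => (hlip s hs t ht x).trans ?_
      exact mul_le_mul_of_nonneg_right (by linarith) (abs_nonneg _))
    (by
      have e : X τ = fun _ => 0 := by
        funext x
        change -(5 / 4 * (1 - ε) * (fft S y τ δ τ x / ff S y τ δ τ x)) = 0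
        rw [fft_end]; ring
      rw [e]; exact mulOp_zero)
    (by
      rintro t ht q ⟨φ, hφ, h1, h2⟩
      have ht' := Ioo_subset_Icc_self ht
      have hst := static_ineq h C m hφ (wdata hS hδ y τ t) hε hε1
      have e1 : ‖q.1‖ ^ 2 = ∫ x, ‖φ x‖ ^ 2 := by
        rw [norm_sq_L2]
        refine integral_congr_ae ?_
        filter_upwards [h1] with x a1
        rw [a1]
      have e2 : ‖q.2‖ ^ 2 = ∫ x, ‖dir C m A φ x‖ ^ 2 := by
        rw [norm_sq_L2]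
        refine integral_congr_ae ?_
        filter_upwards [h2] with x a1
        rw [a1]
      have e3 : (⟪q.1, mulOp V (X' t) q.1⟫_ℂ).re = ∫ x, X' t x * ‖φ x‖ ^ 2 := by
        rw [re_inner_mulOp (hBX' t ht')]
        refine integral_congr_ae ?_
        filter_upwards [h1] with x a1
        rw [a1, rp_self]
      have e4 : (⟪q.1, mulOp V (X t) q.2⟫_ℂ).re = ∫ x, X t x * rp (φ x) (dir C m A φ x) := by
        rw [re_inner_mulOp (hBX t ht')]
        refine integral_congr_ae ?_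
        filter_upwards [h1, h2] with x a1 a2
        rw [a1, a2]
      rw [e1, e2]
      change _ ≤ _ + (⟪q.1, mulOp V (X' t) q.1⟫_ℂ).re - 2 * (⟪q.1, mulOp V (X t) q.2⟫_ℂ).re
      rw [e3, e4]
      exact hst)
  refine le_trans (le_of_eq ?_) key
  change _ = (⟪ψ, mulOp V (X 0) ψ⟫_ℂ).re
  rw [re_inner_mulOp (hBX 0 h0τ)]
  refine integral_congr_ae (Eventually.of_forall fun x => ?_)
  simp only [rp_self]
  rfl

end Run7.h108
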