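import Pool.Agent.Run7.h108.Semigroup

set_option autoImplicit false

open scoped InnerProductSpace Topology
open Filter

namespace Run7.h108

variable {E : Type*} [NormedAddCommGroup E] [InnerProductSpace ℂ E] [CompleteSpace E]
variable {T0 : Submodule ℂ (E × E)} {P : E →L[ℂ] E}

/-- The resolvent is a positive contraction. -/
theorem PosSpec.exists_S' (h : PosSpec (Adj T0) P) (hc : Core T0) :
    ∃ S : E →L[ℂ] E, 0 ≤ S ∧ ‖S‖ ≤ 1 ∧ (∀ x, P (S x) = S x) ∧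
      (∀ x, (S x, P x - S x) ∈ Adj T0) := by
  obtain ⟨S, h1, h2, h3⟩ := h.exists_S hc
  have hsymm : ∀ x y, ⟪S x, y⟫_ℂ = ⟪x, S y⟫_ℂ := by
    intro x y
    have k := h.symm (h2 x) (h2 y)
    rw [inner_sub_right, inner_sub_left] at k
    have k1 : ⟪S x, P y⟫_ℂ = ⟪S x, y⟫_ℂ := by rw [← h.sa, h1]
    have k2 : ⟪P x, S y⟫_ℂ = ⟪x, S y⟫_ℂ := by rw [h.sa, h1]
    rw [k1, k2] at k
    linear_combination k
  refine ⟨S, ?_, ?_, h1, h2⟩
  · rw [ContinuousLinearMap.nonneg_iff_isPositive]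
    rw [ContinuousLinearMap.isPositive_def]
    refine ⟨hsymm, fun x => ?_⟩
    have k3 := h.re_nonneg (h2 x) (h1 x)
    rw [inner_sub_right, Complex.sub_re, re_self] at k3
    have k1 : ⟪S x, P x⟫_ℂ = ⟪S x, x⟫_ℂ := by rw [← h.sa, h1]
    rw [k1] at k3
    change 0 ≤ (⟪S x, x⟫_ℂ).re
    nlinarith [sq_nonneg ‖S x‖]
  · exact ContinuousLinearMap.opNorm_le_bound _ zero_le_one fun x => by simpa using h3 x

/-- data of the backwards-in-energy orbit of a positive energy state -/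
theorem PosSpec.exists_orbit (h : PosSpec (Adj T0) P) (hc : Core T0) {ψ g : E}
    (hψ : (ψ, g) ∈ Adj T0) (hP : P ψ = ψ) :
    ∃ U G : ℝ → E, (∀ t, 0 < t → (U t, G t) ∈ Adj T0 ∧ P (U t) = U t ∧
        HasDerivAt U (-(G t)) t ∧
        HasDerivAt (fun t => (⟪U t, G t⟫_ℂ).re) (-2 * ‖G t‖ ^ 2) t ∧
        ‖U t‖ ≤ ‖ψ‖ ∧ (⟪U t, G t⟫_ℂ).re ≤ (⟪ψ, g⟫_ℂ).re) ∧
      Tendsto U (𝓝[>] 0) (𝓝 ψ) := by
  obtain ⟨S, hS0, hS1, hS2, hS3⟩ := h.exists_S' hc
  have hg : P g = g := h.snd_mem hc hψ hP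
  obtain ⟨x, hx⟩ : ∃ x, x = ψ + g := ⟨_, rfl⟩
  have hPx : P x = x := by rw [hx, map_add, hP, hg]
  have hSx : S x = ψ := by
    refine h.resolvent_unique (x := x) (hS2 x) ?_ hP ?_
    · have := hS3 x; rwa [hPx] at this
    · rw [hx]; simpa using hψ
  have hxS : x - S x = g := by rw [hSx, hx]; abel
  -- membership facts
  have hmul : ∀ k t, 0 < t → S (XE S (k + 1) t ψ) = XE S k t ψ := by
    intro k t ht
    have := XE_mul hS0 k ht
    rw [← this]; rfl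
  have hPX : ∀ k t, 0 < t → P (XE S k t ψ) = XE S k t ψ := by
    intro k t ht
    rw [← hmul k t ht, hS2]
  have hA : ∀ k t, 0 < t → (XE S k t ψ, XE S (k + 1) t ψ - XE S k t ψ) ∈ Adj T0 := by
    intro k t ht
    have := hS3 (XE S (k + 1) t ψ)
    rwa [hPX (k + 1) t ht, hmul k t ht] at this
  have hder : ∀ k t, 0 < t → HasDerivAt (fun t => XE S k t ψ)
      (-(XE S (k + 1) t ψ - XE S k t ψ)) t := by
    intro k t ht
    have h1 := ((ContinuousLinearMap.apply ℂ E ψ).restrictScalars ℝ).hasFDerivAt.comp_hasDerivAt t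
      (hasDerivAt_XE hS0 hS1 k ht)
    exact h1
  refine ⟨fun t => XE S 0 t ψ, fun t => XE S 1 t ψ - XE S 0 t ψ, ?_, ?_⟩
  · intro t ht
    have m0 := hA 0 t ht
    have m1 := hA 1 t ht
    have m2 : (XE S 1 t ψ - XE S 0 t ψ, XE S 2 t ψ - XE S 1 t ψ -
        (XE S 1 t ψ - XE S 0 t ψ)) ∈ Adj T0 := by
      have := (Adj T0).sub_mem m1 m0
      simpa using this
    have d0 := hder 0 t ht
    have d1 := hder 1 t ht
    refine ⟨m0, hPX 0 t ht, d0, ?_, ?_, ?_⟩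
    · have d2 : HasDerivAt (fun t => XE S 1 t ψ - XE S 0 t ψ)
          (-(XE S 2 t ψ - XE S 1 t ψ - (XE S 1 t ψ - XE S 0 t ψ))) t := by
        have := d1.sub d0
        refine this.congr_deriv ?_
        change -(XE S 2 t ψ - XE S 1 t ψ) - -(XE S 1 t ψ - XE S 0 t ψ) =
          -(XE S 2 t ψ - XE S 1 t ψ - (XE S 1 t ψ - XE S 0 t ψ))
        abel
      have d3 := d0.inner ℂ d2
      have d4 := Complex.reCLM.hasFDerivAt.comp_hasDerivAt t d3
      have e1 := h.symm m0 m2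
      refine d4.congr_deriv ?_
      have e2 : ⟪XE S 0 t ψ, XE S 2 t ψ - XE S 1 t ψ - (XE S 1 t ψ - XE S 0 t ψ)⟫_ℂ =
        ⟪XE S 1 t ψ - XE S 0 t ψ, XE S 1 t ψ - XE S 0 t ψ⟫_ℂ := e1
      change (⟪XE S 0 t ψ, -(XE S 2 t ψ - XE S 1 t ψ - (XE S 1 t ψ - XE S 0 t ψ))⟫_ℂ +
        ⟪-(XE S 1 t ψ - XE S 0 t ψ), XE S 1 t ψ - XE S 0 t ψ⟫_ℂ).re =
        -2 * ‖XE S 1 t ψ - XE S 0 t ψ‖ ^ 2
      rw [inner_neg_right, inner_neg_left, e2, Complex.add_re, Complex.neg_re, re_self]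
      ring
    · have := norm_XE_zero_le hS0 hS1 ht.le
      exact (ContinuousLinearMap.le_of_opNorm_le _ this ψ).trans (by simp)
    · have := energy_XE hS0 hS1 ht x
      rw [hSx] at this
      rw [← hxS, hSx]
      exact this
  · have hb : ∀ᶠ t in 𝓝[>] (0 : ℝ), ‖XE S 0 t ψ - ψ‖ ≤ t * ‖x‖ := by
      filter_upwards [self_mem_nhdsWithin] with t ht
      have := XE_zero_sub hS0 hS1 (Set.mem_Ioi.1 ht) x
      rwa [hSx] at this
    have hlim : Tendsto (fun t : ℝ => t * ‖x‖) (𝓝[>] 0) (𝓝 0) := by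
      have : Tendsto (fun t : ℝ => t * ‖x‖) (𝓝 0) (𝓝 (0 * ‖x‖)) :=
        (continuous_id.mul continuous_const).tendsto 0
      rw [zero_mul] at this
      exact this.mono_left nhdsWithin_le_nhds
    rw [tendsto_iff_norm_sub_tendsto_zero]
    exact squeeze_zero' (Eventually.of_forall fun t => norm_nonneg _) hb hlim

end Run7.h108
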