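import Mathlib

set_option autoImplicit false

open scoped Topology
open Filter

namespace Run7.h108

/-- `(1/s)^k exp(-t(1/s-1))` for `s > 0`, zero otherwise. -/
noncomputable def Ek (k : ℕ) (t s : ℝ) : ℝ :=
  if 0 < s then (1 / s) ^ k * Real.exp (-t * (1 / s - 1)) else 0

theorem Ek_pos {k : ℕ} {t s : ℝ} (hs : 0 < s) :
    Ek k t s = (1 / s) ^ k * Real.exp (-t * (1 / s - 1)) := if_pos hs

theorem Ek_nonpos {k : ℕ} {t s : ℝ} (hs : s ≤ 0) : Ek k t s = 0 := if_neg (not_lt.2 hs)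

theorem mul_Ek (k : ℕ) (t s : ℝ) : s * Ek (k + 1) t s = Ek k t s := by
  by_cases hs : 0 < s
  · rw [Ek_pos hs, Ek_pos hs, pow_succ]
    field_simp
  · rw [Ek_nonpos (not_lt.1 hs), Ek_nonpos (not_lt.1 hs), mul_zero]

theorem Ek_nonneg (k : ℕ) (t s : ℝ) : 0 ≤ Ek k t s := by
  by_cases hs : 0 < s
  · rw [Ek_pos hs]; positivity
  · rw [Ek_nonpos (not_lt.1 hs)]

theorem continuous_Ek (k : ℕ) {t : ℝ} (ht : 0 < t) : Continuous (Ek k t) := by
  rw [continuous_iff_continuousAt]
  intro s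
  rcases lt_trichotomy s 0 with hs | hs | hs
  · have : Ek k t =ᶠ[𝓝 s] fun _ => 0 := by
      filter_upwards [Iio_mem_nhds hs] with x hx
      exact Ek_nonpos (le_of_lt hx)
    exact (continuousAt_const).congr this.symm
  · subst hs
    rw [ContinuousAt, Ek_nonpos le_rfl]
    have h1 : Tendsto (fun y : ℝ => y ^ k * Real.exp (-t * (y - 1))) atTop (𝓝 0) := by
      have h2 := Real.tendsto_pow_mul_exp_neg_atTop_nhds_zero k
      have h3 : Tendsto (fun y : ℝ => t * y) atTop atTop := tendsto_id.const_mul_atTop ht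
      have h4 := (h2.comp h3).const_mul ((1 / t) ^ k * Real.exp t)
      rw [mul_zero] at h4
      refine h4.congr fun y => ?_
      simp only [Function.comp]
      have : Real.exp (-t * (y - 1)) = Real.exp (-(t * y)) * Real.exp t := by
        rw [← Real.exp_add]; congr 1; ring
      rw [this, mul_pow]
      have ht' : (1 / t) ^ k * t ^ k = 1 := by
        rw [← mul_pow, one_div_mul_cancel ht.ne', one_pow]
      linear_combination (y ^ k * Real.exp (-(t * y)) * Real.exp t) * ht'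
    rw [Metric.tendsto_nhds_nhds]
    intro ε hε
    rw [Metric.tendsto_atTop] at h1
    obtain ⟨N, hN⟩ := h1 ε hε
    refine ⟨1 / (max N 1), by positivity, fun x hx => ?_⟩
    rw [Real.dist_eq, sub_zero] at *
    by_cases h0 : 0 < x
    · rw [Ek_pos h0]
      have h5 : N ≤ 1 / x := by
        have h6 : x < 1 / max N 1 := lt_of_le_of_lt (le_abs_self x) hx
        have h7 : max N 1 < 1 / x := by
          rw [lt_div_iff₀ h0]
          rw [lt_div_iff₀ (by positivity)] at h6
          linarith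
        exact (le_max_left _ _).trans h7.le
      have := hN _ h5
      rwa [Real.dist_eq, sub_zero] at this
    · rw [Ek_nonpos (not_lt.1 h0)]; simpa using hε
  · have h0 : Ek k t =ᶠ[𝓝 s] fun s => (1 / s) ^ k * Real.exp (-t * (1 / s - 1)) := by
      filter_upwards [Ioi_mem_nhds hs] with x hx
      exact Ek_pos hx
    refine ContinuousAt.congr ?_ h0.symm
    have : s ≠ 0 := hs.ne'
    fun_prop (disch := assumption)

theorem Ek_zero_le {t s : ℝ} (ht : 0 ≤ t) (hs1 : s ≤ 1) : Ek 0 t s ≤ 1 := by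
  by_cases hs : 0 < s
  · rw [Ek_pos hs, pow_zero, one_mul]
    rw [Real.exp_le_one_iff]
    have : 1 ≤ 1 / s := by rw [le_div_iff₀ hs]; linarith
    nlinarith
  · rw [Ek_nonpos (not_lt.1 hs)]; norm_num

theorem exp_taylor (x : ℝ) : |Real.exp x - 1 - x| ≤ x ^ 2 * Real.exp |x| := by
  have h := Complex.norm_exp_sub_sum_le_norm_mul_exp (x : ℂ) 2
  have e1 : Complex.exp (x : ℂ) - ∑ m ∈ Finset.range 2, (x : ℂ) ^ m / (m.factorial : ℂ) =
      ((Real.exp x - 1 - x : ℝ) : ℂ) := by
    simp [Finset.sum_range_succ]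
    ring
  rw [e1, Complex.norm_real, Complex.norm_real, Real.norm_eq_abs, Real.norm_eq_abs, sq_abs] at h
  exact h

/-- Quadratic Taylor bound in time. -/
theorem Ek_taylor (k : ℕ) {t : ℝ} (ht : 0 < t) : ∃ C : ℝ, 0 ≤ C ∧ ∀ h : ℝ, |h| ≤ t / 2 →
    ∀ s ∈ Set.Icc (0 : ℝ) 1,
      |Ek k (t + h) s - Ek k t s + h * (Ek (k + 1) t s - Ek k t s)| ≤ C * h ^ 2 := by
  obtain ⟨C, hC⟩ := (isCompact_Icc (a := (0 : ℝ)) (b := 1)).exists_bound_of_continuousOn
    (continuous_Ek (k + 2) (half_pos ht)).continuousOn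
  refine ⟨max C 0, le_max_right _ _, fun h hh s hs => ?_⟩
  by_cases h0 : 0 < s
  · rw [Ek_pos h0, Ek_pos h0, Ek_pos h0]
    obtain ⟨y, hy⟩ : ∃ y, y = 1 / s - 1 := ⟨_, rfl⟩
    have hy0 : 0 ≤ y := by
      rw [hy, sub_nonneg, le_div_iff₀ h0]; linarith [hs.2]
    have h1s : 1 / s = 1 + y := by rw [hy]; ring
    have e1 : (1 / s) ^ k * Real.exp (-(t + h) * (1 / s - 1)) -
        (1 / s) ^ k * Real.exp (-t * (1 / s - 1)) +
        h * ((1 / s) ^ (k + 1) * Real.exp (-t * (1 / s - 1)) -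
          (1 / s) ^ k * Real.exp (-t * (1 / s - 1))) =
        (1 + y) ^ k * Real.exp (-t * y) * (Real.exp (-h * y) - 1 - (-h * y)) := by
      rw [← hy, h1s]
      have : Real.exp (-(t + h) * y) = Real.exp (-t * y) * Real.exp (-h * y) := by
        rw [← Real.exp_add]; congr 1; ring
      rw [this]; ring
    rw [e1, abs_mul, abs_of_nonneg (by positivity : 0 ≤ (1 + y) ^ k * Real.exp (-t * y))]
    have h2 := exp_taylor (-h * y)
    have h3 : Real.exp |-h * y| ≤ Real.exp (t / 2 * y) := by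
      apply Real.exp_le_exp.2
      rw [abs_mul, abs_neg, abs_of_nonneg hy0]
      exact mul_le_mul_of_nonneg_right hh hy0
    have h4 : (1 + y) ^ k * Real.exp (-t * y) * |Real.exp (-h * y) - 1 - -h * y| ≤
        (1 + y) ^ k * Real.exp (-t * y) * ((-h * y) ^ 2 * Real.exp (t / 2 * y)) :=
      mul_le_mul_of_nonneg_left
        (h2.trans (mul_le_mul_of_nonneg_left h3 (by positivity))) (by positivity)
    refine h4.trans ?_
    have h5 := hC s hs
    rw [Ek_pos h0, h1s, Real.norm_eq_abs, abs_of_nonneg (by positivity)] at h5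
    have e2 : (1 + y) ^ k * Real.exp (-t * y) * ((-h * y) ^ 2 * Real.exp (t / 2 * y)) =
        (y ^ 2 * (1 + y) ^ k * Real.exp (-(t / 2) * (1 + y - 1))) * h ^ 2 := by
      have : Real.exp (-(t / 2) * (1 + y - 1)) = Real.exp (-t * y) * Real.exp (t / 2 * y) := by
        rw [← Real.exp_add]; congr 1; ring
      rw [this]; ring
    rw [e2]
    refine mul_le_mul_of_nonneg_right ?_ (sq_nonneg _)
    refine le_trans ?_ (h5.trans (le_max_left _ _))
    refine mul_le_mul_of_nonneg_right ?_ (Real.exp_pos _).le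
    rw [pow_add, mul_comm]
    refine mul_le_mul_of_nonneg_left ?_ (by positivity)
    nlinarith
  · rw [Ek_nonpos (not_lt.1 h0), Ek_nonpos (not_lt.1 h0), Ek_nonpos (not_lt.1 h0)]
    simp
    positivity

end Run7.h108
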