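import Pool.Agent.Run7.h108.Calc

/-!
# Vector fields with square integrable gradient and the basic identity
-/

set_option autoImplicit false

open scoped InnerProductSpace ContDiff
open MeasureTheory

namespace Run7.h108

theorem iadd {f g : R3 → ℝ} (hf : Integrable f) (hg : Integrable g) :
    Integrable (fun x => f x + g x) := hf.add hg

theorem isub {f g : R3 → ℝ} (hf : Integrable f) (hg : Integrable g) :
    Integrable (fun x => f x - g x) := hf.sub hg

/-- `A` is locally square integrable and has the square integrable weak gradient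
`b j k = ∂ⱼ Aₖ`. -/
structure WeakField (A : Fin 3 → R3 → ℝ) (b : Fin 3 → Fin 3 → R3 → ℝ) : Prop where
  meas : ∀ k, AEStronglyMeasurable (A k) volume
  loc : ∀ k, LocallyIntegrable (fun x => A k x ^ 2) volume
  grad : ∀ j k, MemLp (b j k) 2 volume
  weak : ∀ (j k : Fin 3) (η : R3 → ℝ), IsTest η →
    ∫ x, A k x * pd j η x = -∫ x, b j k x * η x

/-- length of the curl of the field with gradient `b` -/
noncomputable def curlN (b : Fin 3 → Fin 3 → R3 → ℝ) (x : R3) : ℝ :=
  Real.sqrt ((b 0 1 x - b 1 0 x) ^ 2 + (b 0 2 x - b 2 0 x) ^ 2 + (b 1 2 x - b 2 1 x) ^ 2)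

section scalar

variable {A : Fin 3 → R3 → ℝ} {b : Fin 3 → Fin 3 → R3 → ℝ}

theorem WeakField.locInt (h : WeakField A b) (k : Fin 3) : LocallyIntegrable (A k) volume := by
  have h1 : LocallyIntegrable (fun x => A k x ^ 2 + (fun _ : R3 => (1 : ℝ)) x) volume :=
    (h.loc k).add (continuous_const.locallyIntegrable)
  refine h1.mono (h.meas k) (Filter.Eventually.of_forall fun x => ?_)
  rw [Real.norm_eq_abs, Real.norm_eq_abs, abs_of_nonneg (by positivity : 0 ≤ A k x ^ 2 + 1)]
  nlinarith [sq_abs (A k x), sq_nonneg (|A k x| - 1), abs_nonneg (A k x)]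

theorem WeakField.integrable_mul (h : WeakField A b) (k : Fin 3) {u : R3 → ℝ}
    (hu : Continuous u) (hs : HasCompactSupport u) : Integrable (fun x => A k x * u x) := by
  have := (h.locInt k).integrable_smul_left_of_hasCompactSupport hu hs
  refine this.congr (Filter.Eventually.of_forall fun x => ?_)
  simp [mul_comm]

theorem WeakField.integrable_sq_mul (h : WeakField A b) (k : Fin 3) {u : R3 → ℝ}
    (hu : Continuous u) (hs : HasCompactSupport u) : Integrable (fun x => A k x ^ 2 * u x) := by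
  have := (h.loc k).integrable_smul_left_of_hasCompactSupport hu hs
  refine this.congr (Filter.Eventually.of_forall fun x => ?_)
  simp [mul_comm]

theorem memLp_of_cont {F : Type*} [NormedAddCommGroup F] {u : R3 → F} (hu : Continuous u)
    (hs : HasCompactSupport u) (p : ENNReal) : MemLp u p volume :=
  hu.memLp_of_hasCompactSupport hs

theorem WeakField.integrable_b_mul (h : WeakField A b) (j k : Fin 3) {u : R3 → ℝ}
    (hu : Continuous u) (hs : HasCompactSupport u) : Integrable (fun x => b j k x * u x) :=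
  (h.grad j k).integrable_mul (memLp_of_cont hu hs 2)

theorem WeakField.curl_meas (h : WeakField A b) : AEStronglyMeasurable (curlN b) volume := by
  have m := fun j k => (h.grad j k).1
  have h1 : AEStronglyMeasurable (fun x => (b 0 1 x - b 1 0 x) ^ 2 + (b 0 2 x - b 2 0 x) ^ 2 +
      (b 1 2 x - b 2 1 x) ^ 2) volume :=
    ((((m 0 1).sub (m 1 0)).pow 2).add (((m 0 2).sub (m 2 0)).pow 2)).add
      (((m 1 2).sub (m 2 1)).pow 2)
  exact Real.continuous_sqrt.comp_aestronglyMeasurable h1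

theorem curlN_sq (x : R3) : curlN b x ^ 2 = (b 0 1 x - b 1 0 x) ^ 2 + (b 0 2 x - b 2 0 x) ^ 2 +
    (b 1 2 x - b 2 1 x) ^ 2 := by
  unfold curlN
  rw [Real.sq_sqrt (by positivity)]

theorem WeakField.curl_sq_integrable (h : WeakField A b) :
    Integrable (fun x => curlN b x ^ 2) volume := by
  have m := fun j k => h.grad j k
  have h1 : ∀ j k : Fin 3, Integrable (fun x => (b j k x - b k j x) ^ 2) volume := fun j k =>
    ((m j k).sub (m k j)).integrable_sq
  refine (((h1 0 1).add (h1 0 2)).add (h1 1 2)).congr (Filter.Eventually.of_forall fun x => ?_)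
  simp only [Pi.add_apply]
  rw [curlN_sq]

theorem WeakField.curl_memLp (h : WeakField A b) : MemLp (curlN b) 2 volume := by
  rw [memLp_two_iff_integrable_sq h.curl_meas]
  exact h.curl_sq_integrable

end scalar

section spin

variable {V : Type*} [NormedAddCommGroup V] [InnerProductSpace ℂ V]
variable {A : Fin 3 → R3 → ℝ} {b : Fin 3 → Fin 3 → R3 → ℝ}

/-- covariant derivative -/
noncomputable def cov (A : Fin 3 → R3 → ℝ) (φ : R3 → V) (j : Fin 3) (x : R3) : V :=
  pd j φ x + (A j x : ℂ) • (Complex.I • φ x)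

/-- the Dirac operator on test functions -/
noncomputable def dir (C : Cliff V) (m : ℝ) (A : Fin 3 → R3 → ℝ) (φ : R3 → V) (x : R3) : V :=
  C.dpt m (φ x) (fun j => cov A φ j x)

theorem WeakField.memLp_smul (h : WeakField A b) (k : Fin 3) {u : R3 → V}
    (hu : Continuous u) (hs : HasCompactSupport u) :
    MemLp (fun x => (A k x : ℂ) • u x) 2 volume := by
  have hm : AEStronglyMeasurable (fun x => (A k x : ℂ) • u x) volume :=
    (Complex.continuous_ofReal.comp_aestronglyMeasurable (h.meas k)).smul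
      hu.aestronglyMeasurable
  rw [memLp_two_iff_integrable_sq_norm hm]
  have hs' : HasCompactSupport fun x => ‖u x‖ ^ 2 := by
    refine hs.mono fun x hx => ?_
    intro h'; apply hx
    have h'' : u x = 0 := h'
    simp [h'']
  refine (h.integrable_sq_mul k (u := fun x => ‖u x‖ ^ 2) (hu.norm.pow 2) hs').congr
    (Filter.Eventually.of_forall fun x => ?_)
  simp only [norm_smul, Complex.norm_real, Real.norm_eq_abs, mul_pow, sq_abs]

theorem WeakField.memLp_cov (h : WeakField A b) {φ : R3 → V} (hφ : IsTest φ) (j : Fin 3) :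
    MemLp (cov A φ j) 2 volume := by
  refine (memLp_of_cont (hφ.pd j).continuous (hφ.pd j).supp 2).add (h.memLp_smul j
    (hφ.continuous.const_smul _) ?_)
  exact hφ.supp.smul_left (f := fun _ => Complex.I)

theorem WeakField.memLp_dir (h : WeakField A b) (C : Cliff V) (m : ℝ) {φ : R3 → V}
    (hφ : IsTest φ) : MemLp (dir C m A φ) 2 volume := by
  have h1 : ∀ j, MemLp (fun x => C.al j (cov A φ j x)) 2 volume := fun j =>
    (C.al j).comp_memLp' (h.memLp_cov hφ j)
  have h2 : MemLp (fun x => C.be (φ x)) 2 volume :=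
    C.be.comp_memLp' (memLp_of_cont hφ.continuous hφ.supp 2)
  exact (((((h1 0).add (h1 1)).add (h1 2)).const_smul Complex.I).neg).add
    (h2.const_smul (m : ℂ))

/-- The basic identity, as an inequality. -/
theorem WeakField.dirac_sq (h : WeakField A b) (C : Cliff V) (m : ℝ) {φ : R3 → V}
    (hφ : IsTest φ) :
    ∫ x, (‖cov A φ 0 x‖ ^ 2 + ‖cov A φ 1 x‖ ^ 2 + ‖cov A φ 2 x‖ ^ 2 + m ^ 2 * ‖φ x‖ ^ 2) ≤
      (∫ x, ‖dir C m A φ x‖ ^ 2) + ∫ x, curlN b x * ‖φ x‖ ^ 2 := by
  -- the functions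
  have hH : ∀ j k, IsTest (fun x => rp (φ x) (C.HH j k (φ x))) := fun j k =>
    hφ.rp (((C.HH j k).restrictScalars ℝ).contDiff.comp hφ.smooth)
  have hpH : ∀ j k, j ≠ k → ∀ l x, pd l (fun x => rp (φ x) (C.HH j k (φ x))) x =
      2 * rp (pd l φ x) (C.HH j k (φ x)) := by
    intro j k hjk l x
    have e1 := pd_rp hφ.differentiable
      (((C.HH j k).restrictScalars ℝ).differentiable.comp hφ.differentiable) l x
    have e2 := pd_clm hφ.differentiable ((C.HH j k).restrictScalars ℝ) l x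
    have e3 : pd l (fun x => C.HH j k (φ x)) x = C.HH j k (pd l φ x) := e2
    have e4 : pd l (fun x => rp (φ x) (C.HH j k (φ x))) x = rp (pd l φ x) (C.HH j k (φ x)) +
      rp (φ x) (pd l (fun x => C.HH j k (φ x)) x) := e1
    rw [e4, e3, C.HH_symm hjk (φ x)]
    ring
  have hK : ∀ j, IsTest (fun x => rp (φ x) (C.KK j (φ x))) := fun j =>
    hφ.rp (((C.KK j).restrictScalars ℝ).contDiff.comp hφ.smooth)
  have hpK : ∀ j l x, pd l (fun x => rp (φ x) (C.KK j (φ x))) x =
      2 * rp (pd l φ x) (C.KK j (φ x)) := by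
    intro j l x
    have e1 := pd_rp hφ.differentiable
      (((C.KK j).restrictScalars ℝ).differentiable.comp hφ.differentiable) l x
    have e2 := pd_clm hφ.differentiable ((C.KK j).restrictScalars ℝ) l x
    have e3 : pd l (fun x => C.KK j (φ x)) x = C.KK j (pd l φ x) := e2
    have e4 : pd l (fun x => rp (φ x) (C.KK j (φ x))) x = rp (pd l φ x) (C.KK j (φ x)) +
      rp (φ x) (pd l (fun x => C.KK j (φ x)) x) := e1
    rw [e4, e3, C.KK_symm j (φ x)]
    ring
  -- mixed terms
  have hM : ∀ j k, IsTest (fun x => rp (φ x) (C.MM j k (pd k φ x))) ∧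
      IsTest (fun x => rp (φ x) (C.MM j k (pd j φ x))) := fun j k =>
    ⟨hφ.rp (((C.MM j k).restrictScalars ℝ).contDiff.comp (hφ.pd k).smooth),
      hφ.rp (((C.MM j k).restrictScalars ℝ).contDiff.comp (hφ.pd j).smooth)⟩
  have hpM : ∀ j k l n x, pd l (fun x => rp (φ x) (C.MM j k (pd n φ x))) x =
      rp (pd l φ x) (C.MM j k (pd n φ x)) + rp (φ x) (C.MM j k (pd l (pd n φ) x)) := by
    intro j k l n x
    have e1 := pd_rp hφ.differentiable
      (((C.MM j k).restrictScalars ℝ).differentiable.comp (hφ.pd n).differentiable) l x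
    have e2 := pd_clm (hφ.pd n).differentiable ((C.MM j k).restrictScalars ℝ) l x
    have e3 : pd l (fun x => C.MM j k (pd n φ x)) x = C.MM j k (pd l (pd n φ) x) := e2
    have e4 : pd l (fun x => rp (φ x) (C.MM j k (pd n φ x))) x =
      rp (pd l φ x) (C.MM j k (pd n φ x)) +
      rp (φ x) (pd l (fun x => C.MM j k (pd n φ x)) x) := e1
    rw [e4, e3]
  have hmix : ∀ j k, j ≠ k → (∀ x, 2 * rp (pd j φ x) (C.MM j k (pd k φ x)) =
      pd j (fun x => rp (φ x) (C.MM j k (pd k φ x))) x -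
      pd k (fun x => rp (φ x) (C.MM j k (pd j φ x))) x) := by
    intro j k hjk x
    rw [hpM, hpM, pd_comm hφ k j, C.MM_symm hjk (pd k φ x)]
    ring
  have imix : ∀ j k, j ≠ k → Integrable (fun x => 2 * rp (pd j φ x) (C.MM j k (pd k φ x))) ∧
      ∫ x, 2 * rp (pd j φ x) (C.MM j k (pd k φ x)) = 0 := by
    intro j k hjk
    have t1 := ((hM j k).1.pd j).integrable
    have t2 := ((hM j k).2.pd k).integrable
    have e : (fun x => 2 * rp (pd j φ x) (C.MM j k (pd k φ x))) = fun x =>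
      pd j (fun x => rp (φ x) (C.MM j k (pd k φ x))) x -
      pd k (fun x => rp (φ x) (C.MM j k (pd j φ x))) x := funext (hmix j k hjk)
    rw [e]
    refine ⟨t1.sub t2, ?_⟩
    rw [integral_sub t1 t2, (hM j k).1.integral_pd, (hM j k).2.integral_pd, sub_zero]
  have imass : ∀ j, Integrable (fun x => 2 * rp (pd j φ x) (C.KK j (φ x))) ∧
      ∫ x, 2 * rp (pd j φ x) (C.KK j (φ x)) = 0 := by
    intro j
    have e : (fun x => 2 * rp (pd j φ x) (C.KK j (φ x))) =
      pd j (fun x => rp (φ x) (C.KK j (φ x))) := funext fun x => (hpK j j x).symm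
    rw [e]
    exact ⟨((hK j).pd j).integrable, (hK j).integral_pd j⟩
  have iA : ∀ j k, j ≠ k → ∀ l n, Integrable (fun x => A n x * (2 * rp (pd l φ x)
      (C.HH j k (φ x)))) ∧ ∫ x, A n x * (2 * rp (pd l φ x) (C.HH j k (φ x))) =
      -∫ x, b l n x * rp (φ x) (C.HH j k (φ x)) := by
    intro j k hjk l n
    have e : (fun x => A n x * (2 * rp (pd l φ x) (C.HH j k (φ x)))) =
      fun x => A n x * pd l (fun x => rp (φ x) (C.HH j k (φ x))) x :=
      funext fun x => by rw [hpH j k hjk]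
    rw [e]
    exact ⟨h.integrable_mul n ((hH j k).pd l).continuous ((hH j k).pd l).supp,
      h.weak l n _ (hH j k)⟩
  have ib : ∀ j k l n, Integrable (fun x => b l n x * rp (φ x) (C.HH j k (φ x))) :=
    fun j k l n => h.integrable_b_mul l n (hH j k).continuous (hH j k).supp
  -- pointwise identity
  have hpt : ∀ x, ‖dir C m A φ x‖ ^ 2 = _ := fun x =>
    C.norm_sq_dpt m (φ x) (fun j => pd j φ x) (fun j => A j x) (fun j => cov A φ j x)
      (fun j => rfl)
  have n01 : (0 : Fin 3) ≠ 1 := by decide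
  have n02 : (0 : Fin 3) ≠ 2 := by decide
  have n12 : (1 : Fin 3) ≠ 2 := by decide
  have icov : ∀ j, Integrable (fun x => ‖cov A φ j x‖ ^ 2) := fun j =>
    (memLp_two_iff_integrable_sq_norm (h.memLp_cov hφ j).1).1 (h.memLp_cov hφ j)
  have iφ : Integrable (fun x => ‖φ x‖ ^ 2) :=
    (memLp_two_iff_integrable_sq_norm hφ.continuous.aestronglyMeasurable).1
      (memLp_of_cont hφ.continuous hφ.supp 2)
  have iT : Integrable (fun x => ‖cov A φ 0 x‖ ^ 2 + ‖cov A φ 1 x‖ ^ 2 + ‖cov A φ 2 x‖ ^ 2 +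
      m ^ 2 * ‖φ x‖ ^ 2) := iadd (iadd (iadd (icov 0) (icov 1)) (icov 2)) (iφ.const_mul _)
  have iP : ∀ j k, j ≠ k → Integrable (fun x => 2 * rp (pd j φ x) (C.MM j k (pd k φ x)) +
      A k x * (2 * rp (pd j φ x) (C.HH j k (φ x))) -
      A j x * (2 * rp (pd k φ x) (C.HH j k (φ x)))) ∧
      ∫ x, (2 * rp (pd j φ x) (C.MM j k (pd k φ x)) +
      A k x * (2 * rp (pd j φ x) (C.HH j k (φ x))) -
      A j x * (2 * rp (pd k φ x) (C.HH j k (φ x)))) =
      -∫ x, (b j k x - b k j x) * rp (φ x) (C.HH j k (φ x)) := by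
    intro j k hjk
    have t1 := imix j k hjk
    have t2 := iA j k hjk j k
    have t3 := iA j k hjk k j
    refine ⟨isub (iadd t1.1 t2.1) t3.1, ?_⟩
    rw [integral_sub (iadd t1.1 t2.1) t3.1, integral_add t1.1 t2.1, t1.2, t2.2, t3.2]
    have : ∫ x, (b j k x - b k j x) * rp (φ x) (C.HH j k (φ x)) =
        (∫ x, b j k x * rp (φ x) (C.HH j k (φ x))) -
          ∫ x, b k j x * rp (φ x) (C.HH j k (φ x)) := by
      rw [← integral_sub (ib j k j k) (ib j k k j)]
      congr 1; ext x; ring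
    rw [this]; ring
  have iMs : Integrable (fun x => m * (2 * rp (pd 0 φ x) (C.KK 0 (φ x)) +
      2 * rp (pd 1 φ x) (C.KK 1 (φ x)) + 2 * rp (pd 2 φ x) (C.KK 2 (φ x)))) ∧
      ∫ x, m * (2 * rp (pd 0 φ x) (C.KK 0 (φ x)) +
      2 * rp (pd 1 φ x) (C.KK 1 (φ x)) + 2 * rp (pd 2 φ x) (C.KK 2 (φ x))) = 0 := by
    have t0 := imass 0
    have t1 := imass 1
    have t2 := imass 2
    refine ⟨(iadd (iadd t0.1 t1.1) t2.1).const_mul _, ?_⟩
    rw [integral_const_mul, integral_add (iadd t0.1 t1.1) t2.1, integral_add t0.1 t1.1, t0.2, t1.2,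
      t2.2]
    ring
  have hint : ∫ x, ‖dir C m A φ x‖ ^ 2 =
      (∫ x, (‖cov A φ 0 x‖ ^ 2 + ‖cov A φ 1 x‖ ^ 2 + ‖cov A φ 2 x‖ ^ 2 + m ^ 2 * ‖φ x‖ ^ 2)) +
      ((-∫ x, (b 0 1 x - b 1 0 x) * rp (φ x) (C.HH 0 1 (φ x))) +
       (-∫ x, (b 0 2 x - b 2 0 x) * rp (φ x) (C.HH 0 2 (φ x))) +
       (-∫ x, (b 1 2 x - b 2 1 x) * rp (φ x) (C.HH 1 2 (φ x)))) := by
    rw [← (iP 0 1 n01).2, ← (iP 0 2 n02).2, ← (iP 1 2 n12).2,
      ← integral_add (iP 0 1 n01).1 (iP 0 2 n02).1,
      ← integral_add (iadd (iP 0 1 n01).1 (iP 0 2 n02).1) (iP 1 2 n12).1,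
      ← integral_add iT (iadd (iadd (iP 0 1 n01).1 (iP 0 2 n02).1) (iP 1 2 n12).1)]
    have iall := iadd iT (iadd (iadd (iP 0 1 n01).1 (iP 0 2 n02).1) (iP 1 2 n12).1)
    have e0 := integral_add iall iMs.1
    rw [iMs.2, add_zero] at e0
    rw [← e0]
    refine integral_congr_ae (Filter.Eventually.of_forall fun x => ?_)
    beta_reduce
    rw [hpt x]
  have icB : Integrable (fun x => curlN b x * ‖φ x‖ ^ 2) := by
    refine (h.curl_memLp).integrable_mul (memLp_of_cont (u := fun x => ‖φ x‖ ^ 2)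
      (hφ.continuous.norm.pow 2) ?_ 2)
    refine hφ.supp.mono fun x hx => ?_
    intro h'; apply hx
    have h'' : φ x = 0 := h'
    simp [h'']
  have iB : ∀ j k, Integrable (fun x => (b j k x - b k j x) * rp (φ x) (C.HH j k (φ x))) := by
    intro j k
    refine ((ib j k j k).sub (ib j k k j)).congr (Filter.Eventually.of_forall fun x => ?_)
    simp only [Pi.sub_apply]; ring
  have hfb : (∫ x, (b 0 1 x - b 1 0 x) * rp (φ x) (C.HH 0 1 (φ x))) +
       (∫ x, (b 0 2 x - b 2 0 x) * rp (φ x) (C.HH 0 2 (φ x))) +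
       (∫ x, (b 1 2 x - b 2 1 x) * rp (φ x) (C.HH 1 2 (φ x))) ≤
         ∫ x, curlN b x * ‖φ x‖ ^ 2 := by
    rw [← integral_add (iB 0 1) (iB 0 2), ← integral_add (iadd (iB 0 1) (iB 0 2)) (iB 1 2)]
    refine integral_mono (iadd (iadd (iB 0 1) (iB 0 2)) (iB 1 2)) icB fun x => ?_
    exact C.field_bound (φ x) _ _ _
  linarith [hint, hfb]

end spin

end Run7.h108
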