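import Pool.Agent.Run7.h108.Static
import Pool.Agent.Run7.h108.EvolIneq

/-!
# The Dirac operator as a symmetric relation on `L²`
-/

set_option autoImplicit false

open scoped ENNReal ContDiff InnerProductSpace
open MeasureTheory

namespace Run7.h108

variable {V : Type*} [NormedAddCommGroup V] [InnerProductSpace ℂ V]
variable {A : Fin 3 → R3 → ℝ} {b : Fin 3 → Fin 3 → R3 → ℝ}

theorem IsTest.add {φ χ : R3 → V} (hφ : IsTest φ) (hχ : IsTest χ) :
    IsTest (fun x => φ x + χ x) :=
  ⟨hφ.smooth.add hχ.smooth, hφ.supp.add hχ.supp⟩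

theorem IsTest.csmul {φ : R3 → V} (hφ : IsTest φ) (c : ℂ) : IsTest (fun x => c • φ x) :=
  ⟨hφ.smooth.const_smul c, hφ.supp.smul_left (f := fun _ => c)⟩

theorem isTest_zero : IsTest (fun _ : R3 => (0 : V)) :=
  ⟨contDiff_const, HasCompactSupport.zero⟩

theorem pd_add {φ χ : R3 → V} (hφ : Differentiable ℝ φ) (hχ : Differentiable ℝ χ) (j : Fin 3)
    (x : R3) : pd j (fun x => φ x + χ x) x = pd j φ x + pd j χ x := by
  have h1 : HasFDerivAt (fun x => φ x + χ x) (fderiv ℝ φ x + fderiv ℝ χ x) x :=
    (hφ x).hasFDerivAt.add (hχ x).hasFDerivAt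
  unfold pd
  rw [h1.fderiv]
  rfl

theorem pd_csmul {φ : R3 → V} (hφ : Differentiable ℝ φ) (c : ℂ) (j : Fin 3)
    (x : R3) : pd j (fun x => c • φ x) x = c • pd j φ x := by
  have h1 : HasFDerivAt (fun x => c • φ x) (c • fderiv ℝ φ x) x :=
    (hφ x).hasFDerivAt.const_smul c
  unfold pd
  rw [h1.fderiv]
  rfl

theorem dir_add (C : Cliff V) (m : ℝ) {φ χ : R3 → V} (hφ : IsTest φ) (hχ : IsTest χ) (x : R3) :
    dir C m A (fun x => φ x + χ x) x = dir C m A φ x + dir C m A χ x := by
  unfold dir Cliff.dpt cov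
  beta_reduce
  rw [pd_add hφ.differentiable hχ.differentiable, pd_add hφ.differentiable hχ.differentiable,
    pd_add hφ.differentiable hχ.differentiable]
  simp only [map_add, smul_add, map_smul]
  abel

theorem dir_csmul (C : Cliff V) (m : ℝ) {φ : R3 → V} (hφ : IsTest φ) (c : ℂ) (x : R3) :
    dir C m A (fun x => c • φ x) x = c • dir C m A φ x := by
  unfold dir Cliff.dpt cov
  beta_reduce
  rw [pd_csmul hφ.differentiable, pd_csmul hφ.differentiable, pd_csmul hφ.differentiable]
  simp only [map_add, smul_add, map_smul, smul_neg, smul_comm c]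

/-- graph of the Dirac operator on test functions -/
noncomputable def T0 (C : Cliff V) (m : ℝ) (A : Fin 3 → R3 → ℝ) :
    Submodule ℂ (Lp V 2 (volume : Measure R3) × Lp V 2 (volume : Measure R3)) where
  carrier := {p | ∃ φ : R3 → V, IsTest φ ∧ p.1 =ᵐ[volume] φ ∧ p.2 =ᵐ[volume] dir C m A φ}
  add_mem' := by
    rintro p q ⟨φ, hφ, h1, h2⟩ ⟨χ, hχ, h3, h4⟩
    refine ⟨fun x => φ x + χ x, hφ.add hχ, ?_, ?_⟩
    · filter_upwards [Lp.coeFn_add p.1 q.1, h1, h3] with x hx h1 h3
      change (p.1 + q.1 : Lp V 2 (volume : Measure R3)) x = _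
      rw [hx, Pi.add_apply, h1, h3]
    · filter_upwards [Lp.coeFn_add p.2 q.2, h2, h4] with x hx h2 h4
      change (p.2 + q.2 : Lp V 2 (volume : Measure R3)) x = _
      rw [hx, Pi.add_apply, h2, h4, dir_add C m hφ hχ]
  zero_mem' := by
    refine ⟨fun _ => 0, isTest_zero, Lp.coeFn_zero _ _ _, ?_⟩
    filter_upwards [Lp.coeFn_zero V 2 (volume : Measure R3)] with x hx
    have e : dir C m A (fun _ : R3 => (0 : V)) x = 0 := by
      have := dir_csmul (A := A) C m (isTest_zero (V := V)) (0 : ℂ) x
      simpa using this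
    rw [e]; exact hx
  smul_mem' := by
    rintro c p ⟨φ, hφ, h1, h2⟩
    refine ⟨fun x => c • φ x, hφ.csmul c, ?_, ?_⟩
    · filter_upwards [Lp.coeFn_smul c p.1, h1] with x hx h1
      change (c • p.1 : Lp V 2 (volume : Measure R3)) x = _
      rw [hx, Pi.smul_apply, h1]
    · filter_upwards [Lp.coeFn_smul c p.2, h2] with x hx h2
      change (c • p.2 : Lp V 2 (volume : Measure R3)) x = _
      rw [hx, Pi.smul_apply, h2, dir_csmul C m hφ]

theorem mem_T0 {C : Cliff V} {m : ℝ} {A : Fin 3 → R3 → ℝ}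
    {p : Lp V 2 (volume : Measure R3) × Lp V 2 (volume : Measure R3)} :
    p ∈ T0 C m A ↔ ∃ φ : R3 → V, IsTest φ ∧ p.1 =ᵐ[volume] φ ∧
      p.2 =ᵐ[volume] dir C m A φ := Iff.rfl

/-- real symmetry of the Dirac operator on test functions -/
theorem dir_symm (h : WeakField A b) (C : Cliff V) (m : ℝ) {φ χ : R3 → V} (hφ : IsTest φ)
    (hχ : IsTest χ) :
    ∫ x, rp (dir C m A φ x) (χ x) = ∫ x, rp (φ x) (dir C m A χ x) := by
  have hI : ∀ j, IsTest (fun x => rp (φ x) (Complex.I • C.al j (χ x))) := fun j =>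
    hφ.rp ((((Complex.I • C.al j)).restrictScalars ℝ).contDiff.comp hχ.smooth)
  have hpI : ∀ j x, pd j (fun x => rp (φ x) (Complex.I • C.al j (χ x))) x =
      rp (pd j φ x) (Complex.I • C.al j (χ x)) + rp (φ x) (Complex.I • C.al j (pd j χ x)) := by
    intro j x
    have e1 := pd_rp hφ.differentiable
      ((((Complex.I • C.al j)).restrictScalars ℝ).differentiable.comp hχ.differentiable) j x
    have e2 := pd_clm hχ.differentiable (((Complex.I • C.al j)).restrictScalars ℝ) j x
    have e3 : pd j (fun x => Complex.I • C.al j (χ x)) x = Complex.I • C.al j (pd j χ x) := e2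
    have e4 : pd j (fun x => rp (φ x) (Complex.I • C.al j (χ x))) x =
      rp (pd j φ x) (Complex.I • C.al j (χ x)) +
      rp (φ x) (pd j (fun x => Complex.I • C.al j (χ x)) x) := e1
    rw [e4, e3]
  have hpt : ∀ x, rp (dir C m A φ x) (χ x) - rp (φ x) (dir C m A χ x) =
      pd 0 (fun x => rp (φ x) (Complex.I • C.al 0 (χ x))) x +
      pd 1 (fun x => rp (φ x) (Complex.I • C.al 1 (χ x))) x +
      pd 2 (fun x => rp (φ x) (Complex.I • C.al 2 (χ x))) x := by
    intro x
    rw [hpI, hpI, hpI]
    have key : ∀ j, -rp (Complex.I • C.al j (cov A φ j x)) (χ x) +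
        rp (φ x) (Complex.I • C.al j (cov A χ j x)) =
        rp (pd j φ x) (Complex.I • C.al j (χ x)) + rp (φ x) (Complex.I • C.al j (pd j χ x)) := by
      intro j
      rw [C.rp_Ial_left, neg_neg]
      unfold cov
      have e5 : Complex.I • C.al j (pd j χ x + (A j x : ℂ) • (Complex.I • χ x)) =
          Complex.I • C.al j (pd j χ x) + ((-(A j x) : ℝ) : ℂ) • C.al j (χ x) := by
        rw [map_add, smul_add, map_smul, map_smul, smul_smul, smul_smul]
        congr 1
        congr 1
        push_cast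
        linear_combination (A j x : ℂ) * Complex.I_mul_I
      rw [e5, rp_add_left, rp_add_right, rp_smul_left, rp_smul_right, rp_I_I]
      ring
    have k0 := key 0
    have k1 := key 1
    have k2 := key 2
    unfold dir Cliff.dpt
    simp only [rp_add_left, rp_add_right, rp_neg_left, rp_neg_right, smul_add, rp_smul_left,
      rp_smul_right, C.rp_be]
    linarith
  have i1 : Integrable (fun x => rp (dir C m A φ x) (χ x)) :=
    integrable_rp (h.memLp_dir C m hφ) (memLp_of_cont hχ.continuous hχ.supp 2)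
  have i2 : Integrable (fun x => rp (φ x) (dir C m A χ x)) :=
    integrable_rp (memLp_of_cont hφ.continuous hφ.supp 2) (h.memLp_dir C m hχ)
  have i3 := fun j => ((hI j).pd j).integrable
  have e : ∫ x, (rp (dir C m A φ x) (χ x) - rp (φ x) (dir C m A χ x)) = 0 := by
    have e0 : (fun x => rp (dir C m A φ x) (χ x) - rp (φ x) (dir C m A χ x)) = fun x =>
      pd 0 (fun x => rp (φ x) (Complex.I • C.al 0 (χ x))) x +
      pd 1 (fun x => rp (φ x) (Complex.I • C.al 1 (χ x))) x +
      pd 2 (fun x => rp (φ x) (Complex.I • C.al 2 (χ x))) x := funext hpt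
    rw [e0, integral_add (iadd (i3 0) (i3 1)) (i3 2), integral_add (i3 0) (i3 1),
      (hI 0).integral_pd, (hI 1).integral_pd, (hI 2).integral_pd]
    ring
  rw [integral_sub i1 i2] at e
  linarith

/-- real part of the inner product of `L²` -/
theorem re_inner_L2 (u v : Lp V 2 (volume : Measure R3)) :
    (⟪u, v⟫_ℂ).re = ∫ x, rp (u x) (v x) := by
  rw [L2.inner_def]
  have h := L2.integrable_inner (𝕜 := ℂ) u v
  have h2 : (∫ x, ⟪u x, v x⟫_ℂ).re = ∫ x, (⟪u x, v x⟫_ℂ).re := by
    have := integral_re (𝕜 := ℂ) h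
    simpa using this.symm
  exact h2

theorem core_T0 [CompleteSpace V] (h : WeakField A b) (C : Cliff V) (m : ℝ) :
    Core (T0 C m A) := by
  constructor
  · -- symmetry
    intro p hp q hq
    obtain ⟨φ, hφ, h1, h2⟩ := hq
    have hre : ∀ p : Lp V 2 (volume : Measure R3) × Lp V 2 (volume : Measure R3), p ∈ T0 C m A →
        (⟪q.2, p.1⟫_ℂ).re = (⟪q.1, p.2⟫_ℂ).re := by
      rintro p ⟨χ, hχ, h3, h4⟩
      rw [re_inner_L2, re_inner_L2]
      have e1 : ∫ x, rp (q.2 x) (p.1 x) = ∫ x, rp (dir C m A φ x) (χ x) := by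
        refine integral_congr_ae ?_
        filter_upwards [h2, h3] with x a1 a2
        rw [a1, a2]
      have e2 : ∫ x, rp (q.1 x) (p.2 x) = ∫ x, rp (φ x) (dir C m A χ x) := by
        refine integral_congr_ae ?_
        filter_upwards [h1, h4] with x a1 a2
        rw [a1, a2]
      rw [e1, e2]
      exact dir_symm h C m hφ hχ
    have r1 := hre p hp
    have r2 := hre (Complex.I • p) ((T0 C m A).smul_mem _ hp)
    simp only [Prod.smul_fst, Prod.smul_snd, inner_smul_right, Complex.mul_re, Complex.I_re,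
      Complex.I_im, zero_mul, one_mul, zero_sub, neg_inj] at r2
    exact Complex.ext r1 r2
  · -- density
    intro g hg
    have hloc : LocallyIntegrable (g : R3 → V) volume :=
      (Lp.memLp g).locallyIntegrable (by norm_num)
    have hzero : ∀ᵐ x ∂(volume : Measure R3), (g : R3 → V) x = 0 := by
      refine ae_eq_zero_of_integral_contDiff_smul_eq_zero hloc fun w hw hws => ?_
      have key : ∀ v : V, ⟪v, ∫ x, w x • (g : R3 → V) x⟫_ℂ = 0 := by
        intro v
        have hiw : Integrable (fun x => w x • (g : R3 → V) x) :=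
          hloc.integrable_smul_left_of_hasCompactSupport hw.continuous hws
        rw [← integral_inner (𝕜 := ℂ) hiw v]
        have ht : IsTest (fun x => ((w x : ℝ) : ℂ) • v) := by
          refine ⟨?_, ?_⟩
          · exact (Complex.ofRealCLM.contDiff.comp hw).smul contDiff_const
          · refine hws.mono fun x hx => ?_
            intro h'; apply hx
            have h'' : w x = 0 := h'
            simp [h'']
        have m1 : MemLp (fun x => ((w x : ℝ) : ℂ) • v) 2 (volume : Measure R3) :=
          memLp_of_cont ht.continuous ht.supp 2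
        have m2 := h.memLp_dir C m ht
        have hq := hg (m1.toLp _, m2.toLp _) ⟨_, ht, m1.coeFn_toLp, m2.coeFn_toLp⟩
        rw [L2.inner_def] at hq
        rw [← hq]
        refine integral_congr_ae ?_
        filter_upwards [m1.coeFn_toLp] with x a1
        rw [a1, inner_smul_left, Complex.conj_ofReal]
        have : w x • (g : R3 → V) x = ((w x : ℝ) : ℂ) • (g : R3 → V) x := by
          rw [Complex.coe_smul]
        rw [this, inner_smul_right]
      have := key (∫ x, w x • (g : R3 → V) x)
      exact inner_self_eq_zero.1 this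
    exact (Lp.eq_zero_iff_ae_eq_zero).2 hzero

end Run7.h108
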