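import Mathlib

/-!
# Brown-Ravenhall matter with magnetic positive-energy projector: the one-electron model

All objects are functions on `ℝ³` and Lebesgue integrals.
-/

set_option autoImplicit false

open scoped InnerProductSpace ContDiff
open MeasureTheory

namespace Run7.h108.Model

/-- Three dimensional Euclidean space. -/
abbrev R3 := EuclideanSpace ℝ (Fin 3)

/-- Dirac spinors. -/
abbrev Spinor := EuclideanSpace ℂ (Fin 4)

/-- Lebesgue integral of a real function on `ℝ³`. -/
noncomputable def intR (f : R3 → ℝ) : ℝ := ∫ x, f x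

/-- Lebesgue integral of a complex function on `ℝ³`. -/
noncomputable def intC (f : R3 → ℂ) : ℂ := ∫ x, f x

/-- `f` is Lebesgue integrable on `ℝ³`. -/
def IntegrableR (f : R3 → ℝ) : Prop := Integrable f

/-- `ψ` is measurable and square integrable, so an element of `L²(ℝ³; ℂ⁴)`. -/
def L2 (ψ : R3 → Spinor) : Prop := MemLp ψ 2 volume

/-- Equality almost everywhere. -/
def AEEq (ψ χ : R3 → Spinor) : Prop := ψ =ᵐ[volume] χ

/-- Inner product of spinors, antilinear in the first entry. -/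
noncomputable def ip (u v : Spinor) : ℂ := ∑ i, (starRingEnd ℂ) (u i) * v i

/-- The inner product of `L²(ℝ³; ℂ⁴)`. -/
noncomputable def ip2 (ψ χ : R3 → Spinor) : ℂ := intC fun x => ip (ψ x) (χ x)

/-- The squared norm of `L²(ℝ³; ℂ⁴)`. -/
noncomputable def nsq (ψ : R3 → Spinor) : ℝ := intR fun x => ‖ψ x‖ ^ 2

/-- Smooth real functions with compact support. -/
def TestR (η : R3 → ℝ) : Prop := ContDiff ℝ ∞ η ∧ HasCompactSupport η

/-- Smooth spinor fields with compact support. -/
def TestS (φ : R3 → Spinor) : Prop := ContDiff ℝ ∞ φ ∧ HasCompactSupport φ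

/-- `j`-th coordinate derivative of a real function. -/
noncomputable def derR (j : Fin 3) (u : R3 → ℝ) (x : R3) : ℝ :=
  lineDeriv ℝ u x (EuclideanSpace.single j 1)

/-- `j`-th coordinate derivative of a spinor field. -/
noncomputable def derS (j : Fin 3) (u : R3 → Spinor) (x : R3) : Spinor :=
  lineDeriv ℝ u x (EuclideanSpace.single j 1)

/-- The fine structure constant `α = 1/137.037`; the charge of the electron is `-e`, `e = √α`. -/
noncomputable def fsc : ℝ := 1 / 137.037

/-- The Dirac matrices `α₁, α₂, α₃` in the standard representation. -/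
noncomputable def alphaMat : Fin 3 → Matrix (Fin 4) (Fin 4) ℂ :=
  ![!![0, 0, 0, 1; 0, 0, 1, 0; 0, 1, 0, 0; 1, 0, 0, 0],
    !![0, 0, 0, -Complex.I; 0, 0, Complex.I, 0; 0, -Complex.I, 0, 0; Complex.I, 0, 0, 0],
    !![0, 0, 1, 0; 0, 0, 0, -1; 1, 0, 0, 0; 0, -1, 0, 0]]

/-- The Dirac matrix `β` in the standard representation. -/
noncomputable def betaMat : Matrix (Fin 4) (Fin 4) ℂ :=
  !![1, 0, 0, 0; 0, 1, 0, 0; 0, 0, -1, 0; 0, 0, 0, -1]

/-- A matrix acting on a spinor. -/
noncomputable def act (M : Matrix (Fin 4) (Fin 4) ℂ) (v : Spinor) : Spinor :=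
  WithLp.toLp 2 (M.mulVec v.ofLp)

/-- The function `D_a φ = ∑ⱼ αⱼ (-i ∂ⱼ + e aⱼ) φ + m β φ` for a smooth spinor field `φ`. -/
noncomputable def diracOp (m : ℝ) (a : R3 → R3) (φ : R3 → Spinor) (x : R3) : Spinor :=
  (∑ j : Fin 3, act (alphaMat j)
    ((-Complex.I) • derS j φ x + ((Real.sqrt fsc * a x j : ℝ) : ℂ) • φ x)) +
    (m : ℂ) • act betaMat (φ x)

/-- `a` is measurable and locally square integrable. -/
def LocL2 (a : R3 → R3) : Prop := AEStronglyMeasurable a ∧ LocallyIntegrable fun x => ‖a x‖ ^ 2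

/-- `b` is measurable and square integrable. -/
def L2R (b : R3 → ℝ) : Prop := MemLp b 2

/-- `a` is locally square integrable with square integrable weak gradient `b j k = ∂ⱼ aₖ`. -/
structure IsField (a : R3 → R3) (b : Fin 3 → Fin 3 → R3 → ℝ) : Prop where
  loc : LocL2 a
  grad : ∀ j k, L2R (b j k)
  weak : ∀ (j k : Fin 3) (η : R3 → ℝ), TestR η →
    intR (fun x => a x k * derR j η x) = -intR fun x => b j k x * η x

/-- The length of the magnetic field `curl a` of a field with gradient `b`. -/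
noncomputable def curlNorm (b : Fin 3 → Fin 3 → R3 → ℝ) (x : R3) : ℝ :=
  Real.sqrt ((b 0 1 x - b 1 0 x) ^ 2 + (b 0 2 x - b 2 0 x) ^ 2 + (b 1 2 x - b 2 1 x) ^ 2)

/-- `ψ, g` are in `L²` and `D_a ψ = g` in the sense of distributions; that is, `ψ` lies in the
domain of the (closed) magnetic Dirac operator and is mapped to `g`. -/
def DiracRel (m : ℝ) (a : R3 → R3) (ψ g : R3 → Spinor) : Prop :=
  L2 ψ ∧ L2 g ∧ ∀ φ : R3 → Spinor, TestS φ → ip2 (diracOp m a φ) ψ = ip2 φ g

/-- `P` is the orthogonal projection of `L²` onto the positive spectral subspace of `D_a`: it is an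
orthogonal projection which commutes with `D_a`, and `D_a` is real and positive on its range and
real and nonpositive on the orthogonal complement of its range. -/
structure IsPosProj (m : ℝ) (a : R3 → R3) (P : (R3 → Spinor) → R3 → Spinor) : Prop where
  mem : ∀ ψ, L2 ψ → L2 (P ψ)
  idem : ∀ ψ, L2 ψ → AEEq (P (P ψ)) (P ψ)
  selfadj : ∀ ψ χ, L2 ψ → L2 χ → ip2 (P ψ) χ = ip2 ψ (P χ)
  reduces : ∀ ψ g, DiracRel m a ψ g → DiracRel m a (P ψ) (P g)
  pos : ∀ ψ g, DiracRel m a ψ g → AEEq (P ψ) ψ → ¬ AEEq ψ 0 →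
    (ip2 ψ g).im = 0 ∧ 0 < (ip2 ψ g).re
  neg : ∀ ψ g, DiracRel m a ψ g → AEEq (P ψ) 0 → (ip2 ψ g).im = 0 ∧ (ip2 ψ g).re ≤ 0

/-- `ψ` lies in the form domain of `D_a` restricted to the range of `P`, and the value at `ψ` of
its closed quadratic form is at most `e`: `ψ` is an `L²` limit of vectors `u` in the domain of `D_a`
and in the range of `P` for which the upper limit of `⟨u, D_a u⟩` is at most `e`. -/
def FormLe (m : ℝ) (a : R3 → R3) (P : (R3 → Spinor) → R3 → Spinor) (ψ : R3 → Spinor) (e : ℝ) :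
    Prop :=
  ∀ η : ℝ, 0 < η → ∃ u g : R3 → Spinor, DiracRel m a u g ∧ AEEq (P u) u ∧
    nsq (u - ψ) < η ∧ (ip2 u g).re < e + η

/-- The Coulomb potential `W` of one electron at `x` and `K` nuclei of charges `z` at `y`. -/
noncomputable def coulomb {K : ℕ} (z : Fin K → ℝ) (y : Fin K → R3) (x : R3) : ℝ :=
  (∑ k, ∑ l ∈ Finset.Ioi k, z k * z l / ‖y k - y l‖) - ∑ k, z k / ‖x - y k‖

end Run7.h108.Model
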