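import Mathlib

/-!
# The radial weight
-/

set_option autoImplicit false

open Filter Topology

namespace Run7.h108

/-- `arccot (t/√ρ)/√ρ` -/
noncomputable def wG (ρ t : ℝ) : ℝ := (Real.pi / 2 - Real.arctan (t / Real.sqrt ρ)) / Real.sqrt ρ

/-- twice the derivative of `wG` in the first variable -/
noncomputable def wP (ρ t : ℝ) : ℝ := (-wG ρ t + t / (ρ + t ^ 2)) / ρ

/-- derivative of `wP` -/
noncomputable def wP2 (ρ t : ℝ) : ℝ := -(3 / 2) * wP ρ t / ρ - t / (ρ * (ρ + t ^ 2) ^ 2)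

theorem arccot_ge (y : ℝ) :
    y / (1 + y ^ 2) + 2 / 3 * (y / (1 + y ^ 2) ^ 2) ≤ Real.pi / 2 - Real.arctan y := by
  let h : ℝ → ℝ := fun y => Real.pi / 2 - Real.arctan y - y / (1 + y ^ 2) -
    2 / 3 * (y / (1 + y ^ 2) ^ 2)
  have hd : ∀ y, HasDerivAt h (-(8 / 3) / (1 + y ^ 2) ^ 3) y := by
    intro y
    have hp : (1 + y ^ 2) ≠ 0 := by positivity
    have d1 : HasDerivAt (fun y : ℝ => 1 + y ^ 2) (2 * y) y := by
      have := (hasDerivAt_pow 2 y).const_add 1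
      simpa using this
    have d2 := (hasDerivAt_id y).div d1 hp
    have d1p : HasDerivAt (fun y : ℝ => (1 + y ^ 2) ^ 2) (2 * (1 + y ^ 2) * (2 * y)) y := by
      have := d1.fun_pow 2
      simpa using this
    have d3 := (hasDerivAt_id y).div d1p (by positivity)
    have d4 := (((Real.hasDerivAt_arctan y).const_sub (Real.pi / 2)).sub d2).sub
      (d3.const_mul (2 / 3))
    refine d4.congr_deriv ?_
    simp only [id]
    field_simp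
    ring
  have hanti : Antitone h := by
    refine antitone_of_deriv_nonpos (fun y => (hd y).differentiableAt) fun y => ?_
    rw [(hd y).deriv]
    have : 0 < (1 + y ^ 2) ^ 3 := by positivity
    apply div_nonpos_of_nonpos_of_nonneg <;> [norm_num; positivity]
  have hlim : Tendsto h atTop (𝓝 0) := by
    have t1 : Tendsto (fun y : ℝ => Real.pi / 2 - Real.arctan y) atTop (𝓝 0) := by
      have := (Real.tendsto_arctan_atTop.mono_right nhdsWithin_le_nhds).const_sub (Real.pi / 2)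
      simpa using this
    have t2 : Tendsto (fun y : ℝ => y / (1 + y ^ 2)) atTop (𝓝 0) := by
      refine squeeze_zero' (g := fun y : ℝ => y⁻¹) ?_ ?_ tendsto_inv_atTop_zero
      · filter_upwards [eventually_gt_atTop 0] with y hy
        positivity
      · filter_upwards [eventually_gt_atTop 0] with y hy
        rw [div_le_iff₀ (by positivity)]
        have : y⁻¹ * (1 + y ^ 2) = y⁻¹ + y := by field_simp
        rw [this]
        have : 0 < y⁻¹ := by positivity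
        linarith
    have t3 : Tendsto (fun y : ℝ => y / (1 + y ^ 2) ^ 2) atTop (𝓝 0) := by
      refine squeeze_zero' ?_ ?_ t2
      · filter_upwards [eventually_gt_atTop 0] with y hy
        positivity
      · filter_upwards [eventually_gt_atTop 0] with y hy
        refine div_le_div_of_nonneg_left hy.le (by positivity) ?_
        nlinarith [sq_nonneg y]
    have := (t1.sub t2).sub (t3.const_mul (2 / 3))
    simpa using this
  have := hanti.le_of_tendsto hlim y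
  change 0 ≤ Real.pi / 2 - Real.arctan y - y / (1 + y ^ 2) - 2 / 3 * (y / (1 + y ^ 2) ^ 2) at this
  linarith

theorem wG_ge {ρ : ℝ} (hρ : 0 < ρ) (t : ℝ) :
    t / (ρ + t ^ 2) + 2 / 3 * (t * ρ / (ρ + t ^ 2) ^ 2) ≤ wG ρ t := by
  obtain ⟨R, hR⟩ : ∃ R, R = Real.sqrt ρ := ⟨_, rfl⟩
  have hRp : 0 < R := hR ▸ Real.sqrt_pos.2 hρ
  have hRR : ρ = R ^ 2 := by rw [hR, Real.sq_sqrt hρ.le]
  unfold wG
  rw [← hR, le_div_iff₀ hRp]
  refine le_trans (le_of_eq ?_) (arccot_ge (t / R))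
  rw [hRR]
  have h1 : R ^ 2 + t ^ 2 ≠ 0 := by positivity
  have h2 : 1 + (t / R) ^ 2 = (R ^ 2 + t ^ 2) / R ^ 2 := by field_simp
  rw [h2]
  field_simp

theorem super_ineq {ρ : ℝ} (hρ : 0 < ρ) (t : ℝ) :
    3 * wP ρ t + 2 * t / (ρ + t ^ 2) ^ 2 ≤ 0 := by
  have h := wG_ge hρ t
  unfold wP
  have h1 : 0 < ρ + t ^ 2 := by positivity
  have e : 3 * ((-wG ρ t + t / (ρ + t ^ 2)) / ρ) + 2 * t / (ρ + t ^ 2) ^ 2 =
      3 / ρ * (t / (ρ + t ^ 2) + 2 / 3 * (t * ρ / (ρ + t ^ 2) ^ 2) - wG ρ t) := by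
    field_simp; ring
  rw [e]
  have h2 : 0 ≤ 3 / ρ := by positivity
  nlinarith

theorem hasDerivAt_wG {ρ : ℝ} (hρ : 0 < ρ) (t : ℝ) :
    HasDerivAt (fun ρ => wG ρ t) (wP ρ t / 2) ρ := by
  obtain ⟨R, hR⟩ : ∃ R, R = Real.sqrt ρ := ⟨_, rfl⟩
  have hRp : 0 < R := hR ▸ Real.sqrt_pos.2 hρ
  have hRR : ρ = R ^ 2 := by rw [hR, Real.sq_sqrt hρ.le]
  have d1 : HasDerivAt Real.sqrt (1 / (2 * Real.sqrt ρ)) ρ := Real.hasDerivAt_sqrt hρ.ne'
  have hsq : Real.sqrt ρ ≠ 0 := (Real.sqrt_pos.2 hρ).ne'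
  have d2 : HasDerivAt (fun ρ => t / Real.sqrt ρ) _ ρ := (hasDerivAt_const ρ t).div d1 hsq
  have d3 := ((d2.arctan).const_sub (Real.pi / 2)).div d1 hsq
  refine d3.congr_deriv ?_
  unfold wP wG
  rw [← hR, hRR]
  have h1 : R ^ 2 + t ^ 2 ≠ 0 := by positivity
  have h2 : 1 + (t / R) ^ 2 = (R ^ 2 + t ^ 2) / R ^ 2 := by field_simp
  rw [h2]
  field_simp
  ring

theorem hasDerivAt_wP {ρ : ℝ} (hρ : 0 < ρ) (t : ℝ) :
    HasDerivAt (fun ρ => wP ρ t) (wP2 ρ t) ρ := by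
  have h1 : ρ + t ^ 2 ≠ 0 := by positivity
  have d1 := hasDerivAt_wG hρ t
  have d2 : HasDerivAt (fun ρ : ℝ => ρ + t ^ 2) 1 ρ := (hasDerivAt_id ρ).add_const _
  have d3 := (d1.neg.add ((hasDerivAt_const ρ t).div d2 h1)).div (hasDerivAt_id ρ) hρ.ne'
  refine d3.congr_deriv ?_
  simp only [wP2, id, wP, Pi.add_apply, Pi.neg_apply, Pi.div_apply]
  field_simp
  ring

theorem hasDerivAt_wG_t {ρ : ℝ} (hρ : 0 < ρ) (t : ℝ) :
    HasDerivAt (fun t => wG ρ t) (-(1 / (ρ + t ^ 2))) t := by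
  have hsq : 0 < Real.sqrt ρ := Real.sqrt_pos.2 hρ
  obtain ⟨R, hR⟩ : ∃ R, R = Real.sqrt ρ := ⟨_, rfl⟩
  have hRp : 0 < R := hR ▸ hsq
  have hRR : ρ = R ^ 2 := by rw [hR, Real.sq_sqrt hρ.le]
  have d1 : HasDerivAt (fun t : ℝ => t / Real.sqrt ρ) (1 / Real.sqrt ρ) t :=
    (hasDerivAt_id t).div_const _
  have d2 := ((d1.arctan).const_sub (Real.pi / 2)).div_const (Real.sqrt ρ)
  refine d2.congr_deriv ?_
  rw [← hR, hRR]
  have h1 : R ^ 2 + t ^ 2 ≠ 0 := by positivity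
  have h2 : 1 + (t / R) ^ 2 = (R ^ 2 + t ^ 2) / R ^ 2 := by field_simp
  rw [h2]
  field_simp

theorem hasDerivAt_w1 {ρ : ℝ} (hρ : 0 < ρ) (t : ℝ) :
    HasDerivAt (fun t => -(1 / (ρ + t ^ 2))) (2 * t / (ρ + t ^ 2) ^ 2) t := by
  have h1 : ρ + t ^ 2 ≠ 0 := by positivity
  have d1 : HasDerivAt (fun t : ℝ => ρ + t ^ 2) (2 * t) t := by
    have := (hasDerivAt_pow 2 t).const_add ρ
    simpa using this
  have d2 := ((hasDerivAt_const t (1 : ℝ)).div d1 h1).neg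
  refine d2.congr_deriv ?_
  field_simp
  ring

theorem hasDerivAt_w2 {ρ : ℝ} (hρ : 0 < ρ) (t : ℝ) :
    HasDerivAt (fun t => 2 * t / (ρ + t ^ 2) ^ 2)
      (2 / (ρ + t ^ 2) ^ 2 - 8 * t ^ 2 / (ρ + t ^ 2) ^ 3) t := by
  have h1 : ρ + t ^ 2 ≠ 0 := by positivity
  have d1 : HasDerivAt (fun t : ℝ => ρ + t ^ 2) (2 * t) t := by
    have := (hasDerivAt_pow 2 t).const_add ρ
    simpa using this
  have d0 : HasDerivAt (fun t : ℝ => 2 * t) 2 t := by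
    simpa using (hasDerivAt_id t).const_mul 2
  have d1p : HasDerivAt (fun t : ℝ => (ρ + t ^ 2) ^ 2) (2 * (ρ + t ^ 2) * (2 * t)) t := by
    have := d1.fun_pow 2
    simpa using this
  have d2 := d0.div d1p (by positivity)
  refine d2.congr_deriv ?_
  field_simp
  ring

/-- lower bound of the weight -/
theorem wG_lower {δ T ρ t : ℝ} (hδ : 0 < δ) (hρ : δ ^ 2 ≤ ρ) (ht : t ≤ T) (hT : 0 ≤ T) :
    (Real.pi / 2 - Real.arctan (T / δ)) / Real.sqrt ρ ≤ wG ρ t := by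
  have hδR : δ ≤ Real.sqrt ρ := Real.le_sqrt_of_sq_le hρ
  have hR : 0 < Real.sqrt ρ := hδ.trans_le hδR
  unfold wG
  refine div_le_div_of_nonneg_right ?_ hR.le
  have h1 : t / Real.sqrt ρ ≤ T / δ := by
    calc t / Real.sqrt ρ ≤ T / Real.sqrt ρ := div_le_div_of_nonneg_right ht hR.le
      _ ≤ T / δ := div_le_div_of_nonneg_left hT hδ hδR
  have h2 := Real.arctan_mono h1
  linarith

theorem wG_pos {ρ : ℝ} (hρ : 0 < ρ) (t : ℝ) : 0 < wG ρ t := by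
  unfold wG
  have := Real.arctan_lt_pi_div_two (t / Real.sqrt ρ)
  have h2 := Real.sqrt_pos.2 hρ
  have : 0 < Real.pi / 2 - Real.arctan (t / Real.sqrt ρ) := by linarith
  positivity

theorem w1_bound {δ ρ t : ℝ} (hδ : 0 < δ) (hρ : δ ^ 2 ≤ ρ) :
    |-(1 / (ρ + t ^ 2))| ≤ (1 / δ) / Real.sqrt ρ := by
  have hδR : δ ≤ Real.sqrt ρ := Real.le_sqrt_of_sq_le hρ
  have hR : 0 < Real.sqrt ρ := hδ.trans_le hδR
  have hρp : 0 < ρ := lt_of_lt_of_le (by positivity) hρ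
  obtain ⟨R, hRd⟩ : ∃ R, R = Real.sqrt ρ := ⟨_, rfl⟩
  have hRR : ρ = R ^ 2 := by rw [hRd, Real.sq_sqrt hρp.le]
  rw [← hRd] at hδR hR ⊢
  rw [abs_neg, abs_of_nonneg (by positivity), div_div]
  refine one_div_le_one_div_of_le (by positivity) ?_
  nlinarith [sq_nonneg t]

theorem w2_bound {δ ρ t : ℝ} (hδ : 0 < δ) (hρ : δ ^ 2 ≤ ρ) :
    |2 * t / (ρ + t ^ 2) ^ 2| ≤ (1 / δ ^ 2) / Real.sqrt ρ := by
  have hδR : δ ≤ Real.sqrt ρ := Real.le_sqrt_of_sq_le hρ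
  have hR : 0 < Real.sqrt ρ := hδ.trans_le hδR
  have hρp : 0 < ρ := lt_of_lt_of_le (by positivity) hρ
  obtain ⟨R, hRd⟩ : ∃ R, R = Real.sqrt ρ := ⟨_, rfl⟩
  have hRR : ρ = R ^ 2 := by rw [hRd, Real.sq_sqrt hρp.le]
  rw [← hRd] at hδR hR ⊢
  have hp : 0 < ρ + t ^ 2 := by positivity
  rw [abs_div, abs_of_nonneg (by positivity : 0 ≤ (ρ + t ^ 2) ^ 2), div_div,
    div_le_div_iff₀ (by positivity) (by positivity)]
  have h1 : |2 * t| * R ≤ ρ + t ^ 2 := by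
    rw [abs_mul, abs_of_pos (by norm_num : (0 : ℝ) < 2), hRR]
    nlinarith [sq_nonneg (|t| - R), sq_abs t]
  have h2 : δ ^ 2 ≤ ρ + t ^ 2 := by nlinarith [sq_nonneg t]
  calc |2 * t| * (δ ^ 2 * R) = (|2 * t| * R) * δ ^ 2 := by ring
    _ ≤ (ρ + t ^ 2) * (ρ + t ^ 2) := mul_le_mul h1 h2 (by positivity) hp.le
    _ = _ := by ring

theorem w3_bound {δ ρ t : ℝ} (hδ : 0 < δ) (hρ : δ ^ 2 ≤ ρ) :
    |2 / (ρ + t ^ 2) ^ 2 - 8 * t ^ 2 / (ρ + t ^ 2) ^ 3| ≤ (10 / δ ^ 3) / Real.sqrt ρ := by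
  have hδR : δ ≤ Real.sqrt ρ := Real.le_sqrt_of_sq_le hρ
  have hR : 0 < Real.sqrt ρ := hδ.trans_le hδR
  have hρp : 0 < ρ := lt_of_lt_of_le (by positivity) hρ
  obtain ⟨R, hRd⟩ : ∃ R, R = Real.sqrt ρ := ⟨_, rfl⟩
  have hRR : ρ = R ^ 2 := by rw [hRd, Real.sq_sqrt hρp.le]
  rw [← hRd] at hδR hR ⊢
  have hp : 0 < ρ + t ^ 2 := by positivity
  have e : 2 / (ρ + t ^ 2) ^ 2 - 8 * t ^ 2 / (ρ + t ^ 2) ^ 3 =
      (2 * ρ - 6 * t ^ 2) / (ρ + t ^ 2) ^ 3 := by field_simp; ring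
  rw [e, abs_div, abs_of_nonneg (by positivity : 0 ≤ (ρ + t ^ 2) ^ 3), div_div,
    div_le_div_iff₀ (by positivity) (by positivity)]
  have h1 : |2 * ρ - 6 * t ^ 2| ≤ 10 * (ρ + t ^ 2) := by
    rw [abs_le]; constructor <;> nlinarith [sq_nonneg t]
  have h2 : δ ^ 3 * R ≤ (ρ + t ^ 2) ^ 2 := by
    have h3 : δ ^ 3 ≤ R ^ 3 := pow_le_pow_left₀ hδ.le hδR 3
    have h4 : R ^ 2 ≤ ρ + t ^ 2 := by rw [hRR]; nlinarith [sq_nonneg t]
    have h5 : (R ^ 2) ^ 2 ≤ (ρ + t ^ 2) ^ 2 := pow_le_pow_left₀ (by positivity) h4 2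
    have h6 : δ ^ 3 * R ≤ R ^ 3 * R := mul_le_mul_of_nonneg_right h3 hR.le
    nlinarith
  calc |2 * ρ - 6 * t ^ 2| * (δ ^ 3 * R) ≤ (10 * (ρ + t ^ 2)) * (ρ + t ^ 2) ^ 2 :=
        mul_le_mul h1 h2 (by positivity) (by positivity)
    _ = _ := by ring

end Run7.h108
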