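import Pool.Agent.Run7.h108.Static
import Pool.Agent.Run7.h108.Weight

/-!
# The weight of a family of nuclei
-/

set_option autoImplicit false

open scoped ENNReal ContDiff InnerProductSpace Topology
open MeasureTheory Filter

namespace Run7.h108

/-- regularised squared distance -/
noncomputable def rho (δ : ℝ) (y x : R3) : ℝ := ‖x - y‖ ^ 2 + δ ^ 2

theorem rho_ge (δ : ℝ) (y x : R3) : δ ^ 2 ≤ rho δ y x := by
  unfold rho; nlinarith [sq_nonneg ‖x - y‖]

theorem rho_pos {δ : ℝ} (hδ : 0 < δ) (y x : R3) : 0 < rho δ y x :=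
  lt_of_lt_of_le (by positivity) (rho_ge δ y x)

theorem norm_sq_R3 (x : R3) : ‖x‖ ^ 2 = x 0 ^ 2 + x 1 ^ 2 + x 2 ^ 2 := by
  rw [EuclideanSpace.norm_sq_eq, Fin.sum_univ_three]
  simp only [Real.norm_eq_abs, sq_abs]

theorem hasFDerivAt_rho (δ : ℝ) (y x : R3) :
    HasFDerivAt (rho δ y) (2 • (innerSL ℝ (x - y))) x := by
  have h1 : HasFDerivAt (fun x : R3 => x - y) (ContinuousLinearMap.id ℝ R3) x :=
    (hasFDerivAt_id x).sub_const y
  have h2 := h1.norm_sq
  have h3 := h2.add_const (δ ^ 2)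
  exact h3

theorem continuous_rho (δ : ℝ) (y : R3) : Continuous (rho δ y) := by
  unfold rho; fun_prop

theorem inner_ee (v : R3) (j : Fin 3) : ⟪v, ee j⟫_ℝ = v j := by
  unfold ee
  rw [EuclideanSpace.inner_single_right]
  simp

theorem comp_rho {δ : ℝ} {y : R3} {u : ℝ → ℝ} {u' : ℝ} {x : R3}
    (hu : HasDerivAt u u' (rho δ y x)) :
    HasFDerivAt (fun x => u (rho δ y x)) (u' • (2 • (innerSL ℝ (x - y)) : R3 →L[ℝ] ℝ)) x :=
  hu.comp_hasFDerivAt x (hasFDerivAt_rho δ y x)

theorem pd_comp_rho {δ : ℝ} {y : R3} {u : ℝ → ℝ} {u' : ℝ} {x : R3} (j : Fin 3)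
    (hu : HasDerivAt u u' (rho δ y x)) :
    pd j (fun x => u (rho δ y x)) x = 2 * u' * (x j - y j) := by
  unfold pd
  rw [(comp_rho hu).fderiv]
  simp only [smul_apply, innerSL_apply_apply, inner_ee, smul_eq_mul,
    nsmul_eq_mul, PiLp.sub_apply]
  push_cast
  ring

theorem hasFDerivAt_coord (j : Fin 3) (y x : R3) :
    HasFDerivAt (fun x : R3 => x j - y j) (EuclideanSpace.proj j : R3 →L[ℝ] ℝ) x := by
  have h := (EuclideanSpace.proj j : R3 →L[ℝ] ℝ).hasFDerivAt (x := x)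
  exact h.sub_const (y j)

theorem pd_coord (j : Fin 3) (y x : R3) : pd j (fun x : R3 => x j - y j) x = 1 := by
  unfold pd
  rw [(hasFDerivAt_coord j y x).fderiv]
  simp [ee]

/-- the differentiated single term -/
noncomputable def aP (δ t : ℝ) (y : R3) (j : Fin 3) (x : R3) : ℝ := wP (rho δ y x) t * (x j - y j)

noncomputable def aPP (δ t : ℝ) (y : R3) (j : Fin 3) (x : R3) : ℝ :=
  2 * wP2 (rho δ y x) t * (x j - y j) ^ 2 + wP (rho δ y x) t

section single

variable {δ : ℝ} (hδ : 0 < δ)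

include hδ

theorem diff_G (t : ℝ) (y : R3) : Differentiable ℝ (fun x => wG (rho δ y x) t) := fun x =>
  (comp_rho (hasDerivAt_wG (rho_pos hδ y x) t)).differentiableAt

theorem pd_G (t : ℝ) (y : R3) (j : Fin 3) (x : R3) :
    pd j (fun x => wG (rho δ y x) t) x = aP δ t y j x := by
  rw [pd_comp_rho j (hasDerivAt_wG (rho_pos hδ y x) t), aP]
  ring

theorem diff_P (t : ℝ) (y : R3) : Differentiable ℝ (fun x => wP (rho δ y x) t) := fun x =>
  (comp_rho (hasDerivAt_wP (rho_pos hδ y x) t)).differentiableAt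

theorem diff_aP (t : ℝ) (y : R3) (j : Fin 3) : Differentiable ℝ (aP δ t y j) := by
  have h1 : Differentiable ℝ (fun x : R3 => x j - y j) := fun x =>
    (hasFDerivAt_coord j y x).differentiableAt
  exact (diff_P hδ t y).fun_mul h1

theorem pd_aP (t : ℝ) (y : R3) (j : Fin 3) (x : R3) :
    pd j (aP δ t y j) x = aPP δ t y j x := by
  have h1 : Differentiable ℝ (fun x : R3 => x j - y j) := fun x =>
    (hasFDerivAt_coord j y x).differentiableAt
  have h2 : pd j (fun x => wP (rho δ y x) t * (x j - y j)) x = _ :=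
    pd_mul (diff_P hδ t y) h1 j x
  have h3 : aP δ t y j = fun x => wP (rho δ y x) t * (x j - y j) := rfl
  rw [h3, h2, pd_comp_rho j (hasDerivAt_wP (rho_pos hδ y x) t), pd_coord, aPP]
  ring

theorem cont_comp_rho {u : ℝ → ℝ} (hu : ∀ ρ, 0 < ρ → ContinuousAt u ρ) (y : R3) :
    Continuous (fun x => u (rho δ y x)) := by
  rw [continuous_iff_continuousAt]
  intro x
  exact ContinuousAt.comp (f := rho δ y) (g := u) (hu _ (rho_pos hδ y x))
    (continuous_rho δ y).continuousAt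

theorem cont_aPP (t : ℝ) (y : R3) (j : Fin 3) : Continuous (aPP δ t y j) := by
  have h1 : Continuous (fun x => wP (rho δ y x) t) := (diff_P hδ t y).continuous
  have h2 : Continuous (fun x => wP2 (rho δ y x) t) := by
    have hr := continuous_rho δ y
    have hp := fun x => rho_pos hδ y x
    unfold wP2
    refine ((continuous_const.mul h1).div hr fun x => (hp x).ne').sub
      (continuous_const.div (hr.mul ((hr.add continuous_const).pow 2)) fun x => ?_)
    have := hp x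
    have h4 : 0 < rho δ y x + t ^ 2 := by positivity
    positivity
  have h3 : Continuous (fun x : R3 => x j - y j) := by fun_prop
  exact ((continuous_const.mul h2).mul (h3.pow 2)).add h1

theorem single_super (t : ℝ) (y x : R3) :
    aPP δ t y 0 x + aPP δ t y 1 x + aPP δ t y 2 x + 2 * t / (rho δ y x + t ^ 2) ^ 2 ≤ 0 := by
  have hρ := rho_pos hδ y x
  have hs := super_ineq hρ t
  have hr2 : (x 0 - y 0) ^ 2 + (x 1 - y 1) ^ 2 + (x 2 - y 2) ^ 2 = rho δ y x - δ ^ 2 := by
    unfold rho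
    rw [norm_sq_R3]
    simp only [PiLp.sub_apply]
    ring
  unfold aPP
  generalize rho δ y x = ρ at hρ hs hr2 ⊢
  have e : 2 * wP2 ρ t * (x 0 - y 0) ^ 2 + wP ρ t + (2 * wP2 ρ t * (x 1 - y 1) ^ 2 + wP ρ t) +
      (2 * wP2 ρ t * (x 2 - y 2) ^ 2 + wP ρ t) + 2 * t / (ρ + t ^ 2) ^ 2 =
      2 * wP2 ρ t * (ρ - δ ^ 2) + 3 * wP ρ t + 2 * t / (ρ + t ^ 2) ^ 2 := by
    rw [← hr2]; ring
  rw [e]
  have e2 : 2 * wP2 ρ t * (ρ - δ ^ 2) + 3 * wP ρ t + 2 * t / (ρ + t ^ 2) ^ 2 =
      δ ^ 2 / ρ * (3 * wP ρ t + 2 * t / (ρ + t ^ 2) ^ 2) := by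
    unfold wP2
    have h1 : ρ + t ^ 2 ≠ 0 := by positivity
    have h2 : ρ ≠ 0 := hρ.ne'
    field_simp
    ring
  rw [e2]
  have : 0 ≤ δ ^ 2 / ρ := by positivity
  nlinarith

end single

section family

variable {ι : Type*} (S : Finset ι) (y : ι → R3) (τ δ : ℝ)

/-- the weight -/
noncomputable def ff (t : ℝ) (x : R3) : ℝ :=
  ∑ k ∈ S, (wG (rho δ (y k) x) t + wG (rho δ (y k) x) (2 * τ - t))

noncomputable def fft (t : ℝ) (x : R3) : ℝ :=
  ∑ k ∈ S, (-(1 / (rho δ (y k) x + t ^ 2)) + 1 / (rho δ (y k) x + (2 * τ - t) ^ 2))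

noncomputable def fftt (t : ℝ) (x : R3) : ℝ :=
  ∑ k ∈ S, (2 * t / (rho δ (y k) x + t ^ 2) ^ 2 +
    2 * (2 * τ - t) / (rho δ (y k) x + (2 * τ - t) ^ 2) ^ 2)

noncomputable def ffj (t : ℝ) (j : Fin 3) (x : R3) : ℝ :=
  ∑ k ∈ S, (aP δ t (y k) j x + aP δ (2 * τ - t) (y k) j x)

noncomputable def ffjj (t : ℝ) (j : Fin 3) (x : R3) : ℝ :=
  ∑ k ∈ S, (aPP δ t (y k) j x + aPP δ (2 * τ - t) (y k) j x)

variable {S y τ δ}

theorem diff_sum {u : ι → R3 → ℝ} (hu : ∀ k, Differentiable ℝ (u k)) :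
    Differentiable ℝ (fun x => ∑ k ∈ S, u k x) :=
  Differentiable.fun_sum fun k _ => hu k

theorem pd_sum {u : ι → R3 → ℝ} (hu : ∀ k, Differentiable ℝ (u k)) (j : Fin 3) (x : R3) :
    pd j (fun x => ∑ k ∈ S, u k x) x = ∑ k ∈ S, pd j (u k) x := by
  unfold pd
  rw [fderiv_fun_sum fun k _ => hu k x]
  simp

theorem pd_add' {u v : R3 → ℝ} (hu : Differentiable ℝ u) (hv : Differentiable ℝ v) (j : Fin 3)
    (x : R3) : pd j (fun x => u x + v x) x = pd j u x + pd j v x := by
  have h1 : HasFDerivAt (fun x => u x + v x) (fderiv ℝ u x + fderiv ℝ v x) x :=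
    (hu x).hasFDerivAt.add (hv x).hasFDerivAt
  unfold pd
  rw [h1.fderiv]
  rfl

theorem ff_pos (hS : S.Nonempty) (hδ : 0 < δ) (t : ℝ) (x : R3) : 0 < ff S y τ δ t x := by
  unfold ff
  refine Finset.sum_pos (fun k _ => ?_) hS
  exact add_pos (wG_pos (rho_pos hδ _ _) _) (wG_pos (rho_pos hδ _ _) _)

theorem cont_inv (hδ : 0 < δ) (t : ℝ) (y : R3) : Continuous fun x => 1 / (rho δ y x + t ^ 2) := by
  refine continuous_const.div ((continuous_rho δ y).add continuous_const) fun x => ?_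
  have := rho_pos hδ y x
  positivity

theorem cont_inv2 (hδ : 0 < δ) (t : ℝ) (y : R3) :
    Continuous fun x => 2 * t / (rho δ y x + t ^ 2) ^ 2 := by
  refine continuous_const.div (((continuous_rho δ y).add continuous_const).pow 2) fun x => ?_
  have := rho_pos hδ y x
  positivity

/-- the weight data -/
noncomputable def wdata (hS : S.Nonempty) (hδ : 0 < δ) (y : ι → R3) (τ t : ℝ) : WData where
  f := ff S y τ δ t
  ft := fft S y τ δ t
  ftt := fftt S y τ δ t
  fj := ffj S y τ δ t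
  fjj := ffjj S y τ δ t
  pos := ff_pos hS hδ t
  diff := diff_sum fun k => (diff_G hδ t (y k)).fun_add (diff_G hδ (2 * τ - t) (y k))
  pdf := by
    intro j x
    have h := pd_sum (S := S) (u := fun k x => wG (rho δ (y k) x) t + wG (rho δ (y k) x) (2 * τ - t))
      (fun k => (diff_G hδ t (y k)).fun_add (diff_G hδ (2 * τ - t) (y k))) j x
    refine h.trans ?_
    unfold ffj
    refine Finset.sum_congr rfl fun k _ => ?_
    rw [pd_add' (diff_G hδ t (y k)) (diff_G hδ (2 * τ - t) (y k)), pd_G hδ, pd_G hδ]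
  diffj := fun j => diff_sum fun k =>
    (diff_aP hδ t (y k) j).fun_add (diff_aP hδ (2 * τ - t) (y k) j)
  pdfj := by
    intro j x
    have h := pd_sum (S := S) (u := fun k x => aP δ t (y k) j x + aP δ (2 * τ - t) (y k) j x)
      (fun k => (diff_aP hδ t (y k) j).fun_add (diff_aP hδ (2 * τ - t) (y k) j)) j x
    refine h.trans ?_
    unfold ffjj
    refine Finset.sum_congr rfl fun k _ => ?_
    rw [pd_add' (diff_aP hδ t (y k) j) (diff_aP hδ (2 * τ - t) (y k) j), pd_aP hδ, pd_aP hδ]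
  cft := by
    unfold fft
    refine continuous_finsetSum _ fun k _ => ?_
    exact (cont_inv hδ t (y k)).neg.add (cont_inv hδ (2 * τ - t) (y k))
  cftt := by
    unfold fftt
    refine continuous_finsetSum _ fun k _ => ?_
    exact (cont_inv2 hδ t (y k)).add (cont_inv2 hδ (2 * τ - t) (y k))
  cfjj := by
    intro j
    unfold ffjj
    refine continuous_finsetSum _ fun k _ => ?_
    exact (cont_aPP hδ t (y k) j).add (cont_aPP hδ (2 * τ - t) (y k) j)
  super := by
    intro x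
    unfold ffjj fftt
    rw [← Finset.sum_add_distrib, ← Finset.sum_add_distrib, ← Finset.sum_add_distrib]
    refine Finset.sum_nonpos fun k _ => ?_
    have h1 := single_super hδ t (y k) x
    have h2 := single_super hδ (2 * τ - t) (y k) x
    linarith

end family

end Run7.h108
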