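import Mathlib

/-!
# The positive spectral subspace of the adjoint of a symmetric relation

`T0 ≤ E × E` is the graph of an operator on test vectors, `Adj T0` the graph of its adjoint
(the maximal operator).  `PosSpec (Adj T0) P` says that `P` is the orthogonal projection onto the
positive spectral subspace: it reduces the operator, which is real and positive on its range and
real and nonpositive on the orthogonal complement.
-/

set_option autoImplicit false

open scoped InnerProductSpace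

namespace Run7.h108

variable {E : Type*} [NormedAddCommGroup E] [InnerProductSpace ℂ E]

/-- The graph of the adjoint of the operator with graph `T0`. -/
def Adj (T0 : Submodule ℂ (E × E)) : Submodule ℂ (E × E) where
  carrier := {p | ∀ q ∈ T0, ⟪q.2, p.1⟫_ℂ = ⟪q.1, p.2⟫_ℂ}
  add_mem' := by
    intro a b ha hb q hq
    simp only [Prod.fst_add, Prod.snd_add, inner_add_right]
    rw [ha q hq, hb q hq]
  zero_mem' := by intro q _; simp
  smul_mem' := by
    intro c x hx q hq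
    simp only [Prod.smul_fst, Prod.smul_snd, inner_smul_right]
    rw [hx q hq]

theorem mem_Adj {T0 : Submodule ℂ (E × E)} {u g : E} :
    (u, g) ∈ Adj T0 ↔ ∀ q ∈ T0, ⟪q.2, u⟫_ℂ = ⟪q.1, g⟫_ℂ := Iff.rfl

theorem isClosed_Adj (T0 : Submodule ℂ (E × E)) : IsClosed (Adj T0 : Set (E × E)) := by
  have : (Adj T0 : Set (E × E)) = ⋂ q ∈ T0, {p : E × E | ⟪q.2, p.1⟫_ℂ = ⟪q.1, p.2⟫_ℂ} := by
    ext p; simp [Adj]
  rw [this]
  refine isClosed_biInter fun q _ => ?_
  exact isClosed_eq (continuous_const.inner continuous_fst) (continuous_const.inner continuous_snd)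

/-- `T0` is the graph of a symmetric densely defined operator. -/
structure Core (T0 : Submodule ℂ (E × E)) : Prop where
  sym : T0 ≤ Adj T0
  dense : ∀ g : E, (∀ q ∈ T0, ⟪q.1, g⟫_ℂ = 0) → g = 0

/-- `P` is the orthogonal projection onto the positive spectral subspace of the operator with
graph `Γ`. -/
structure PosSpec (Γ : Submodule ℂ (E × E)) (P : E →L[ℂ] E) : Prop where
  idem : ∀ x, P (P x) = P x
  sa : ∀ x y, ⟪P x, y⟫_ℂ = ⟪x, P y⟫_ℂ
  reduce : ∀ u g, (u, g) ∈ Γ → (P u, P g) ∈ Γ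
  pos : ∀ u g, (u, g) ∈ Γ → P u = u → u ≠ 0 → (⟪u, g⟫_ℂ).im = 0 ∧ 0 < (⟪u, g⟫_ℂ).re
  neg : ∀ u g, (u, g) ∈ Γ → P u = 0 → (⟪u, g⟫_ℂ).im = 0 ∧ (⟪u, g⟫_ℂ).re ≤ 0

theorem re_self (x : E) : (⟪x, x⟫_ℂ).re = ‖x‖ ^ 2 := by
  have := @inner_self_eq_norm_sq ℂ E _ _ _ x
  simpa using this

variable {T0 : Submodule ℂ (E × E)} {P : E →L[ℂ] E}

namespace PosSpec

theorem real_form (h : PosSpec (Adj T0) P) {u g : E} (hu : (u, g) ∈ Adj T0) :
    (⟪u, g⟫_ℂ).im = 0 := by
  have h1 := h.reduce u g hu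
  have h2 : (u - P u, g - P g) ∈ Adj T0 := by
    have := (Adj T0).sub_mem hu h1
    simpa using this
  have e1 : (⟪P u, P g⟫_ℂ).im = 0 := by
    by_cases h0 : P u = 0
    · simp [h0]
    · exact (h.pos _ _ h1 (h.idem u) h0).1
  have e2 : (⟪u - P u, g - P g⟫_ℂ).im = 0 := by
    refine (h.neg _ _ h2 ?_).1
    simp [h.idem]
  have e3 : ⟪u, g⟫_ℂ = ⟪P u, P g⟫_ℂ + ⟪u - P u, g - P g⟫_ℂ := by
    have a1 : ⟪P u, g⟫_ℂ = ⟪P u, P g⟫_ℂ := by
      rw [← h.idem u, h.sa, h.idem]
    have a2 : ⟪u, P g⟫_ℂ = ⟪P u, P g⟫_ℂ := by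
      rw [← h.idem g, ← h.sa, h.idem]
    rw [inner_sub_left, inner_sub_right, inner_sub_right, a1, a2]
    ring
  rw [e3, Complex.add_im, e1, e2, add_zero]

/-- The operator is symmetric. -/
theorem symm (h : PosSpec (Adj T0) P) {u g u' g' : E} (hu : (u, g) ∈ Adj T0)
    (hu' : (u', g') ∈ Adj T0) : ⟪u, g'⟫_ℂ = ⟪g, u'⟫_ℂ := by
  have k1 : (⟪u, g⟫_ℂ).im = 0 := h.real_form hu
  have k2 : (⟪u', g'⟫_ℂ).im = 0 := h.real_form hu'
  have k3 : (⟪u + u', g + g'⟫_ℂ).im = 0 := h.real_form ((Adj T0).add_mem hu hu')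
  have k4 : (⟪u + Complex.I • u', g + Complex.I • g'⟫_ℂ).im = 0 :=
    h.real_form ((Adj T0).add_mem hu ((Adj T0).smul_mem Complex.I hu'))
  have c1 : ⟪g, u'⟫_ℂ = (starRingEnd ℂ) ⟪u', g⟫_ℂ := (inner_conj_symm g u').symm
  simp only [inner_add_left, inner_add_right, inner_smul_left, inner_smul_right,
    Complex.add_im, Complex.conj_I] at k3 k4
  rw [c1]
  apply Complex.ext
  · simp only [Complex.conj_re]
    simp only [Complex.mul_im, Complex.neg_im, Complex.neg_re, Complex.I_re, Complex.I_im,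
      Complex.add_re, Complex.mul_re] at k4
    linarith
  · simp only [Complex.conj_im]
    linarith

theorem fst_zero (hc : Core T0) {g : E} (hg : ((0 : E), g) ∈ Adj T0) : g = 0 := by
  refine hc.dense g fun q hq => ?_
  have := hg q hq
  simpa using this.symm

theorem snd_mem (h : PosSpec (Adj T0) P) (hc : Core T0)
    {u g : E} (hu : (u, g) ∈ Adj T0) (hP : P u = u) : P g = g := by
  have h1 := (Adj T0).sub_mem hu (h.reduce u g hu)
  rw [hP] at h1
  have h2 : g - P g = 0 := fst_zero hc (by simpa using h1)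
  exact (sub_eq_zero.mp h2).symm

theorem re_nonneg (h : PosSpec (Adj T0) P) {u g : E} (hu : (u, g) ∈ Adj T0) (hP : P u = u) :
    0 ≤ (⟪u, g⟫_ℂ).re := by
  by_cases h0 : u = 0
  · simp [h0]
  · exact (h.pos u g hu hP h0).2.le

theorem le_norm_add (h : PosSpec (Adj T0) P) {u g : E} (hu : (u, g) ∈ Adj T0) (hP : P u = u) :
    ‖u‖ ^ 2 + ‖g‖ ^ 2 ≤ ‖u + g‖ ^ 2 := by
  have h1 := h.re_nonneg hu hP
  have h2 := @norm_add_sq ℂ E _ _ _ u g
  simp only [RCLike.re_to_complex] at h2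
  linarith

/-- `T + 1` maps onto the range of `P`. -/
theorem exists_resolvent [CompleteSpace E] (h : PosSpec (Adj T0) P) (hc : Core T0) (x : E) :
    ∃ u : E, P u = u ∧ (u, P x - u) ∈ Adj T0 := by
  classical
  -- the closed subspace of all `(u,g)` in the graph with `P u = u`
  let K : Submodule ℂ (E × E) :=
    { carrier := {p | p ∈ Adj T0 ∧ P p.1 = p.1}
      add_mem' := by
        rintro a b ⟨ha, ha'⟩ ⟨hb, hb'⟩
        refine ⟨(Adj T0).add_mem ha hb, ?_⟩
        simp [ha', hb']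
      zero_mem' := by simp
      smul_mem' := by
        rintro c a ⟨ha, ha'⟩
        refine ⟨(Adj T0).smul_mem c ha, ?_⟩
        simp [ha'] }
  have hKc : IsClosed (K : Set (E × E)) := by
    have : (K : Set (E × E)) = (Adj T0 : Set (E × E)) ∩ {p | P p.1 = p.1} := rfl
    rw [this]
    exact (isClosed_Adj T0).inter
      (isClosed_eq (P.continuous.comp continuous_fst) continuous_fst)
  have : CompleteSpace K := hKc.completeSpace_coe
  let A : K →L[ℂ] E :=
    ((ContinuousLinearMap.fst ℂ E E) + (ContinuousLinearMap.snd ℂ E E)).comp K.subtypeL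
  have hA : ∀ k : K, A k = k.1.1 + k.1.2 := fun k => rfl
  have hbound : ∀ k : K, ‖k‖ ≤ ‖A k‖ := by
    intro k
    have h1 := h.le_norm_add (u := k.1.1) (g := k.1.2) k.2.1 k.2.2
    rw [hA]
    have h2 : ‖k‖ = max ‖k.1.1‖ ‖k.1.2‖ := rfl
    rw [h2]
    refine max_le ?_ ?_
    · refine le_of_sq_le_sq ?_ (norm_nonneg _)
      nlinarith [sq_nonneg ‖k.1.2‖]
    · refine le_of_sq_le_sq ?_ (norm_nonneg _)
      nlinarith [sq_nonneg ‖k.1.1‖]
  have hanti : AntilipschitzWith 1 A := by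
    refine AddMonoidHomClass.antilipschitz_of_bound A (K := 1) ?_
    intro k; simpa using hbound k
  have hclosed : IsClosed (Set.range A) := hanti.isClosed_range A.uniformContinuous
  let R : Submodule ℂ E := LinearMap.range A.toLinearMap
  have hRc : IsClosed (R : Set E) := hclosed
  have : CompleteSpace R := hRc.completeSpace_coe
  have hRP : ∀ r ∈ R, P r = r := by
    rintro r ⟨k, rfl⟩
    have hk := k.2
    have h3 : P k.1.2 = k.1.2 := h.snd_mem hc hk.1 hk.2
    change P (k.1.1 + k.1.2) = k.1.1 + k.1.2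
    rw [map_add, hk.2, h3]
  have hmem : P x ∈ R := by
    obtain ⟨y, hydef⟩ : ∃ y : E, y = P x - R.starProjection (P x) := ⟨_, rfl⟩
    have hy : y ∈ Rᗮ := by
      rw [hydef]; exact Submodule.sub_starProjection_mem_orthogonal (K := R) (P x)
    have hyP : P y = y := by
      rw [hydef, map_sub, h.idem, hRP _ (Submodule.starProjection_apply_mem R (P x))]
    have hy2 : (y, -y) ∈ Adj T0 := by
      intro q hq
      have hq1 : (P q.1, P q.2) ∈ Adj T0 := h.reduce q.1 q.2 (hc.sym hq)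
      have hq2 : P q.1 + P q.2 ∈ R := ⟨⟨(P q.1, P q.2), hq1, h.idem _⟩, rfl⟩
      have h4 : ⟪P q.1 + P q.2, y⟫_ℂ = 0 := (Submodule.mem_orthogonal R y).1 hy _ hq2
      rw [← map_add, h.sa, hyP, inner_add_left] at h4
      change ⟪q.2, y⟫_ℂ = ⟪q.1, -y⟫_ℂ
      rw [inner_neg_right]
      linear_combination h4
    have h5 : y = 0 := by
      by_contra h0
      have h6 := (h.pos y (-y) hy2 hyP h0).2
      rw [inner_neg_right, Complex.neg_re, re_self] at h6
      nlinarith [sq_nonneg ‖y‖]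
    rw [h5] at hydef
    have h7 : P x = R.starProjection (P x) := (sub_eq_zero.mp hydef.symm)
    rw [h7]
    exact Submodule.starProjection_apply_mem R (P x)
  obtain ⟨k, hk⟩ := hmem
  refine ⟨k.1.1, k.2.2, ?_⟩
  have : P x - k.1.1 = k.1.2 := by
    rw [← hk]; change (k.1.1 + k.1.2) - k.1.1 = k.1.2; abel
  rw [this]
  exact k.2.1

theorem resolvent_unique (h : PosSpec (Adj T0) P) {x u u' : E}
    (hu : P u = u) (hu1 : (u, x - u) ∈ Adj T0) (hu' : P u' = u') (hu1' : (u', x - u') ∈ Adj T0) :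
    u = u' := by
  have h1 := (Adj T0).sub_mem hu1 hu1'
  have h2 : (u - u', -(u - u')) ∈ Adj T0 := by
    have : (u, x - u) - (u', x - u') = (u - u', -(u - u')) := by
      ext <;> simp
    rwa [this] at h1
  by_contra h0
  have h3 : u - u' ≠ 0 := sub_ne_zero.mpr h0
  have h6 := (h.pos _ _ h2 (by simp [hu, hu']) h3).2
  rw [inner_neg_right, Complex.neg_re, re_self] at h6
  nlinarith [sq_nonneg ‖u - u'‖]

/-- The resolvent `(T + 1)⁻¹ P` of the restriction `T` of the operator to the range of `P`. -/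
theorem exists_S [CompleteSpace E] (h : PosSpec (Adj T0) P) (hc : Core T0) :
    ∃ S : E →L[ℂ] E, (∀ x, P (S x) = S x) ∧ (∀ x, (S x, P x - S x) ∈ Adj T0) ∧
      (∀ x, ‖S x‖ ≤ ‖x‖) := by
  classical
  choose s hs1 hs2 using h.exists_resolvent hc
  have hPle : ∀ x, ‖P x‖ ≤ ‖x‖ := by
    intro x
    have h1 : ‖P x‖ ^ 2 = (⟪x, P x⟫_ℂ).re := by
      have : ⟪P x, P x⟫_ℂ = ⟪x, P x⟫_ℂ := by rw [h.sa, h.idem]
      rw [← this, inner_self_eq_norm_sq_to_K]; norm_cast
    have h2 : (⟪x, P x⟫_ℂ).re ≤ ‖x‖ * ‖P x‖ :=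
      (Complex.re_le_norm _).trans (norm_inner_le_norm _ _)
    by_cases h0 : ‖P x‖ = 0
    · rw [h0]; exact norm_nonneg _
    · have h3 : 0 < ‖P x‖ := lt_of_le_of_ne (norm_nonneg _) (Ne.symm h0)
      have h4 : ‖P x‖ * ‖P x‖ ≤ ‖x‖ * ‖P x‖ := by nlinarith
      exact le_of_mul_le_mul_right h4 h3
  have hadd : ∀ x y, s (x + y) = s x + s y := by
    intro x y
    refine h.resolvent_unique (x := P (x + y)) (hs1 _) (hs2 _) ?_ ?_
    · simp [hs1]
    · have := (Adj T0).add_mem (hs2 x) (hs2 y)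
      have e : (s x, P x - s x) + (s y, P y - s y) = (s x + s y, P (x + y) - (s x + s y)) := by
        ext <;> simp [map_add]; abel
      rwa [e] at this
  have hsmul : ∀ (c : ℂ) x, s (c • x) = c • s x := by
    intro c x
    refine h.resolvent_unique (x := P (c • x)) (hs1 _) (hs2 _) ?_ ?_
    · simp [hs1]
    · have := (Adj T0).smul_mem c (hs2 x)
      have e : c • (s x, P x - s x) = (c • s x, P (c • x) - c • s x) := by
        ext <;> simp [smul_sub]
      rwa [e] at this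
  have hle : ∀ x, ‖s x‖ ≤ 1 * ‖x‖ := by
    intro x
    have h1 := h.le_norm_add (hs2 x) (hs1 x)
    have h2 : s x + (P x - s x) = P x := by abel
    rw [h2] at h1
    rw [one_mul]
    refine le_trans ?_ (hPle x)
    refine le_of_sq_le_sq ?_ (norm_nonneg _)
    nlinarith [sq_nonneg ‖P x - s x‖]
  refine ⟨LinearMap.mkContinuous ⟨⟨s, hadd⟩, hsmul⟩ 1 hle, hs1, hs2, ?_⟩
  intro x; simpa using hle x

end PosSpec

end Run7.h108
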