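import Pool.Agent.Run7.h108.Closure
import Pool.Agent.Run7.h108.ExpFun

set_option autoImplicit false

open scoped InnerProductSpace Topology
open Filter

namespace Run7.h108

variable {E : Type*} [NormedAddCommGroup E] [InnerProductSpace ℂ E] [CompleteSpace E]

/-- the bounded operator `Ek k t S` -/
noncomputable def XE (S : E →L[ℂ] E) (k : ℕ) (t : ℝ) : E →L[ℂ] E := cfc (Ek k t) S

variable {S : E →L[ℂ] E}

theorem cfcM (S : E →L[ℂ] E) {f g : ℝ → ℝ} (hf : Continuous f) (hg : Continuous g) :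
    cfc f S * cfc g S = cfc (fun s => f s * g s) S :=
  (cfc_mul f g S hf.continuousOn hg.continuousOn).symm

theorem cfcS (S : E →L[ℂ] E) {f g : ℝ → ℝ} (hf : Continuous f) (hg : Continuous g) :
    cfc f S - cfc g S = cfc (fun s => f s - g s) S :=
  (cfc_sub f g S hf.continuousOn hg.continuousOn).symm

theorem cfcA (S : E →L[ℂ] E) {f g : ℝ → ℝ} (hf : Continuous f) (hg : Continuous g) :
    cfc f S + cfc g S = cfc (fun s => f s + g s) S :=
  (cfc_add S f g hf.continuousOn hg.continuousOn).symm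

theorem cfcC (S : E →L[ℂ] E) (c : ℝ) {f : ℝ → ℝ} (hf : Continuous f) :
    c • cfc f S = cfc (fun s => c * f s) S :=
  (cfc_const_mul c f S hf.continuousOn).symm

theorem spec_S (hS0 : 0 ≤ S) (hS1 : ‖S‖ ≤ 1) : ∀ s ∈ spectrum ℝ S, s ∈ Set.Icc (0 : ℝ) 1 := by
  intro s hs
  refine ⟨spectrum_nonneg_of_nonneg hS0 hs, ?_⟩
  have h1 : ‖s‖ ≤ ‖S‖ * ‖(1 : E →L[ℂ] E)‖ := spectrum.norm_le_norm_mul_of_mem hs
  have h2 : ‖(1 : E →L[ℂ] E)‖ ≤ 1 := ContinuousLinearMap.norm_id_le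
  have h3 : s ≤ ‖s‖ := le_abs_self s
  nlinarith [norm_nonneg S, norm_nonneg (1 : E →L[ℂ] E)]

theorem XE_mul (hS0 : 0 ≤ S) (k : ℕ) {t : ℝ} (ht : 0 < t) : S * XE S (k + 1) t = XE S k t := by
  have hsa : IsSelfAdjoint S := IsSelfAdjoint.of_nonneg hS0
  have h1 : cfc (fun s : ℝ => s) S = S := cfc_id' ℝ S
  have h2 := cfcM S (f := fun s : ℝ => s) (g := Ek (k + 1) t) (by fun_prop)
    (continuous_Ek (k + 1) ht)
  rw [h1] at h2
  unfold XE
  rw [h2]
  congr 1
  ext s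
  exact mul_Ek k t s

theorem norm_XE_zero_le (hS0 : 0 ≤ S) (hS1 : ‖S‖ ≤ 1) {t : ℝ} (ht : 0 ≤ t) :
    ‖XE S 0 t‖ ≤ 1 := by
  unfold XE
  refine norm_cfc_le zero_le_one fun s hs => ?_
  rw [Real.norm_eq_abs, abs_of_nonneg (Ek_nonneg _ _ _)]
  exact Ek_zero_le ht (spec_S hS0 hS1 s hs).2

theorem hasDerivAt_XE (hS0 : 0 ≤ S) (hS1 : ‖S‖ ≤ 1) (k : ℕ) {t : ℝ} (ht : 0 < t) :
    HasDerivAt (fun t => XE S k t) (-(XE S (k + 1) t - XE S k t)) t := by
  have hsa : IsSelfAdjoint S := IsSelfAdjoint.of_nonneg hS0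
  obtain ⟨C, hC0, hC⟩ := Ek_taylor k ht
  rw [hasDerivAt_iff_isLittleO_nhds_zero]
  have key : ∀ h : ℝ, |h| ≤ t / 2 →
      ‖XE S k (t + h) - XE S k t - h • (-(XE S (k + 1) t - XE S k t))‖ ≤ C * h ^ 2 := by
    intro h hh
    have ht' : 0 < t + h := by
      have := neg_abs_le h
      linarith
    have c1 := continuous_Ek k ht'
    have c2 := continuous_Ek k ht
    have c3 := continuous_Ek (k + 1) ht
    have c4 : Continuous (fun s => Ek (k + 1) t s - Ek k t s) := c3.sub c2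
    have c5 : Continuous (fun s => Ek k (t + h) s - Ek k t s) := c1.sub c2
    have c6 : Continuous (fun s => h * (Ek (k + 1) t s - Ek k t s)) := continuous_const.mul c4
    have e1 : XE S k (t + h) - XE S k t - h • (-(XE S (k + 1) t - XE S k t)) =
        cfc (fun s => Ek k (t + h) s - Ek k t s + h * (Ek (k + 1) t s - Ek k t s)) S := by
      unfold XE
      rw [smul_neg, sub_neg_eq_add, cfcS S c1 c2, cfcS S c3 c2, cfcC S h c4,
        cfcA S c5 c6]
    rw [e1]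
    refine norm_cfc_le (by positivity) fun s hs => ?_
    exact hC h hh s (spec_S hS0 hS1 s hs)
  rw [Asymptotics.isLittleO_iff]
  intro c hc
  have hpos : 0 < min (t / 2) (c / (C + 1)) := by positivity
  filter_upwards [Metric.ball_mem_nhds (0 : ℝ) hpos] with h hh
  rw [Metric.mem_ball, Real.dist_eq, sub_zero] at hh
  have h1 : |h| ≤ t / 2 := (hh.trans_le (min_le_left _ _)).le
  have h2 : |h| ≤ c / (C + 1) := (hh.trans_le (min_le_right _ _)).le
  refine (key h h1).trans ?_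
  rw [Real.norm_eq_abs, ← sq_abs, sq, ← mul_assoc]
  refine mul_le_mul_of_nonneg_right ?_ (abs_nonneg h)
  have h3 : C * |h| ≤ C * (c / (C + 1)) := mul_le_mul_of_nonneg_left h2 hC0
  refine h3.trans ?_
  rw [mul_div_assoc', div_le_iff₀ (by positivity)]
  nlinarith

/-- strong continuity at `0` on the range of `S` -/
theorem XE_zero_sub (hS0 : 0 ≤ S) (hS1 : ‖S‖ ≤ 1) {t : ℝ} (ht : 0 < t) (x : E) :
    ‖XE S 0 t (S x) - S x‖ ≤ t * ‖x‖ := by
  have hsa : IsSelfAdjoint S := IsSelfAdjoint.of_nonneg hS0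
  have h1 : cfc (fun s : ℝ => s) S = S := cfc_id' ℝ S
  have c0 := continuous_Ek 0 ht
  have hid : Continuous (fun s : ℝ => s) := continuous_id
  have c7 : Continuous (fun s => Ek 0 t s * s) := c0.mul hid
  have h2 : XE S 0 t * S - S = cfc (fun s => Ek 0 t s * s - s) S := by
    rw [← cfcS S c7 hid, ← cfcM S c0 hid, h1]
    rfl
  have h3 : ‖XE S 0 t * S - S‖ ≤ t := by
    rw [h2]
    refine norm_cfc_le ht.le fun s hs => ?_
    obtain ⟨hs0, hs1⟩ := spec_S hS0 hS1 s hs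
    rw [Real.norm_eq_abs]
    by_cases h0 : 0 < s
    · rw [Ek_pos h0, pow_zero, one_mul]
      obtain ⟨y, hy⟩ : ∃ y, y = 1 / s - 1 := ⟨_, rfl⟩
      have hy0 : 0 ≤ y := by
        rw [hy, sub_nonneg, le_div_iff₀ h0]; linarith
      rw [← hy]
      have h4 : 1 - t * y ≤ Real.exp (-t * y) := by
        have := Real.add_one_le_exp (-t * y); linarith
      have h5 : Real.exp (-t * y) ≤ 1 := by
        rw [Real.exp_le_one_iff]; nlinarith
      have h6 : s * y = 1 - s := by rw [hy]; field_simp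
      rw [abs_le]
      constructor
      · nlinarith
      · nlinarith
    · have : s = 0 := le_antisymm (not_lt.1 h0) hs0
      rw [this]; simp [ht.le]
  have h4 : XE S 0 t (S x) - S x = (XE S 0 t * S - S) x := by
    simp
  rw [h4]
  exact (ContinuousLinearMap.le_opNorm _ _).trans (mul_le_mul_of_nonneg_right h3 (norm_nonneg _))

/-- energy of the orbit -/
theorem energy_XE (hS0 : 0 ≤ S) (hS1 : ‖S‖ ≤ 1) {t : ℝ} (ht : 0 < t) (x : E) :
    (⟪XE S 0 t (S x), XE S 1 t (S x) - XE S 0 t (S x)⟫_ℂ).re ≤ (⟪S x, x - S x⟫_ℂ).re := by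
  have hsa : IsSelfAdjoint S := IsSelfAdjoint.of_nonneg hS0
  have h1 : cfc (fun s : ℝ => s) S = S := cfc_id' ℝ S
  have hone : cfc (fun _ : ℝ => (1 : ℝ)) S = 1 := cfc_const_one ℝ S
  have c0 := continuous_Ek 0 ht
  have c1 := continuous_Ek 1 ht
  have hid : Continuous (fun s : ℝ => s) := continuous_id
  have hco : Continuous (fun _ : ℝ => (1 : ℝ)) := continuous_const
  have c8 : Continuous (fun s => s * Ek 0 t s) := hid.mul c0
  have c9 : Continuous (fun s => Ek 1 t s - Ek 0 t s) := c1.sub c0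
  have c10 : Continuous (fun s => (Ek 1 t s - Ek 0 t s) * s) := c9.mul hid
  have c11 : Continuous (fun s : ℝ => 1 - s) := hco.sub hid
  have c12 : Continuous (fun s : ℝ => s * (1 - s)) := hid.mul c11
  -- the two operators
  have e1 : S * XE S 0 t * ((XE S 1 t - XE S 0 t) * S) =
      cfc (fun s => (s * Ek 0 t s) * ((Ek 1 t s - Ek 0 t s) * s)) S := by
    rw [← cfcM S c8 c10, ← cfcM S hid c0,
      ← cfcM S c9 hid, ← cfcS S c1 c0, h1]
    rfl
  have e2 : S * ((1 : E →L[ℂ] E) - S) = cfc (fun s : ℝ => s * (1 - s)) S := by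
    rw [← cfcM S hid c11, ← cfcS S hco hid, h1, hone]
  have hle : S * XE S 0 t * ((XE S 1 t - XE S 0 t) * S) ≤ S * (1 - S) := by
    rw [e1, e2]
    refine cfc_mono (fun s hs => ?_) (c8.mul c10).continuousOn c12.continuousOn
    obtain ⟨hs0, hs1⟩ := spec_S hS0 hS1 s hs
    have hm : s * Ek 1 t s = Ek 0 t s := mul_Ek 0 t s
    have e3 : (s * Ek 0 t s) * ((Ek 1 t s - Ek 0 t s) * s) =
        s * (1 - s) * (Ek 0 t s) ^ 2 := by
      linear_combination (s * Ek 0 t s) * hm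
    rw [e3]
    have h6 : Ek 0 t s ≤ 1 := Ek_zero_le ht.le hs1
    have h7 : 0 ≤ Ek 0 t s := Ek_nonneg _ _ _
    have h8 : (Ek 0 t s) ^ 2 ≤ 1 := by nlinarith
    have h9 : 0 ≤ s * (1 - s) := mul_nonneg hs0 (by linarith)
    nlinarith
  have h2 : 0 ≤ S * (1 - S) - S * XE S 0 t * ((XE S 1 t - XE S 0 t) * S) := sub_nonneg.2 hle
  rw [ContinuousLinearMap.nonneg_iff_isPositive] at h2
  have h3 := h2.re_inner_nonneg_right x
  have hsym : ∀ a b : E, ⟪S a, b⟫_ℂ = ⟪a, S b⟫_ℂ := fun a b => hsa.isSymmetric a b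
  have hX : IsSelfAdjoint (XE S 0 t) := by
    unfold XE; exact cfc_predicate _ _
  have hsymX : ∀ a b : E, ⟪XE S 0 t a, b⟫_ℂ = ⟪a, XE S 0 t b⟫_ℂ := fun a b =>
    hX.isSymmetric a b
  have e4 : (S * (1 - S) - S * XE S 0 t * ((XE S 1 t - XE S 0 t) * S)) x =
      S (x - S x) - S (XE S 0 t (XE S 1 t (S x) - XE S 0 t (S x))) := rfl
  rw [e4, inner_sub_right] at h3
  rw [hsymX, hsym, hsym]
  have h5 : RCLike.re (⟪x, S (x - S x)⟫_ℂ - ⟪x, S (XE S 0 t (XE S 1 t (S x) - XE S 0 t (S x)))⟫_ℂ) =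
    (⟪x, S (x - S x)⟫_ℂ).re - (⟪x, S (XE S 0 t (XE S 1 t (S x) - XE S 0 t (S x)))⟫_ℂ).re := rfl
  rw [h5] at h3
  linarith

end Run7.h108
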