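import Mathlib

/-!
# A slicing inequality of Ladyzhenskaya type
-/

set_option autoImplicit false

open scoped ENNReal
open MeasureTheory

namespace Run7.h108

theorem sq_rpow_half (a : ℝ≥0∞) : (a ^ 2) ^ (1 / 2 : ℝ) = a := by
  rw [← ENNReal.rpow_two, ← ENNReal.rpow_mul]
  norm_num

theorem half_mul_half (a : ℝ≥0∞) : a ^ (1 / 2 : ℝ) * a ^ (1 / 2 : ℝ) = a := by
  rw [← ENNReal.rpow_add_of_nonneg _ _ (by norm_num) (by norm_num)]
  norm_num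

theorem cs_lint {α : Type*} [MeasurableSpace α] {μ : Measure α} {f g : α → ℝ≥0∞}
    (hf : AEMeasurable f μ) (hg : AEMeasurable g μ) :
    ∫⁻ a, f a * g a ∂μ ≤ (∫⁻ a, f a ^ 2 ∂μ) ^ (1 / 2 : ℝ) * (∫⁻ a, g a ^ 2 ∂μ) ^ (1 / 2 : ℝ) := by
  have h := ENNReal.lintegral_mul_norm_pow_le (μ := μ) (f := fun a => f a ^ 2)
    (g := fun a => g a ^ 2) (hf.pow_const 2) (hg.pow_const 2) (p := 1 / 2) (q := 1 / 2)
    (by norm_num) (by norm_num) (by norm_num)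
  simpa only [sq_rpow_half] using h

/-- The slicing inequality. -/
theorem slicing {S G0 G1 G2 : ℝ × ℝ × ℝ → ℝ≥0∞} (hS : Measurable S) (m0 : Measurable G0)
    (m1 : Measurable G1) (m2 : Measurable G2)
    (h0 : ∀ (x : ℝ) (p : ℝ × ℝ), S (x, p) ^ 2 ≤ ∫⁻ x', S (x', p) * G0 (x', p))
    (h1 : ∀ x y z : ℝ, S (x, y, z) ^ 2 ≤ ∫⁻ y', S (x, y', z) * G1 (x, y', z))
    (h2 : ∀ x y z : ℝ, S (x, y, z) ^ 2 ≤ ∫⁻ z', S (x, y, z') * G2 (x, y, z')) :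
    ∫⁻ q, S q ^ 4 ≤ (∫⁻ q, S q ^ 2) ^ (1 / 2 : ℝ) * (∫⁻ q, G0 q ^ 2) ^ (1 / 2 : ℝ) *
      ((∫⁻ q, G1 q ^ 2) ^ (1 / 2 : ℝ) * (∫⁻ q, G2 q ^ 2) ^ (1 / 2 : ℝ)) := by
  have mS0 : Measurable fun q => S q * G0 q := hS.mul m0
  have mS1 : Measurable fun q => S q * G1 q := hS.mul m1
  have mS2 : Measurable fun q => S q * G2 q := hS.mul m2
  have msec : ∀ (F : ℝ × ℝ × ℝ → ℝ≥0∞), Measurable F → ∀ x : ℝ,
      Measurable fun p : ℝ × ℝ => F (x, p) := fun F hF x => hF.comp measurable_prodMk_left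
  -- the bound of the mass on slices
  have hM : ∀ x : ℝ, ∫⁻ p : ℝ × ℝ, S (x, p) ^ 2 ≤
      (∫⁻ q, S q ^ 2) ^ (1 / 2 : ℝ) * (∫⁻ q, G0 q ^ 2) ^ (1 / 2 : ℝ) := by
    intro x
    calc ∫⁻ p : ℝ × ℝ, S (x, p) ^ 2 ≤ ∫⁻ p : ℝ × ℝ, ∫⁻ x', S (x', p) * G0 (x', p) :=
          lintegral_mono fun p => h0 x p
      _ = ∫⁻ q : ℝ × ℝ × ℝ, S q * G0 q :=
          (lintegral_prod_symm (μ := (volume : Measure ℝ)) (ν := (volume : Measure (ℝ × ℝ)))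
            _ mS0.aemeasurable).symm
      _ ≤ _ := cs_lint hS.aemeasurable m0.aemeasurable
  -- slices
  have hsl : ∀ x : ℝ, ∫⁻ p : ℝ × ℝ, S (x, p) ^ 4 ≤
      (∫⁻ p : ℝ × ℝ, S (x, p) ^ 2) * ((∫⁻ p : ℝ × ℝ, G1 (x, p) ^ 2) ^ (1 / 2 : ℝ) *
        (∫⁻ p : ℝ × ℝ, G2 (x, p) ^ 2) ^ (1 / 2 : ℝ)) := by
    intro x
    have mA : Measurable fun z : ℝ => ∫⁻ y', S (x, y', z) * G1 (x, y', z) :=
      (msec _ mS1 x).lintegral_prod_left'
    have mB : Measurable fun y : ℝ => ∫⁻ z', S (x, y, z') * G2 (x, y, z') :=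
      (msec _ mS2 x).lintegral_prod_right'
    calc ∫⁻ p : ℝ × ℝ, S (x, p) ^ 4 = ∫⁻ y, ∫⁻ z, S (x, y, z) ^ 4 := by
          rw [Measure.volume_eq_prod, lintegral_prod _ ((msec _ hS x).pow_const 4).aemeasurable]
      _ ≤ ∫⁻ y, ∫⁻ z, (∫⁻ y', S (x, y', z) * G1 (x, y', z)) *
            (∫⁻ z', S (x, y, z') * G2 (x, y, z')) := by
          refine lintegral_mono fun y => lintegral_mono fun z => ?_
          have e : S (x, y, z) ^ 4 = S (x, y, z) ^ 2 * S (x, y, z) ^ 2 := by ring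
          simp only
          rw [e]
          exact mul_le_mul' (h1 x y z) (h2 x y z)
      _ = ∫⁻ y, (∫⁻ z, ∫⁻ y', S (x, y', z) * G1 (x, y', z)) *
            (∫⁻ z', S (x, y, z') * G2 (x, y, z')) := by
          refine lintegral_congr fun y => ?_
          rw [lintegral_mul_const _ mA]
      _ = (∫⁻ z, ∫⁻ y', S (x, y', z) * G1 (x, y', z)) *
            (∫⁻ y, ∫⁻ z', S (x, y, z') * G2 (x, y, z')) := by
          rw [lintegral_const_mul _ mB]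
      _ = (∫⁻ p : ℝ × ℝ, S (x, p) * G1 (x, p)) * (∫⁻ p : ℝ × ℝ, S (x, p) * G2 (x, p)) := by
          rw [Measure.volume_eq_prod, lintegral_prod_symm _ (msec _ mS1 x).aemeasurable,
            lintegral_prod _ (msec _ mS2 x).aemeasurable]
      _ ≤ ((∫⁻ p : ℝ × ℝ, S (x, p) ^ 2) ^ (1 / 2 : ℝ) *
            (∫⁻ p : ℝ × ℝ, G1 (x, p) ^ 2) ^ (1 / 2 : ℝ)) *
          ((∫⁻ p : ℝ × ℝ, S (x, p) ^ 2) ^ (1 / 2 : ℝ) *
            (∫⁻ p : ℝ × ℝ, G2 (x, p) ^ 2) ^ (1 / 2 : ℝ)) :=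
          mul_le_mul' (cs_lint (msec _ hS x).aemeasurable (msec _ m1 x).aemeasurable)
            (cs_lint (msec _ hS x).aemeasurable (msec _ m2 x).aemeasurable)
      _ = _ := by
          rw [mul_mul_mul_comm, half_mul_half]
  have mG1 : Measurable fun x : ℝ => ∫⁻ p : ℝ × ℝ, G1 (x, p) ^ 2 :=
    (m1.pow_const 2).lintegral_prod_right'
  have mG2 : Measurable fun x : ℝ => ∫⁻ p : ℝ × ℝ, G2 (x, p) ^ 2 :=
    (m2.pow_const 2).lintegral_prod_right'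
  calc ∫⁻ q, S q ^ 4 = ∫⁻ x, ∫⁻ p : ℝ × ℝ, S (x, p) ^ 4 := by
        rw [Measure.volume_eq_prod, lintegral_prod _ (hS.pow_const 4).aemeasurable]
    _ ≤ ∫⁻ x : ℝ, ((∫⁻ q, S q ^ 2) ^ (1 / 2 : ℝ) * (∫⁻ q, G0 q ^ 2) ^ (1 / 2 : ℝ)) *
          ((∫⁻ p : ℝ × ℝ, G1 (x, p) ^ 2) ^ (1 / 2 : ℝ) *
        (∫⁻ p : ℝ × ℝ, G2 (x, p) ^ 2) ^ (1 / 2 : ℝ)) :=
        lintegral_mono fun x => (hsl x).trans (mul_le_mul' (hM x) le_rfl)
    _ = ((∫⁻ q, S q ^ 2) ^ (1 / 2 : ℝ) * (∫⁻ q, G0 q ^ 2) ^ (1 / 2 : ℝ)) *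
          ∫⁻ x : ℝ, ((∫⁻ p : ℝ × ℝ, G1 (x, p) ^ 2) ^ (1 / 2 : ℝ) *
        (∫⁻ p : ℝ × ℝ, G2 (x, p) ^ 2) ^ (1 / 2 : ℝ)) := by
        have mm : Measurable fun x : ℝ => (∫⁻ p : ℝ × ℝ, G1 (x, p) ^ 2) ^ (1 / 2 : ℝ) *
            (∫⁻ p : ℝ × ℝ, G2 (x, p) ^ 2) ^ (1 / 2 : ℝ) :=
          (mG1.pow_const _).mul (mG2.pow_const _)
        rw [lintegral_const_mul _ mm]
    _ ≤ _ := by
        refine mul_le_mul' le_rfl ?_
        have e1 : ∫⁻ q, G1 q ^ 2 = ∫⁻ x, ∫⁻ p : ℝ × ℝ, G1 (x, p) ^ 2 := by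
          rw [Measure.volume_eq_prod, lintegral_prod _ (m1.pow_const 2).aemeasurable]
        have e2 : ∫⁻ q, G2 q ^ 2 = ∫⁻ x, ∫⁻ p : ℝ × ℝ, G2 (x, p) ^ 2 := by
          rw [Measure.volume_eq_prod, lintegral_prod _ (m2.pow_const 2).aemeasurable]
        rw [e1, e2]
        exact ENNReal.lintegral_mul_norm_pow_le mG1.aemeasurable mG2.aemeasurable
          (by norm_num) (by norm_num) (by norm_num)

/-- one dimensional bound -/
theorem one_dim {u : ℝ → ℝ} (hu : ContDiff ℝ 1 u) (hs : HasCompactSupport u) {w : ℝ → ℝ}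
    (hw : ∀ x, |deriv u x| ≤ 2 * w x) (x : ℝ) :
    ENNReal.ofReal (u x) ≤ ∫⁻ y, ENNReal.ofReal (w y) := by
  have hd : Continuous (deriv u) := hu.continuous_deriv le_rfl
  have hds : HasCompactSupport (deriv u) := hs.deriv
  have hi : Integrable (deriv u) := hd.integrable_of_hasCompactSupport hds
  have e1 := hs.integral_Iic_deriv_eq hu x
  have e2 := hs.integral_Ioi_deriv_eq hu x
  have h1 : u x ≤ ∫ y in Set.Iic x, |deriv u y| := by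
    rw [← e1]
    exact integral_mono hi.integrableOn hi.abs.integrableOn fun y => le_abs_self _
  have h2 : u x ≤ ∫ y in Set.Ioi x, |deriv u y| := by
    have : u x = -∫ y in Set.Ioi x, deriv u y := by rw [e2]; ring
    rw [this, ← integral_neg]
    exact integral_mono hi.neg.integrableOn hi.abs.integrableOn fun y => neg_le_abs _
  have h3 : 2 * u x ≤ ∫ y, |deriv u y| := by
    rw [← intervalIntegral.integral_Iic_add_Ioi (b := x) hi.abs.integrableOn hi.abs.integrableOn]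
    linarith
  have h4 : ENNReal.ofReal (2 * u x) ≤ ∫⁻ y, ENNReal.ofReal (2 * w y) := by
    refine (ENNReal.ofReal_le_ofReal h3).trans ?_
    rw [ofReal_integral_eq_lintegral_ofReal hi.abs (Filter.Eventually.of_forall fun y =>
      abs_nonneg _)]
    exact lintegral_mono fun y => ENNReal.ofReal_le_ofReal (hw y)
  have e3 : ∀ r : ℝ, ENNReal.ofReal (2 * r) = 2 * ENNReal.ofReal r := by
    intro r
    rw [ENNReal.ofReal_mul (by norm_num)]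
    norm_num
  simp only [e3] at h4
  rw [lintegral_const_mul' _ _ (by norm_num)] at h4
  exact (ENNReal.mul_le_mul_iff_right (by norm_num) (by norm_num)).1 h4

end Run7.h108
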