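import Pool.Agent.Run7.h108.Slice
import Pool.Agent.Run7.h108.Field

/-!
# The slicing inequality for spinors on `ℝ³`
-/

set_option autoImplicit false

open scoped ENNReal ContDiff
open MeasureTheory

namespace Run7.h108

/-- the point with given coordinates -/
noncomputable def mk3 (q : ℝ × ℝ × ℝ) : R3 := WithLp.toLp 2 ![q.1, q.2.1, q.2.2]

theorem mp_mk3 : MeasurePreserving mk3 volume volume := by
  have h1 : MeasurePreserving (@WithLp.toLp 2 (Fin 3 → ℝ)) volume volume :=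
    PiLp.volume_preserving_toLp (Fin 3)
  have h2 : MeasurePreserving (MeasurableEquiv.piFinSuccAbove (fun _ : Fin 3 => ℝ) 0).symm
      volume volume := (volume_preserving_piFinSuccAbove (fun _ : Fin 3 => ℝ) 0).symm
  have h3 : MeasurePreserving (@MeasurableEquiv.finTwoArrow ℝ _).symm volume volume :=
    (volume_preserving_finTwoArrow ℝ).symm
  have h4 : MeasurePreserving (Prod.map (id : ℝ → ℝ) (@MeasurableEquiv.finTwoArrow ℝ _).symm)
      ((volume : Measure ℝ).prod volume) ((volume : Measure ℝ).prod volume) :=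
    (MeasurePreserving.id _).prod h3
  have h5 := (h1.comp h2).comp h4
  have e : (@WithLp.toLp 2 (Fin 3 → ℝ)) ∘ (MeasurableEquiv.piFinSuccAbove
      (fun _ : Fin 3 => ℝ) 0).symm ∘ (Prod.map (id : ℝ → ℝ)
        (@MeasurableEquiv.finTwoArrow ℝ _).symm) = mk3 := by
    funext q
    obtain ⟨x, y, z⟩ := q
    unfold mk3
    simp only [Function.comp]
    congr 1
    funext i
    fin_cases i <;> rfl
  rw [← e]
  exact h5

theorem measurable_mk3 : Measurable mk3 := mp_mk3.measurable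

theorem norm_ee (j : Fin 3) : ‖ee j‖ = 1 := by simp [ee]

theorem mk3_line0 (x : ℝ) (p : ℝ × ℝ) : mk3 (x, p) = mk3 (0, p) + x • ee 0 := by
  ext i; fin_cases i <;> simp [mk3, ee]

theorem mk3_line1 (x y z : ℝ) : mk3 (x, y, z) = mk3 (x, 0, z) + y • ee 1 := by
  ext i; fin_cases i <;> simp [mk3, ee]

theorem mk3_line2 (x y z : ℝ) : mk3 (x, y, z) = mk3 (x, y, 0) + z • ee 2 := by
  ext i; fin_cases i <;> simp [mk3, ee]

section V

variable {V : Type*} [NormedAddCommGroup V] [InnerProductSpace ℂ V]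

/-- `∂ⱼ|φ|` -/
noncomputable def gg (φ : R3 → V) (j : Fin 3) (x : R3) : ℝ := rp (φ x) (pd j φ x) / ‖φ x‖

theorem gg_mul (φ : R3 → V) (j : Fin 3) (x : R3) : ‖φ x‖ * gg φ j x = rp (φ x) (pd j φ x) := by
  unfold gg
  by_cases h : φ x = 0
  · simp [h, rp_zero_left]
  · have : ‖φ x‖ ≠ 0 := norm_ne_zero_iff.2 h
    field_simp

theorem abs_gg_le (φ : R3 → V) (j : Fin 3) (x : R3) : |gg φ j x| ≤ ‖pd j φ x‖ := by
  unfold gg
  by_cases h : φ x = 0
  · simp [h]
  · have h1 : 0 < ‖φ x‖ := norm_pos_iff.2 h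
    rw [abs_div, abs_of_pos h1, div_le_iff₀ h1]
    have h2 : |rp (φ x) (pd j φ x)| ≤ ‖φ x‖ * ‖pd j φ x‖ :=
      (Complex.abs_re_le_norm _).trans (norm_inner_le_norm _ _)
    linarith

theorem continuous_rp {X : Type*} [TopologicalSpace X] {f g : X → V} (hf : Continuous f)
    (hg : Continuous g) : Continuous fun x => rp (f x) (g x) :=
  Complex.continuous_re.comp (hf.inner hg)

theorem measurable_gg {φ : R3 → V} (hφ : IsTest φ) (j : Fin 3) : Measurable (gg φ j) :=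
  (continuous_rp hφ.continuous (hφ.pd j).continuous).measurable.div
    hφ.continuous.norm.measurable

theorem gg_sq_integrable {φ : R3 → V} (hφ : IsTest φ) (j : Fin 3) :
    Integrable (fun x => gg φ j x ^ 2) := by
  have h1 : Integrable (fun x => ‖pd j φ x‖ ^ 2) :=
    (memLp_two_iff_integrable_sq_norm (hφ.pd j).continuous.aestronglyMeasurable).1
      (memLp_of_cont (hφ.pd j).continuous (hφ.pd j).supp 2)
  refine h1.mono' ((measurable_gg hφ j).pow_const 2).aestronglyMeasurable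
    (Filter.Eventually.of_forall fun x => ?_)
  rw [Real.norm_eq_abs, abs_of_nonneg (sq_nonneg _), ← sq_abs]
  have := abs_gg_le φ j x
  have h3 := abs_nonneg (gg φ j x)
  nlinarith

theorem one_dim_phi {φ : R3 → V} (hφ : IsTest φ) (c : R3) (j : Fin 3) (t : ℝ) :
    ENNReal.ofReal ‖φ (c + t • ee j)‖ ^ 2 ≤
      ∫⁻ s : ℝ, ENNReal.ofReal ‖φ (c + s • ee j)‖ * ENNReal.ofReal |gg φ j (c + s • ee j)| := by
  have hl : ∀ s : ℝ, HasDerivAt (fun s : ℝ => c + s • ee j) (ee j) s := by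
    intro s
    have h := ((hasDerivAt_id s).smul_const (ee j)).const_add c
    simpa using h
  have hlc : ContDiff ℝ ∞ (fun s : ℝ => c + s • ee j) := by fun_prop
  have hφl : ContDiff ℝ ∞ (fun s : ℝ => φ (c + s • ee j)) := hφ.smooth.comp hlc
  have hu : ContDiff ℝ 1 (fun s : ℝ => ‖φ (c + s • ee j)‖ ^ 2) := by
    have h1 : ContDiff ℝ ∞ (fun s : ℝ => ‖φ (c + s • ee j)‖ ^ 2) := hφl.norm_sq ℂ
    exact h1.of_le (WithTop.coe_le_coe.2 le_top)
  have hemb : Topology.IsClosedEmbedding (fun s : ℝ => c + s • ee j) := by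
    have hiso : Isometry (fun s : ℝ => c + s • ee j) := by
      refine Isometry.of_dist_eq fun s s' => ?_
      rw [dist_add_left, dist_eq_norm, ← sub_smul, norm_smul, norm_ee, mul_one, Real.dist_eq,
        Real.norm_eq_abs]
    exact hiso.isClosedEmbedding
  have hs0 : HasCompactSupport (fun s : ℝ => φ (c + s • ee j)) :=
    hφ.supp.comp_isClosedEmbedding hemb
  have hs : HasCompactSupport (fun s : ℝ => ‖φ (c + s • ee j)‖ ^ 2) := by
    refine hs0.mono fun x hx => ?_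
    intro h'; apply hx
    have h'' : φ (c + x • ee j) = 0 := h'
    simp [h'']
  have hd : ∀ s : ℝ, deriv (fun s : ℝ => ‖φ (c + s • ee j)‖ ^ 2) s =
      2 * rp (φ (c + s • ee j)) (pd j φ (c + s • ee j)) := by
    intro s
    have h1 : HasDerivAt (fun s : ℝ => φ (c + s • ee j)) (pd j φ (c + s • ee j)) s :=
      (hφ.differentiable (c + s • ee j)).hasFDerivAt.comp_hasDerivAt s (hl s)
    have h2 := Complex.reCLM.hasFDerivAt.comp_hasDerivAt s (h1.inner ℂ h1)
    have h3 : HasDerivAt (fun s : ℝ => ‖φ (c + s • ee j)‖ ^ 2)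
        (rp (φ (c + s • ee j)) (pd j φ (c + s • ee j)) +
          rp (pd j φ (c + s • ee j)) (φ (c + s • ee j))) s := by
      refine (h2.congr_deriv ?_).congr_of_eventuallyEq
        (Filter.Eventually.of_forall fun s => (rp_self _).symm)
      rfl
    rw [h3.deriv, rp_comm (pd j φ _)]
    ring
  have h := one_dim hu hs (w := fun s => ‖φ (c + s • ee j)‖ * |gg φ j (c + s • ee j)|)
    (fun s => by
      rw [hd, ← gg_mul, abs_mul, abs_mul, abs_of_nonneg (norm_nonneg (φ (c + s • ee j)))]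
      norm_num) t
  rw [← ENNReal.ofReal_pow (norm_nonneg _)]
  refine h.trans (le_of_eq ?_)
  refine lintegral_congr fun s => ?_
  rw [ENNReal.ofReal_mul (norm_nonneg _)]

theorem lint_mk3 {F : R3 → ℝ≥0∞} (hF : Measurable F) : ∫⁻ q, F (mk3 q) = ∫⁻ x, F x :=
  mp_mk3.lintegral_comp hF

theorem ofReal_sq_int {f : R3 → ℝ} (hf : Integrable (fun x => f x ^ 2)) :
    ∫⁻ x, ENNReal.ofReal |f x| ^ 2 = ENNReal.ofReal (∫ x, f x ^ 2) := by
  rw [ofReal_integral_eq_lintegral_ofReal hf (Filter.Eventually.of_forall fun x => sq_nonneg _)]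
  refine lintegral_congr fun x => ?_
  rw [← ENNReal.ofReal_pow (abs_nonneg _), sq_abs]

theorem ofReal_half {a : ℝ} (ha : 0 ≤ a) :
    ENNReal.ofReal a ^ (1 / 2 : ℝ) = ENNReal.ofReal (Real.sqrt a) := by
  rw [ENNReal.ofReal_rpow_of_nonneg ha (by norm_num), Real.sqrt_eq_rpow]

theorem quartic {φ : R3 → V} (hφ : IsTest φ) :
    (∫ x, ‖φ x‖ ^ 4) ^ 2 ≤ (∫ x, ‖φ x‖ ^ 2) * ((∫ x, gg φ 0 x ^ 2) *
      ((∫ x, gg φ 1 x ^ 2) * (∫ x, gg φ 2 x ^ 2))) := by
  have mS : Measurable (fun q : ℝ × ℝ × ℝ => ENNReal.ofReal ‖φ (mk3 q)‖) :=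
    (hφ.continuous.norm.measurable.comp measurable_mk3).ennreal_ofReal
  have mG : ∀ j, Measurable (fun q : ℝ × ℝ × ℝ => ENNReal.ofReal |gg φ j (mk3 q)|) := by
    intro j
    have := ((measurable_gg hφ j).comp measurable_mk3).abs
    exact this.ennreal_ofReal
  have key := slicing (S := fun q => ENNReal.ofReal ‖φ (mk3 q)‖)
    (G0 := fun q => ENNReal.ofReal |gg φ 0 (mk3 q)|)
    (G1 := fun q => ENNReal.ofReal |gg φ 1 (mk3 q)|)
    (G2 := fun q => ENNReal.ofReal |gg φ 2 (mk3 q)|) mS (mG 0) (mG 1) (mG 2)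
    (fun x p => by
      have := one_dim_phi hφ (mk3 (0, p)) 0 x
      simpa only [← mk3_line0] using this)
    (fun x y z => by
      have := one_dim_phi hφ (mk3 (x, 0, z)) 1 y
      simpa only [← mk3_line1] using this)
    (fun x y z => by
      have := one_dim_phi hφ (mk3 (x, y, 0)) 2 z
      simpa only [← mk3_line2] using this)
  have m4 : Measurable (fun x : R3 => ENNReal.ofReal ‖φ x‖ ^ 4) :=
    hφ.continuous.norm.measurable.ennreal_ofReal.pow_const 4
  have m2 : Measurable (fun x : R3 => ENNReal.ofReal ‖φ x‖ ^ 2) :=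
    hφ.continuous.norm.measurable.ennreal_ofReal.pow_const 2
  have mg : ∀ j, Measurable (fun x : R3 => ENNReal.ofReal |gg φ j x| ^ 2) := by
    intro j
    have := (measurable_gg hφ j).abs
    exact this.ennreal_ofReal.pow_const 2
  have i2 : Integrable (fun x => ‖φ x‖ ^ 2) :=
    (memLp_two_iff_integrable_sq_norm hφ.continuous.aestronglyMeasurable).1
      (memLp_of_cont hφ.continuous hφ.supp 2)
  have hs4 : HasCompactSupport (fun x => ‖φ x‖ ^ 4) := by
    refine hφ.supp.mono fun x hx => ?_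
    intro h'; apply hx
    have h'' : φ x = 0 := h'
    simp [h'']
  have i4 : Integrable (fun x => ‖φ x‖ ^ 4) :=
    (hφ.continuous.norm.pow 4).integrable_of_hasCompactSupport hs4
  have e4 : ∫⁻ x, ENNReal.ofReal ‖φ x‖ ^ 4 = ENNReal.ofReal (∫ x, ‖φ x‖ ^ 4) := by
    rw [ofReal_integral_eq_lintegral_ofReal i4
      (Filter.Eventually.of_forall fun x => by positivity)]
    refine lintegral_congr fun x => ?_
    rw [← ENNReal.ofReal_pow (norm_nonneg _)]
  have e2 : ∫⁻ x, ENNReal.ofReal ‖φ x‖ ^ 2 = ENNReal.ofReal (∫ x, ‖φ x‖ ^ 2) := by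
    rw [ofReal_integral_eq_lintegral_ofReal i2
      (Filter.Eventually.of_forall fun x => by positivity)]
    refine lintegral_congr fun x => ?_
    rw [← ENNReal.ofReal_pow (norm_nonneg _)]
  have eg : ∀ j, ∫⁻ x, ENNReal.ofReal |gg φ j x| ^ 2 = ENNReal.ofReal (∫ x, gg φ j x ^ 2) :=
    fun j => ofReal_sq_int (gg_sq_integrable hφ j)
  have n2 : 0 ≤ ∫ x, ‖φ x‖ ^ 2 := integral_nonneg fun x => by positivity
  have ng : ∀ j, 0 ≤ ∫ x, gg φ j x ^ 2 := fun j => integral_nonneg fun x => by positivity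
  have n4 : 0 ≤ ∫ x, ‖φ x‖ ^ 4 := integral_nonneg fun x => by positivity
  rw [lint_mk3 m4, lint_mk3 m2, lint_mk3 (mg 0), lint_mk3 (mg 1), lint_mk3 (mg 2), e4, e2, eg, eg,
    eg, ofReal_half n2, ofReal_half (ng 0), ofReal_half (ng 1), ofReal_half (ng 2),
    ← ENNReal.ofReal_mul (Real.sqrt_nonneg _), ← ENNReal.ofReal_mul (Real.sqrt_nonneg _),
    ← ENNReal.ofReal_mul (by positivity), ENNReal.ofReal_le_ofReal_iff (by positivity)] at key
  calc (∫ x, ‖φ x‖ ^ 4) ^ 2 ≤ _ := pow_le_pow_left₀ n4 key 2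
    _ = _ := by
      rw [mul_pow, mul_pow, mul_pow, Real.sq_sqrt n2, Real.sq_sqrt (ng 0), Real.sq_sqrt (ng 1),
        Real.sq_sqrt (ng 2)]
      ring

end V

/-- arithmetic-geometric mean inequality for four numbers -/
theorem amgm4 {a b c d : ℝ} (ha : 0 ≤ a) (hb : 0 ≤ b) (hc : 0 ≤ c) (hd : 0 ≤ d) :
    256 * (a * b * c * d) ≤ (a + b + c + d) ^ 4 := by
  have h1 : 4 * (a * b) ≤ (a + b) ^ 2 := by nlinarith [sq_nonneg (a - b)]
  have h2 : 4 * (c * d) ≤ (c + d) ^ 2 := by nlinarith [sq_nonneg (c - d)]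
  have h3 : 4 * ((a + b) * (c + d)) ≤ (a + b + c + d) ^ 2 := by
    nlinarith [sq_nonneg (a + b - (c + d))]
  have h4 : 16 * (a * b * c * d) ≤ ((a + b) * (c + d)) ^ 2 := by
    have := mul_le_mul h1 h2 (by positivity) (by positivity)
    nlinarith
  have h5 : 0 ≤ (a + b) * (c + d) := by positivity
  have h6 : (4 * ((a + b) * (c + d))) ^ 2 ≤ ((a + b + c + d) ^ 2) ^ 2 :=
    pow_le_pow_left₀ (by positivity) h3 2
  nlinarith

variable {V : Type*} [NormedAddCommGroup V] [InnerProductSpace ℂ V]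

/-- absorbing the magnetic field -/
theorem absorb {φ : R3 → V} (hφ : IsTest φ) {w : R3 → ℝ} (hw : MemLp w 2 volume)
    {κ : ℝ} (hκ : 0 < κ) :
    ∫ x, w x * ‖φ x‖ ^ 2 ≤ κ * ((∫ x, gg φ 0 x ^ 2) + (∫ x, gg φ 1 x ^ 2) +
      (∫ x, gg φ 2 x ^ 2)) + (∫ x, w x ^ 2) ^ 2 / (256 * κ ^ 3) * ∫ x, ‖φ x‖ ^ 2 := by
  have hq := quartic hφ
  obtain ⟨n2, hn2⟩ : ∃ a, a = ∫ x, ‖φ x‖ ^ 2 := ⟨_, rfl⟩
  obtain ⟨Q, hQ⟩ : ∃ a, a = ∫ x, ‖φ x‖ ^ 4 := ⟨_, rfl⟩
  obtain ⟨g0, hg0⟩ : ∃ a, a = ∫ x, gg φ 0 x ^ 2 := ⟨_, rfl⟩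
  obtain ⟨g1, hg1⟩ : ∃ a, a = ∫ x, gg φ 1 x ^ 2 := ⟨_, rfl⟩
  obtain ⟨g2, hg2⟩ : ∃ a, a = ∫ x, gg φ 2 x ^ 2 := ⟨_, rfl⟩
  obtain ⟨β, hβ⟩ : ∃ a, a = ∫ x, w x ^ 2 := ⟨_, rfl⟩
  obtain ⟨s, hs⟩ : ∃ a, a = ∫ x, w x * ‖φ x‖ ^ 2 := ⟨_, rfl⟩
  have n0 : 0 ≤ g0 := hg0 ▸ integral_nonneg fun x => by positivity
  have n1 : 0 ≤ g1 := hg1 ▸ integral_nonneg fun x => by positivity
  have n2' : 0 ≤ g2 := hg2 ▸ integral_nonneg fun x => by positivity
  have nn : 0 ≤ n2 := hn2 ▸ integral_nonneg fun x => by positivity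
  have nβ : 0 ≤ β := hβ ▸ integral_nonneg fun x => by positivity
  have nQ : 0 ≤ Q := hQ ▸ integral_nonneg fun x => by positivity
  have hs2 : HasCompactSupport (fun x => ‖φ x‖ ^ 2) := by
    refine hφ.supp.mono fun x hx => ?_
    intro h'; apply hx
    have h'' : φ x = 0 := h'
    simp [h'']
  have hη : MemLp (fun x => ‖φ x‖ ^ 2) 2 volume :=
    memLp_of_cont (hφ.continuous.norm.pow 2) hs2 2
  have hcs : s ^ 2 ≤ β * Q := by
    have h1 : ∀ r : ℝ, 0 ≤ β - 2 * r * s + r ^ 2 * Q := by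
      intro r
      have i1 : Integrable (fun x => w x ^ 2) := hw.integrable_sq
      have i2 : Integrable (fun x => w x * ‖φ x‖ ^ 2) := hw.integrable_mul hη
      have i3 : Integrable (fun x => ‖φ x‖ ^ 4) := by
        refine hη.integrable_sq.congr (Filter.Eventually.of_forall fun x => ?_)
        simp only; ring
      have h2 : 0 ≤ ∫ x, (w x - r * ‖φ x‖ ^ 2) ^ 2 := integral_nonneg fun x => by positivity
      have h3 : ∫ x, (w x - r * ‖φ x‖ ^ 2) ^ 2 = β - 2 * r * s + r ^ 2 * Q := by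
        rw [hβ, hs, hQ, ← integral_const_mul, ← integral_const_mul,
          ← integral_sub i1 (i2.const_mul _),
          ← integral_add (isub i1 (i2.const_mul _)) (i3.const_mul _)]
        refine integral_congr_ae (Filter.Eventually.of_forall fun x => ?_)
        simp only; ring
      rwa [h3] at h2
    by_cases hQ0 : Q = 0
    · by_cases hs0 : s = 0
      · rw [hs0]; nlinarith
      · exfalso
        have := h1 ((β + 1) / (2 * s))
        rw [hQ0] at this
        have e : 2 * ((β + 1) / (2 * s)) * s = β + 1 := by field_simp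
        nlinarith
    · have hQp : 0 < Q := lt_of_le_of_ne nQ (Ne.symm hQ0)
      have := h1 (s / Q)
      have e : β - 2 * (s / Q) * s + (s / Q) ^ 2 * Q = β - s ^ 2 / Q := by field_simp; ring
      rw [e] at this
      have h5 : s ^ 2 / Q ≤ β := by linarith
      rwa [div_le_iff₀ hQp] at h5
  rw [← hn2, ← hQ, ← hg0, ← hg1, ← hg2] at hq
  rw [← hn2, ← hg0, ← hg1, ← hg2, ← hβ, ← hs]
  obtain ⟨E, hE⟩ : ∃ E, E = β ^ 2 / (256 * κ ^ 3) * n2 := ⟨_, rfl⟩
  have nE : 0 ≤ E := by rw [hE]; positivity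
  have h4 : s ^ 4 ≤ (κ * g0 + κ * g1 + κ * g2 + E) ^ 4 := by
    refine le_trans ?_ (amgm4 (by positivity) (by positivity) (by positivity) nE)
    have e1 : 256 * (κ * g0 * (κ * g1) * (κ * g2) * E) = β ^ 2 * (n2 * (g0 * (g1 * g2))) := by
      rw [hE]; field_simp
    rw [e1]
    have h6 : s ^ 4 ≤ (β * Q) ^ 2 := by
      have : (s ^ 2) ^ 2 ≤ (β * Q) ^ 2 := pow_le_pow_left₀ (sq_nonneg s) hcs 2
      nlinarith
    refine h6.trans ?_
    rw [mul_pow]
    exact mul_le_mul_of_nonneg_left hq (by positivity)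
  have h7 : 0 ≤ κ * g0 + κ * g1 + κ * g2 + E := by positivity
  rw [← hE]
  have h8 : s ≤ κ * g0 + κ * g1 + κ * g2 + E := by
    by_contra hcon
    have hcon' := not_le.1 hcon
    have := pow_lt_pow_left₀ hcon' h7 (by norm_num : (4 : ℕ) ≠ 0)
    linarith
  linarith

end Run7.h108
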