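import Pool.Agent.Run7.h108.Slice2

/-!
# The static inequality
-/

set_option autoImplicit false

open scoped ENNReal ContDiff InnerProductSpace
open MeasureTheory

namespace Run7.h108

/-- A positive weight at a fixed time, with its derivatives. -/
structure WData where
  f : R3 → ℝ
  ft : R3 → ℝ
  ftt : R3 → ℝ
  fj : Fin 3 → R3 → ℝ
  fjj : Fin 3 → R3 → ℝ
  pos : ∀ x, 0 < f x
  diff : Differentiable ℝ f
  pdf : ∀ j x, pd j f x = fj j x
  diffj : ∀ j, Differentiable ℝ (fj j)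
  pdfj : ∀ j x, pd j (fj j) x = fjj j x
  cft : Continuous ft
  cftt : Continuous ftt
  cfjj : ∀ j, Continuous (fjj j)
  super : ∀ x, fjj 0 x + fjj 1 x + fjj 2 x + ftt x ≤ 0

theorem pd_mul {u v : R3 → ℝ} (hu : Differentiable ℝ u) (hv : Differentiable ℝ v) (j : Fin 3)
    (x : R3) : pd j (fun x => u x * v x) x = pd j u x * v x + u x * pd j v x := by
  unfold pd
  have h := (hu x).hasFDerivAt.fun_mul (hv x).hasFDerivAt
  rw [h.fderiv]
  simp
  ring

theorem diff_div {u v : R3 → ℝ} (hu : Differentiable ℝ u) (hv : Differentiable ℝ v)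
    (h0 : ∀ x, v x ≠ 0) : Differentiable ℝ (fun x => u x / v x) := by
  have h1 : Differentiable ℝ (fun x => (v x)⁻¹) := fun x => (hv x).inv (h0 x)
  have h2 := hu.fun_mul h1
  simpa only [div_eq_mul_inv] using h2

theorem pd_div {u v : R3 → ℝ} (hu : Differentiable ℝ u) (hv : Differentiable ℝ v)
    (h0 : ∀ x, v x ≠ 0) (j : Fin 3) (x : R3) :
    pd j (fun x => u x / v x) x = pd j u x / v x - u x * pd j v x / v x ^ 2 := by
  have hw : Differentiable ℝ (fun x => u x / v x) := diff_div hu hv h0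
  have h1 : pd j (fun x => (u x / v x) * v x) x = pd j u x := by
    congr 1
    funext x
    exact div_mul_cancel₀ _ (h0 x)
  rw [pd_mul hw hv] at h1
  have h2 := h0 x
  field_simp at h1 ⊢
  linear_combination h1

section V

variable {V : Type*} [NormedAddCommGroup V] [InnerProductSpace ℂ V]

theorem integrable_rp {u v : R3 → V} (hu : MemLp u 2 volume) (hv : MemLp v 2 volume) :
    Integrable (fun x => rp (u x) (v x)) := by
  have h1 : Integrable (fun x => ‖u x‖ ^ 2) := (memLp_two_iff_integrable_sq_norm hu.1).1 hu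
  have h2 : Integrable (fun x => ‖v x‖ ^ 2) := (memLp_two_iff_integrable_sq_norm hv.1).1 hv
  have hm : AEStronglyMeasurable (fun x => rp (u x) (v x)) volume :=
    Complex.continuous_re.comp_aestronglyMeasurable (hu.1.inner hv.1)
  refine (iadd h1 h2).mono' hm (Filter.Eventually.of_forall fun x => ?_)
  have h3 : |rp (u x) (v x)| ≤ ‖u x‖ * ‖v x‖ :=
    (Complex.abs_re_le_norm _).trans (norm_inner_le_norm _ _)
  rw [Real.norm_eq_abs]
  nlinarith [sq_nonneg (‖u x‖ - ‖v x‖), sq_nonneg ‖u x‖, sq_nonneg ‖v x‖]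

theorem rp_cov (A : Fin 3 → R3 → ℝ) (φ : R3 → V) (j : Fin 3) (x : R3) :
    rp (φ x) (cov A φ j x) = rp (φ x) (pd j φ x) := by
  unfold cov
  rw [rp_add_right, rp_smul_right, rp_I_self]
  ring

theorem combine_aux (D p0 p1 p2 X0 X1 X2 Y0 Y1 Y2 T TT J0 J1 J2 n G0 G1 G2 dd cc mm ε : ℝ)
    (q1 : (1 - ε) * (5 / 2 * (-(T * D) + (X0 * p0 + X1 * p1 + X2 * p2)) -
      5 / 4 * ((T ^ 2 + (X0 ^ 2 + X1 ^ 2 + X2 ^ 2)) * n)) ≤ (1 - ε) * (dd + cc + mm))
    (q2 : ε * (5 / 2 * (-(0 * D) + (Y0 * p0 + Y1 * p1 + Y2 * p2)) -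
      5 / 4 * ((0 ^ 2 + (Y0 ^ 2 + Y1 ^ 2 + Y2 ^ 2)) * n)) ≤ ε * (dd + cc + mm))
    (q3 : 5 / 4 * (1 - ε) * ((J0 + J1 + J2 + TT) * n) ≤ 5 / 4 * (1 - ε) * 0)
    (e0 : ε * (5 / 2 * (Y0 * p0) - 5 / 4 * (Y0 ^ 2 * n)) = ε * (5 / 4 * G0))
    (e1 : ε * (5 / 2 * (Y1 * p1) - 5 / 4 * (Y1 ^ 2 * n)) = ε * (5 / 4 * G1))
    (e2 : ε * (5 / 2 * (Y2 * p2) - 5 / 4 * (Y2 ^ 2 * n)) = ε * (5 / 4 * G2)) :
    2 * (-(5 / 4 * (1 - ε) * T) * D) +
      5 / 4 * (1 - ε) * (((J0 - X0 ^ 2) * n + X0 * (2 * p0)) + ((J1 - X1 ^ 2) * n + X1 * (2 * p1)) +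
        ((J2 - X2 ^ 2) * n + X2 * (2 * p2))) -
      (-(5 / 4 * (1 - ε) * (TT - T ^ 2)) * n) +
      5 * ε / 4 * (G0 + G1 + G2) ≤ dd + (cc + mm) := by
  linarith

theorem static_ineq {A : Fin 3 → R3 → ℝ} {b : Fin 3 → Fin 3 → R3 → ℝ} (h : WeakField A b)
    (C : Cliff V) (m : ℝ) {φ : R3 → V} (hφ : IsTest φ) (W : WData) {ε : ℝ} (hε : 0 < ε)
    (hε1 : ε ≤ 1) :
    -((∫ x, curlN b x ^ 2) ^ 2 / (500 * ε ^ 3)) * ∫ x, ‖φ x‖ ^ 2 ≤
      2 * (∫ x, ‖dir C m A φ x‖ ^ 2) +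
      (∫ x, -(5 / 4 * (1 - ε) * (W.ftt x / W.f x - (W.ft x / W.f x) ^ 2)) * ‖φ x‖ ^ 2) -
      2 * (∫ x, -(5 / 4 * (1 - ε) * (W.ft x / W.f x)) * rp (φ x) (dir C m A φ x)) := by
  -- notation
  have hfc : Continuous W.f := W.diff.continuous
  have hf0 : ∀ x, W.f x ≠ 0 := fun x => (W.pos x).ne'
  have hη : IsTest (fun x => rp (φ x) (φ x)) := hφ.rp hφ.smooth
  have hηe : ∀ x, rp (φ x) (φ x) = ‖φ x‖ ^ 2 := fun x => rp_self _
  have hpη : ∀ j x, pd j (fun x => rp (φ x) (φ x)) x = 2 * rp (φ x) (pd j φ x) := by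
    intro j x
    rw [pd_rp hφ.differentiable hφ.differentiable, rp_comm (pd j φ x)]
    ring
  -- the vector field
  have hXd : ∀ j, Differentiable ℝ (fun x => W.fj j x / W.f x) := fun j =>
    diff_div (W.diffj j) W.diff hf0
  have hXp : ∀ j x, pd j (fun x => W.fj j x / W.f x) x =
      W.fjj j x / W.f x - (W.fj j x / W.f x) ^ 2 := by
    intro j x
    rw [pd_div (W.diffj j) W.diff hf0, W.pdfj, W.pdf]
    have := hf0 x
    field_simp
  have hY : ∀ j, Differentiable ℝ (fun x => W.fj j x / W.f x * rp (φ x) (φ x)) := fun j =>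
    (hXd j).fun_mul hη.differentiable
  have hYp : ∀ j x, pd j (fun x => W.fj j x / W.f x * rp (φ x) (φ x)) x =
      (W.fjj j x / W.f x - (W.fj j x / W.f x) ^ 2) * rp (φ x) (φ x) +
        W.fj j x / W.f x * (2 * rp (φ x) (pd j φ x)) := by
    intro j x
    rw [pd_mul (hXd j) hη.differentiable, hXp, hpη]
  have hYi : ∀ j, Integrable (fun x => W.fj j x / W.f x * rp (φ x) (φ x)) := by
    intro j
    refine (((hXd j).continuous).mul hη.continuous).integrable_of_hasCompactSupport ?_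
    exact hη.supp.mul_left
  have hYpi : ∀ j, Integrable (pd j (fun x => W.fj j x / W.f x * rp (φ x) (φ x))) := by
    intro j
    have e : pd j (fun x => W.fj j x / W.f x * rp (φ x) (φ x)) = fun x =>
      (W.fjj j x / W.f x - (W.fj j x / W.f x) ^ 2) * rp (φ x) (φ x) +
        W.fj j x / W.f x * pd j (fun x => rp (φ x) (φ x)) x := by
      funext x; rw [hYp, hpη]
    rw [e]
    have c1 : Continuous (fun x => W.fjj j x / W.f x - (W.fj j x / W.f x) ^ 2) :=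
      ((W.cfjj j).div hfc hf0).sub ((hXd j).continuous.pow 2)
    refine iadd ((c1.mul hη.continuous).integrable_of_hasCompactSupport ?_)
      (((hXd j).continuous.mul (hη.pd j).continuous).integrable_of_hasCompactSupport ?_)
    · exact hη.supp.mul_left
    · exact (hη.pd j).supp.mul_left
  have hY0 : ∀ j, ∫ x, pd j (fun x => W.fj j x / W.f x * rp (φ x) (φ x)) x = 0 := fun j =>
    integral_pd_eq_zero (hY j) (hYi j) j (hYpi j)
  -- integrability
  have icov : ∀ j, Integrable (fun x => ‖cov A φ j x‖ ^ 2) := fun j =>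
    (memLp_two_iff_integrable_sq_norm (h.memLp_cov hφ j).1).1 (h.memLp_cov hφ j)
  have iφ : Integrable (fun x => ‖φ x‖ ^ 2) :=
    (memLp_two_iff_integrable_sq_norm hφ.continuous.aestronglyMeasurable).1
      (memLp_of_cont hφ.continuous hφ.supp 2)
  have idir : Integrable (fun x => ‖dir C m A φ x‖ ^ 2) :=
    (memLp_two_iff_integrable_sq_norm (h.memLp_dir C m hφ).1).1 (h.memLp_dir C m hφ)
  have iT : Integrable (fun x => ‖cov A φ 0 x‖ ^ 2 + ‖cov A φ 1 x‖ ^ 2 + ‖cov A φ 2 x‖ ^ 2 +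
      m ^ 2 * ‖φ x‖ ^ 2) := iadd (iadd (iadd (icov 0) (icov 1)) (icov 2)) (iφ.const_mul _)
  have ct : Continuous (fun x => W.ft x / W.f x) := W.cft.div hfc hf0
  have ctt : Continuous (fun x => W.ftt x / W.f x) := W.cftt.div hfc hf0
  have irp : Integrable (fun x => -(5 / 4 * (1 - ε) * (W.ft x / W.f x)) *
      rp (φ x) (dir C m A φ x)) := by
    have c2 : Continuous (fun x => (((-(5 / 4 * (1 - ε) * (W.ft x / W.f x)) : ℝ)) : ℂ) • φ x) :=
      (Complex.continuous_ofReal.comp (continuous_const.mul ct).neg).smul hφ.continuous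
    have c3 : MemLp (fun x => (((-(5 / 4 * (1 - ε) * (W.ft x / W.f x)) : ℝ)) : ℂ) • φ x) 2
        volume := by
      refine memLp_of_cont c2 ?_ 2
      refine hφ.supp.mono fun x hx => ?_
      intro h'; apply hx
      have h'' : φ x = 0 := h'
      simp [h'']
    refine (integrable_rp c3 (h.memLp_dir C m hφ)).congr (Filter.Eventually.of_forall fun x => ?_)
    simp only
    rw [rp_smul_left]
  have iη2 : Integrable (fun x => -(5 / 4 * (1 - ε) * (W.ftt x / W.f x -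
      (W.ft x / W.f x) ^ 2)) * ‖φ x‖ ^ 2) := by
    have c4 : Continuous (fun x => -(5 / 4 * (1 - ε) * (W.ftt x / W.f x -
      (W.ft x / W.f x) ^ 2)) * rp (φ x) (φ x)) :=
      ((continuous_const.mul (ctt.sub (ct.pow 2))).neg).mul hη.continuous
    refine (c4.integrable_of_hasCompactSupport hη.supp.mul_left).congr
      (Filter.Eventually.of_forall fun x => ?_)
    simp only [hηe]
  have ig := fun j => gg_sq_integrable hφ j
  -- the pointwise inequality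
  have hpt : ∀ x, 2 * (-(5 / 4 * (1 - ε) * (W.ft x / W.f x)) * rp (φ x) (dir C m A φ x)) +
      5 / 4 * (1 - ε) * (pd 0 (fun x => W.fj 0 x / W.f x * rp (φ x) (φ x)) x +
        pd 1 (fun x => W.fj 1 x / W.f x * rp (φ x) (φ x)) x +
        pd 2 (fun x => W.fj 2 x / W.f x * rp (φ x) (φ x)) x) -
      (-(5 / 4 * (1 - ε) * (W.ftt x / W.f x - (W.ft x / W.f x) ^ 2)) * ‖φ x‖ ^ 2) +
      5 * ε / 4 * (gg φ 0 x ^ 2 + gg φ 1 x ^ 2 + gg φ 2 x ^ 2) ≤
      ‖dir C m A φ x‖ ^ 2 + (‖cov A φ 0 x‖ ^ 2 + ‖cov A φ 1 x‖ ^ 2 + ‖cov A φ 2 x‖ ^ 2 +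
      m ^ 2 * ‖φ x‖ ^ 2) := by
    intro x
    have r1 := C.refined m (φ x) (fun j => cov A φ j x) (W.ft x / W.f x)
      (fun j => W.fj j x / W.f x)
    have r2 := C.refined m (φ x) (fun j => cov A φ j x) 0
      (fun j => rp (φ x) (pd j φ x) / ‖φ x‖ ^ 2)
    simp only [rp_cov] at r1 r2
    change _ ≤ ‖dir C m A φ x‖ ^ 2 + _ + _ at r1
    change _ ≤ ‖dir C m A φ x‖ ^ 2 + _ + _ at r2
    have hL : ∀ j, 5 / 2 * (rp (φ x) (pd j φ x) / ‖φ x‖ ^ 2 * rp (φ x) (pd j φ x)) -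
        5 / 4 * ((rp (φ x) (pd j φ x) / ‖φ x‖ ^ 2) ^ 2 * ‖φ x‖ ^ 2) = 5 / 4 * gg φ j x ^ 2 := by
      intro j
      unfold gg
      by_cases h0 : ‖φ x‖ = 0
      · simp [h0]
      · field_simp; ring
    have e0 := hL 0
    have e1 := hL 1
    have e2 := hL 2
    have hs := W.super x
    rw [hYp, hYp, hYp, hηe]
    have hn : 0 ≤ ‖φ x‖ ^ 2 := by positivity
    have hs2 : (W.fjj 0 x / W.f x + W.fjj 1 x / W.f x + W.fjj 2 x / W.f x + W.ftt x / W.f x) *
        ‖φ x‖ ^ 2 ≤ 0 := by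
      have : W.fjj 0 x / W.f x + W.fjj 1 x / W.f x + W.fjj 2 x / W.f x + W.ftt x / W.f x =
        (W.fjj 0 x + W.fjj 1 x + W.fjj 2 x + W.ftt x) / W.f x := by ring
      rw [this]
      exact mul_nonpos_of_nonpos_of_nonneg (div_nonpos_of_nonpos_of_nonneg hs (W.pos x).le) hn
    have h1ε : 0 ≤ 1 - ε := by linarith
    -- combine
    have q1 := mul_le_mul_of_nonneg_left r1 h1ε
    have q2 := mul_le_mul_of_nonneg_left r2 hε.le
    have q3 := mul_le_mul_of_nonneg_left hs2 (by positivity : 0 ≤ 5 / 4 * (1 - ε))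
    have e0' := congrArg (fun z => ε * z) e0
    have e1' := congrArg (fun z => ε * z) e1
    have e2' := congrArg (fun z => ε * z) e2
    exact combine_aux (rp (φ x) (C.dpt m (φ x) fun j => cov A φ j x))
      (rp (φ x) (pd 0 φ x)) (rp (φ x) (pd 1 φ x)) (rp (φ x) (pd 2 φ x))
      (W.fj 0 x / W.f x) (W.fj 1 x / W.f x) (W.fj 2 x / W.f x)
      (rp (φ x) (pd 0 φ x) / ‖φ x‖ ^ 2) (rp (φ x) (pd 1 φ x) / ‖φ x‖ ^ 2)
      (rp (φ x) (pd 2 φ x) / ‖φ x‖ ^ 2)
      _ _ _ _ _ _ _ _ _ _ _ _ _ q1 q2 q3 e0' e1' e2'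
  -- integrate
  have iL := iadd idir iT
  have iR := iadd (isub (iadd (irp.const_mul 2) ((iadd (iadd (hYpi 0) (hYpi 1))
    (hYpi 2)).const_mul (5 / 4 * (1 - ε)))) iη2)
    ((iadd (iadd (ig 0) (ig 1)) (ig 2)).const_mul (5 * ε / 4))
  have hint := integral_mono iR iL hpt
  have eL := integral_add idir iT
  have e1 := integral_add (isub (iadd (irp.const_mul 2) ((iadd (iadd (hYpi 0) (hYpi 1))
    (hYpi 2)).const_mul (5 / 4 * (1 - ε)))) iη2)
    ((iadd (iadd (ig 0) (ig 1)) (ig 2)).const_mul (5 * ε / 4))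
  have e2 := integral_sub (iadd (irp.const_mul 2) ((iadd (iadd (hYpi 0) (hYpi 1))
    (hYpi 2)).const_mul (5 / 4 * (1 - ε)))) iη2
  have e3 := integral_add (irp.const_mul 2) ((iadd (iadd (hYpi 0) (hYpi 1))
    (hYpi 2)).const_mul (5 / 4 * (1 - ε)))
  have e4 := integral_add (iadd (hYpi 0) (hYpi 1)) (hYpi 2)
  have e5 := integral_add (hYpi 0) (hYpi 1)
  have e6 := integral_add (iadd (ig 0) (ig 1)) (ig 2)
  have e7 := integral_add (ig 0) (ig 1)
  rw [eL, e1, e2, e3, integral_const_mul, integral_const_mul, integral_const_mul, e4, e5, e6, e7,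
    hY0, hY0, hY0] at hint
  have hds := h.dirac_sq C m hφ
  have hab := absorb hφ h.curl_memLp (κ := 5 * ε / 4) (by positivity)
  have e8 : 256 * (5 * ε / 4) ^ 3 = 500 * ε ^ 3 := by ring
  rw [e8] at hab
  linarith

end V

end Run7.h108
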